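import Pool.Agent.Work.MP_efd9e3_ag.Zero

/-! MODULE BaseLin (MP_efd9e3_ag).

`X : Fin n → A`, all `X i` linear forms, Full.  Write `X i = Σ_j M i j y_j`.  The matrix `M` is invertible:
otherwise there is `x ≠ 0` with `M x = 0`, a common zero of all `X i`, contradicting `zero_of_full`.  So the
algebra map `φ = aeval X : A → A`, `y_i ↦ X i`, is an algebra automorphism (inverse `y_i ↦ Σ_j (M⁻¹) i j y_j`)
and `idl X T = (idl y T).map φ`, where `y = MvPolynomial.X`.  Therefore it suffices to treat `X i = y_i`:
 * `Reg y`: `idl y T` is the monomial ideal `Ideal.span (MvPolynomial.X '' T)`; by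
   `MvPolynomial.mem_ideal_span_X_image` `q ∈ idl y T ↔ ∀ m ∈ q.support, ∃ j ∈ T, m j ≠ 0`; the support of
   `y_i * u` is the shift of the support of `u` by `single i 1`, and `i ∉ T`, so `y_i * u ∈ idl y T` implies
   `u ∈ idl y T`.
 * `Soc (idl X univ) n`: `idl X univ` contains all the variables (through `φ`), so it contains all forms of
   degree `≥ 1`: if `u ∉ idl X univ` is homogeneous of degree `t` then `t = 0`. -/

set_option autoImplicit false

open MvPolynomial

namespace Geproci

variable {K : Type*} [Field K] {n : ℕ}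

private theorem bl_regVar (T : Finset (Fin n)) (i : Fin n) (hi : i ∉ T)
    (u : MvPolynomial (Fin n) K) (h : MvPolynomial.X i * u ∈ idl MvPolynomial.X T) :
    u ∈ idl MvPolynomial.X T := by
  unfold idl at h ⊢
  rw [mem_ideal_span_X_image] at h ⊢
  intro m hm
  obtain ⟨j, hj, hj2⟩ := h (Finsupp.single i 1 + m) (by
    rw [support_X_mul, Finset.mem_map]
    exact ⟨m, hm, rfl⟩)
  refine ⟨j, hj, ?_⟩
  have hij : i ≠ j := by
    rintro rfl
    exact hi (by exact_mod_cast hj)
  rw [Finsupp.add_apply, Finsupp.single_eq_of_ne hij.symm, zero_add] at hj2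
  exact hj2

theorem base_linear (X : Fin n → MvPolynomial (Fin n) K) (hX : ∀ i, (X i).IsHomogeneous 1)
    (hF : Full (idl X Finset.univ)) : Reg X ∧ Soc (idl X Finset.univ) n := by
  classical
  have hlin : ∀ i, ∃ c : Fin n → K, ∑ j, c j • (MvPolynomial.X j : MvPolynomial (Fin n) K) = X i := by
    intro i
    have h1 : X i ∈ homogeneousSubmodule (Fin n) K 1 := hX i
    rw [homogeneousSubmodule_one_eq_span_X] at h1
    exact (Submodule.mem_span_range_iff_exists_fun K).1 h1
  choose c hc using hlin
  let M : Matrix (Fin n) (Fin n) K := Matrix.of c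
  have hMdet : IsUnit M.det := by
    rw [isUnit_iff_ne_zero]
    intro h0
    obtain ⟨v, hv0, hv⟩ := Matrix.exists_mulVec_eq_zero_iff.2 h0
    apply hv0
    refine zero_of_full _ hF v fun q hq => ?_
    have hle : idl X Finset.univ ≤ RingHom.ker (eval v) := by
      unfold idl
      rw [Ideal.span_le]
      rintro _ ⟨i, _, rfl⟩
      rw [SetLike.mem_coe, RingHom.mem_ker, ← hc i, map_sum]
      have h2 : (M.mulVec v) i = 0 := by rw [hv]; rfl
      rw [← h2]
      simp only [Matrix.mulVec, dotProduct, smul_eval, eval_X]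
      rfl
    exact hle hq
  have hM1 : M⁻¹ * M = 1 := Matrix.nonsing_inv_mul M hMdet
  have hM2 : M * M⁻¹ = 1 := Matrix.mul_nonsing_inv M hMdet
  let ψ : MvPolynomial (Fin n) K →ₐ[K] MvPolynomial (Fin n) K :=
    aeval fun i => ∑ j, M⁻¹ i j • (MvPolynomial.X j : MvPolynomial (Fin n) K)
  let φ : MvPolynomial (Fin n) K →ₐ[K] MvPolynomial (Fin n) K := aeval X
  have hφψ : ∀ u, φ (ψ u) = u := by
    have h1 : φ.comp ψ = AlgHom.id K _ := by
      apply MvPolynomial.algHom_ext
      intro i
      simp only [AlgHom.comp_apply, AlgHom.id_apply, φ, ψ, aeval_X, map_sum, map_smul]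
      have h2 : ∀ j, M⁻¹ i j • X j = ∑ k, (M⁻¹ i j * M j k) •
          (MvPolynomial.X k : MvPolynomial (Fin n) K) := by
        intro j
        rw [← hc j, Finset.smul_sum]
        refine Finset.sum_congr rfl fun k _ => ?_
        rw [smul_smul]; rfl
      simp only [h2]
      rw [Finset.sum_comm]
      have h3 : ∀ k, ∑ j, (M⁻¹ i j * M j k) • (MvPolynomial.X k : MvPolynomial (Fin n) K)
          = (1 : Matrix (Fin n) (Fin n) K) i k • MvPolynomial.X k := by
        intro k
        rw [← Finset.sum_smul, ← hM1, Matrix.mul_apply]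
      simp only [h3, Matrix.one_apply, ite_smul, one_smul, zero_smul, Finset.sum_ite_eq,
        Finset.mem_univ, if_true]
    intro u
    exact DFunLike.congr_fun h1 u
  have hψX : ∀ i, ψ (X i) = MvPolynomial.X i := by
    intro i
    rw [← hc i, map_sum]
    simp only [ψ, map_smul, aeval_X]
    have h2 : ∀ j, c i j • (∑ k, M⁻¹ j k • (MvPolynomial.X k : MvPolynomial (Fin n) K))
        = ∑ k, (M i j * M⁻¹ j k) • (MvPolynomial.X k : MvPolynomial (Fin n) K) := by
      intro j
      rw [Finset.smul_sum]
      refine Finset.sum_congr rfl fun k _ => ?_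
      rw [smul_smul]; rfl
    simp only [h2]
    rw [Finset.sum_comm]
    have h3 : ∀ k, ∑ j, (M i j * M⁻¹ j k) • (MvPolynomial.X k : MvPolynomial (Fin n) K)
        = (1 : Matrix (Fin n) (Fin n) K) i k • MvPolynomial.X k := by
      intro k
      rw [← Finset.sum_smul, ← hM2, Matrix.mul_apply]
    simp only [h3, Matrix.one_apply, ite_smul, one_smul, zero_smul, Finset.sum_ite_eq,
      Finset.mem_univ, if_true]
  have hψT : ∀ T : Finset (Fin n), ∀ q ∈ idl X T, ψ q ∈ idl MvPolynomial.X T := by
    intro T q hq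
    have hle : idl X T ≤ (idl (MvPolynomial.X : Fin n → MvPolynomial (Fin n) K) T).comap ψ := by
      conv_lhs => unfold idl
      rw [Ideal.span_le]
      rintro _ ⟨i, hi, rfl⟩
      rw [SetLike.mem_coe, Ideal.mem_comap, hψX]
      exact mem_idl _ (by exact_mod_cast hi)
    exact hle hq
  have hφT : ∀ T : Finset (Fin n), ∀ q ∈ idl MvPolynomial.X T, φ q ∈ idl X T := by
    intro T q hq
    have hle : idl (MvPolynomial.X : Fin n → MvPolynomial (Fin n) K) T ≤ (idl X T).comap φ := by
      conv_lhs => unfold idl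
      rw [Ideal.span_le]
      rintro _ ⟨i, hi, rfl⟩
      rw [SetLike.mem_coe, Ideal.mem_comap]
      simp only [φ, aeval_X]
      exact mem_idl _ (by exact_mod_cast hi)
    exact hle hq
  refine ⟨fun T i hi u hu => ?_, fun u t hu hun _ => ?_⟩
  · have h1 := hψT T _ hu
    rw [map_mul, hψX] at h1
    have h2 := hφT T _ (bl_regVar T i hi _ h1)
    rwa [hφψ] at h2
  · suffices h : t = 0 by omega
    by_contra ht
    apply hun
    rw [← hφψ u]
    apply hφT
    unfold idl
    rw [mem_ideal_span_X_image]
    have hψu : (ψ u).IsHomogeneous t := by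
      have h1 := hu.aeval (fun i => ∑ j, M⁻¹ i j • (MvPolynomial.X j : MvPolynomial (Fin n) K))
        (n := 1) (fun i => by
          refine IsHomogeneous.sum _ _ _ fun j _ => ?_
          have := (isHomogeneous_C_mul_X (R := K) (M⁻¹ i j) j)
          rwa [C_mul'] at this)
      rwa [one_mul] at h1
    intro m hm
    have h1 : Finsupp.weight (fun _ => 1) m = t := hψu (mem_support_iff.1 hm)
    rw [← Finsupp.degree_eq_weight_one, Finsupp.degree_eq_sum] at h1
    by_contra hcon
    push Not at hcon
    apply ht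
    rw [← h1]
    exact Finset.sum_eq_zero fun i _ => hcon i (Finset.mem_coe.2 (Finset.mem_univ i))

end Geproci
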