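import Pool.Agent.Work.MP_efd9e3_ag.Defs

/-! MODULE Hom (MP_efd9e3_ag).  Homogeneous ideals, elementary.

`comp_mem`: induction on `Submodule.span_induction` / or write `q = Σ g_i X_i` over a finite subset
(`Submodule.mem_span_iff_exists_sum`-like, or `Submodule.span_induction` with predicate
(all components lie in the ideal)): the component of degree `t` of `g * X i` (with `X i` homogeneous of
degree `e i`) is `(component of degree t - e i of g) * X i` if `e i ≤ t` and `0` otherwise
(Mathlib: `MvPolynomial.homogeneousComponent_mul`-style facts, `sum_homogeneousComponent`,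
`homogeneousComponent_of_mem`, `IsHomogeneous.mul`).  Alternatively use Mathlib's
`Ideal.homogeneous_span` for the grading `homogeneousSubmodule`.

`split_one`: `u = r + a₀ * b`, `r ∈ idl X T` (`Submodule.mem_sup`, `Ideal.mem_span_singleton'`), take
components of degree `t`: `u = r_t + (a₀)_{t-β} * b` if `β ≤ t`, `u = r_t` otherwise; `r_t ∈ idl X T`
by `comp_mem`.

`split_all`: `u = Σ g_i X_i` and take components of degree `t` in the same way. -/

set_option autoImplicit false

open MvPolynomial

namespace Geproci

variable {K : Type*} [Field K] {n : ℕ} {ι : Type*}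

/-- the components of a product with a form -/
private theorem hm_mul (g b : MvPolynomial (Fin n) K) (β : ℕ) (hb : b.IsHomogeneous β) (t : ℕ) :
    ∃ a : MvPolynomial (Fin n) K, ((∃ s, a.IsHomogeneous s ∧ s + β = t) ∨ a = 0) ∧
      homogeneousComponent t (g * b) = a * b := by
  have h1 : homogeneousComponent t (g * b) = ∑ i ∈ Finset.range (g.totalDegree + 1),
      if t = i + β then homogeneousComponent i g * b else 0 := by
    conv_lhs => rw [← sum_homogeneousComponent g, Finset.sum_mul, map_sum]
    refine Finset.sum_congr rfl fun i _ => ?_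
    exact homogeneousComponent_of_mem ((homogeneousComponent_isHomogeneous i g).mul hb)
  rcases le_or_gt β t with h | h
  · refine ⟨homogeneousComponent (t - β) g,
      Or.inl ⟨t - β, homogeneousComponent_isHomogeneous _ _, by omega⟩, ?_⟩
    rw [h1]
    rcases Nat.lt_or_ge (t - β) (g.totalDegree + 1) with h2 | h2
    · rw [Finset.sum_eq_single (t - β)]
      · rw [if_pos (by omega)]
      · intro i _ hi
        rw [if_neg (by omega)]
      · intro hi
        exact absurd (Finset.mem_range.2 h2) hi
    · rw [homogeneousComponent_eq_zero _ _ (by omega), zero_mul]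
      refine Finset.sum_eq_zero fun i hi => ?_
      rw [Finset.mem_range] at hi
      rw [if_neg (by omega)]
  · refine ⟨0, Or.inr rfl, ?_⟩
    rw [h1, zero_mul]
    exact Finset.sum_eq_zero fun i _ => if_neg (by omega)

theorem comp_mem (X : ι → MvPolynomial (Fin n) K) (e : ι → ℕ)
    (hX : ∀ i, (X i).IsHomogeneous (e i)) (T : Finset ι) (q : MvPolynomial (Fin n) K)
    (hq : q ∈ idl X T) (t : ℕ) : homogeneousComponent t q ∈ idl X T := by
  have hmain : ∀ q ∈ idl X T, ∀ t : ℕ, homogeneousComponent t q ∈ idl X T := by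
    intro q hq
    unfold idl at hq
    refine Submodule.span_induction (p := fun q _ => ∀ t : ℕ, homogeneousComponent t q ∈ idl X T)
      ?_ ?_ ?_ ?_ hq
    · rintro _ ⟨i, hi, rfl⟩ t
      rw [homogeneousComponent_of_mem (hX i)]
      split_ifs
      · exact Ideal.subset_span ⟨i, hi, rfl⟩
      · exact Ideal.zero_mem _
    · intro t
      rw [map_zero]
      exact Ideal.zero_mem _
    · intro x y _ _ hx hy t
      rw [map_add]
      exact Ideal.add_mem _ (hx t) (hy t)
    · intro a x _ hx t
      rw [smul_eq_mul]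
      have h1 : a * x = ∑ j ∈ Finset.range (x.totalDegree + 1), a * homogeneousComponent j x := by
        rw [← Finset.mul_sum, sum_homogeneousComponent]
      rw [h1, map_sum]
      refine Ideal.sum_mem _ fun j _ => ?_
      obtain ⟨c, _, hc⟩ := hm_mul a (homogeneousComponent j x) j
        (homogeneousComponent_isHomogeneous j x) t
      rw [hc]
      exact Ideal.mul_mem_left _ _ (hx j)
  exact hmain q hq t

theorem split_one (X : ι → MvPolynomial (Fin n) K) (e : ι → ℕ)
    (hX : ∀ i, (X i).IsHomogeneous (e i)) (T : Finset ι) (b : MvPolynomial (Fin n) K) (β : ℕ)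
    (hb : b.IsHomogeneous β) (u : MvPolynomial (Fin n) K) (t : ℕ) (hu : u.IsHomogeneous t)
    (h : u ∈ idl X T ⊔ Ideal.span {b}) :
    ∃ a : MvPolynomial (Fin n) K, ((∃ s, a.IsHomogeneous s ∧ s + β = t) ∨ a = 0) ∧
      u - a * b ∈ idl X T := by
  obtain ⟨r, hr, y, hy, hry⟩ := Submodule.mem_sup.1 h
  obtain ⟨a0, rfl⟩ := Ideal.mem_span_singleton'.1 hy
  obtain ⟨a, ha, hab⟩ := hm_mul a0 b β hb t
  refine ⟨a, ha, ?_⟩
  have h1 : homogeneousComponent t u = u := homogeneousComponent_eq_self hu
  rw [← hry, map_add, hab] at h1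
  rw [← hry, ← h1, add_sub_cancel_right]
  exact comp_mem X e hX T r hr t

theorem split_all [Fintype ι] (X : ι → MvPolynomial (Fin n) K) (e : ι → ℕ)
    (hX : ∀ i, (X i).IsHomogeneous (e i)) (u : MvPolynomial (Fin n) K) (t : ℕ)
    (hu : u.IsHomogeneous t) (h : u ∈ Ideal.span (Set.range X)) :
    ∃ g : ι → MvPolynomial (Fin n) K,
      (∀ i, (∃ s, (g i).IsHomogeneous s ∧ s + e i = t) ∨ g i = 0) ∧ u = ∑ i, g i * X i := by
  obtain ⟨c, hc⟩ := Ideal.mem_span_range_iff_exists_fun.1 h
  choose g hg hgX using fun i => hm_mul (c i) (X i) (e i) (hX i) t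
  refine ⟨g, hg, ?_⟩
  have h1 : homogeneousComponent t u = u := homogeneousComponent_eq_self hu
  rw [← hc, map_sum] at h1
  rw [← hc, ← h1]
  exact Finset.sum_congr rfl fun i _ => hgX i

end Geproci
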