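import Pool.Agent.Work.MP_efd9e3_ag.Zero
import Pool.Agent.Work.MP_efd9e3_ag.Hom

/-! MODULE FinFiber (MP_efd9e3_ag).

`finite_fiber`: let `J = span {X i, i ≠ k} ⊔ span {X k - 1}`, and let `N` be the bound of `Full`.
Every polynomial is congruent modulo `J` to a polynomial of total degree `≤ N` (strong induction on the
degree of a form).  So `A / J` is a finite `K`-module; hence every coordinate is integral over `K` modulo
`J`, and takes finitely many values on the set of common zeros. -/

set_option autoImplicit false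

open MvPolynomial

namespace Geproci

variable {K : Type*} [Field K] {n : ℕ} {ι : Type*}

/-- reduction of a form modulo `J` to a polynomial of total degree at most `N` -/
private theorem ff_reduce [Fintype ι] [DecidableEq ι] (X : ι → MvPolynomial (Fin n) K) (e : ι → ℕ)
    (hX : ∀ i, (X i).IsHomogeneous (e i)) (he : ∀ i, 1 ≤ e i) (k : ι) (N : ℕ)
    (hN : ∀ t : ℕ, N ≤ t → ∀ q : MvPolynomial (Fin n) K, q.IsHomogeneous t →
      q ∈ Ideal.span (Set.range X))
    (J : Ideal (MvPolynomial (Fin n) K)) (hJ : ∀ i, i ≠ k → X i ∈ J) (hJk : X k - 1 ∈ J) :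
    ∀ t : ℕ, ∀ q : MvPolynomial (Fin n) K, q.IsHomogeneous t →
      ∃ v ∈ restrictTotalDegree (Fin n) K N, q - v ∈ J := by
  intro t
  induction t using Nat.strong_induction_on with
  | _ t ih =>
    intro q hq
    by_cases ht : t ≤ N
    · refine ⟨q, ?_, by simp⟩
      rw [mem_restrictTotalDegree]
      exact hq.totalDegree_le.trans ht
    · push Not at ht
      obtain ⟨g, hg, hsum⟩ := split_all X e hX q t hq (hN t ht.le q hq)
      have h1 : q - g k ∈ J := by
        have h2 : q - g k = ∑ i ∈ Finset.univ.erase k, g i * X i + g k * (X k - 1) := by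
          rw [hsum, ← Finset.add_sum_erase _ _ (Finset.mem_univ k)]
          ring
        rw [h2]
        apply J.add_mem
        · apply J.sum_mem
          intro i hi
          exact J.mul_mem_left _ (hJ i (Finset.ne_of_mem_erase hi))
        · exact J.mul_mem_left _ hJk
      rcases hg k with ⟨s, hs, hst⟩ | h0
      · obtain ⟨v, hv, hv2⟩ := ih s (by have := he k; omega) (g k) hs
        refine ⟨v, hv, ?_⟩
        have : q - v = (q - g k) + (g k - v) := by ring
        rw [this]
        exact J.add_mem h1 hv2
      · refine ⟨0, Submodule.zero_mem _, ?_⟩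
        rw [h0] at h1
        exact h1

theorem finite_fiber [Fintype ι] [DecidableEq ι] (X : ι → MvPolynomial (Fin n) K) (e : ι → ℕ)
    (hX : ∀ i, (X i).IsHomogeneous (e i)) (he : ∀ i, 1 ≤ e i) (k : ι)
    (hF : Full (idl X Finset.univ)) :
    {x : Fin n → K | (∀ i, i ≠ k → eval x (X i) = 0) ∧ eval x (X k) = 1}.Finite := by
  obtain ⟨N, hN⟩ := hF
  rw [idl_univ] at hN
  set J : Ideal (MvPolynomial (Fin n) K) :=
    Ideal.span ({p | ∃ i, i ≠ k ∧ p = X i} ∪ {X k - 1}) with hJdef
  have hJ : ∀ i, i ≠ k → X i ∈ J := fun i hi =>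
    Ideal.subset_span (Or.inl ⟨i, hi, rfl⟩)
  have hJk : X k - 1 ∈ J := Ideal.subset_span (Or.inr rfl)
  have hred := ff_reduce X e hX he k N hN J hJ hJk
  -- every class has a representative of small degree
  have hall : ∀ q : MvPolynomial (Fin n) K, ∃ v ∈ restrictTotalDegree (Fin n) K N, q - v ∈ J := by
    intro q
    choose v hv hv2 using fun t => hred t (homogeneousComponent t q)
      (homogeneousComponent_isHomogeneous t q)
    refine ⟨∑ t ∈ Finset.range (q.totalDegree + 1), v t, Submodule.sum_mem _ fun t _ => hv t, ?_⟩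
    have h1 : q - ∑ t ∈ Finset.range (q.totalDegree + 1), v t =
        ∑ t ∈ Finset.range (q.totalDegree + 1), (homogeneousComponent t q - v t) := by
      rw [Finset.sum_sub_distrib, sum_homogeneousComponent]
    rw [h1]
    exact J.sum_mem fun t _ => hv2 t
  have hfin : Module.Finite K (MvPolynomial (Fin n) K ⧸ J) := by
    have hsurj : Function.Surjective ((Ideal.Quotient.mkₐ K J).toLinearMap.domRestrict
        (restrictTotalDegree (Fin n) K N)) := by
      intro z
      obtain ⟨q, rfl⟩ := Ideal.Quotient.mk_surjective z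
      obtain ⟨v, hv, hv2⟩ := hall q
      refine ⟨⟨v, hv⟩, ?_⟩
      simp only [LinearMap.domRestrict_apply, AlgHom.toLinearMap_apply, Ideal.Quotient.mkₐ_eq_mk]
      rw [eq_comm, Ideal.Quotient.eq]
      exact hv2
    exact Module.Finite.of_surjective _ hsurj
  -- every coordinate satisfies a polynomial
  have hcoord : ∀ j : Fin n, ∃ p : Polynomial K, p ≠ 0 ∧
      ∀ x : Fin n → K, (∀ i, i ≠ k → eval x (X i) = 0) ∧ eval x (X k) = 1 → x j ∈ p.roots := by
    intro j
    have hint : IsIntegral K (Ideal.Quotient.mkₐ K J (MvPolynomial.X j)) :=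
      Algebra.IsIntegral.isIntegral _
    obtain ⟨p, hp, hp2⟩ := hint
    refine ⟨p, hp.ne_zero, fun x hx => ?_⟩
    rw [Polynomial.mem_roots hp.ne_zero, Polynomial.IsRoot.def]
    have hmem : Polynomial.aeval (MvPolynomial.X j : MvPolynomial (Fin n) K) p ∈ J := by
      rw [← Ideal.Quotient.eq_zero_iff_mem, ← Ideal.Quotient.mkₐ_eq_mk K,
        ← Polynomial.aeval_algHom_apply]
      exact hp2
    have hvan : ∀ q ∈ J, eval x q = 0 := by
      intro q hq
      have hle : J ≤ RingHom.ker (eval x) := by
        rw [hJdef, Ideal.span_le]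
        rintro r (⟨i, hi, rfl⟩ | hr)
        · exact hx.1 i hi
        · rw [Set.mem_singleton_iff] at hr
          rw [hr]
          simp [RingHom.mem_ker, hx.2]
      exact hle hq
    have h3 := hvan _ hmem
    have h4 : eval x (Polynomial.aeval (MvPolynomial.X j : MvPolynomial (Fin n) K) p) =
        Polynomial.eval (x j) p := by
      have h5 : (eval x) (Polynomial.aeval (MvPolynomial.X j : MvPolynomial (Fin n) K) p) =
          (MvPolynomial.aeval x : MvPolynomial (Fin n) K →ₐ[K] K)
            (Polynomial.aeval (MvPolynomial.X j : MvPolynomial (Fin n) K) p) := by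
        rw [MvPolynomial.aeval_eq_eval]
      rw [h5, ← Polynomial.aeval_algHom_apply, MvPolynomial.aeval_X, Polynomial.coe_aeval_eq_eval]
    rw [h4] at h3
    exact h3
  choose p hp hp2 using hcoord
  have hpi : (Set.univ.pi fun j : Fin n => {y : K | y ∈ (p j).roots}).Finite := by
    apply Set.Finite.pi
    intro j
    classical
    have : {y : K | y ∈ (p j).roots} = ((p j).roots.toFinset : Set K) := by
      ext y; simp
    rw [this]
    exact Finset.finite_toSet _
  refine hpi.subset ?_
  intro x hx j _
  exact hp2 j x hx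

end Geproci
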