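import Pool.Agent.Work.MP_efd9e3_ag.Zero
import Pool.Agent.Work.MP_efd9e3_ag.FinFiber

/-! MODULE Lines (MP_efd9e3_ag).

`exists_update`: let `V'` be the finite set of `finite_fiber`.  For `x ∈ V'`, `x ≠ 0` (as `X k` is
homogeneous of degree `≥ 1` and `eval x (X k) = 1`), so some `U j` has `eval x (U j) ≠ 0`: the linear
functional `c ↦ Σ_j c_j eval x (U j)` on `K^J` is not zero.  `K` is infinite, so some `c` is outside all the
(finitely many) kernels (e.g. `Subspace.biUnion_ne_univ_of_top_notMem`, or
`Module.exists_dual_forall_apply_ne_zero`-like lemmas, or a product of non-zero linear polynomials).  Put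
`b = Σ_j C (c_j) * U j`.  Claim: the only common zero of `update X k b` is `0`: let `x ≠ 0` be a common zero.
`eval x (X k) ≠ 0`, otherwise `x` is a common zero of the full system `X` and `x = 0` by `zero_of_full`.  Choose
`c' ∈ K` with `c' ^ (e k) * eval x (X k) = 1` (`K` algebraically closed, `e k ≥ 1`); then `c' • x ∈ V'`
(homogeneity: `eval (c' • x) q = c' ^ t * eval x q`, Mathlib `IsHomogeneous.eval_smul`-like or via
`IsHomogeneous.eval₂`), and `eval (c' • x) b = c' ^ β * eval x b = 0`, contradiction to the choice of `c`.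
Then `full_of_zero`. -/

set_option autoImplicit false

open MvPolynomial

namespace Geproci

variable {K : Type*} [Field K] {n : ℕ} {ι : Type*}

private theorem eval_smul_hom {q : MvPolynomial (Fin n) K} {t : ℕ} (hq : q.IsHomogeneous t)
    (c : K) (x : Fin n → K) : eval (c • x) q = c ^ t * eval x q := by
  rw [eval_eq', eval_eq', Finset.mul_sum]
  refine Finset.sum_congr rfl fun m hm => ?_
  have h1 : ∑ i, m i = t := by
    have := hq (mem_support_iff.1 hm)
    rw [← this, Finsupp.weight_apply, Finsupp.sum_fintype]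
    · simp
    · simp
  simp only [Pi.smul_apply, smul_eq_mul, mul_pow, Finset.prod_mul_distrib]
  rw [Finset.prod_pow_eq_pow_sum, h1]
  ring

theorem exists_update [IsAlgClosed K] [Fintype ι] [DecidableEq ι]
    (X : ι → MvPolynomial (Fin n) K) (e : ι → ℕ)
    (hX : ∀ i, (X i).IsHomogeneous (e i)) (he : ∀ i, 1 ≤ e i) (k : ι)
    (hF : Full (idl X Finset.univ)) {J : Type*} [Fintype J] (U : J → MvPolynomial (Fin n) K) (β : ℕ)
    (hU : ∀ j, (U j).IsHomogeneous β)
    (hV : ∀ x : Fin n → K, (∀ i, i ≠ k → eval x (X i) = 0) → (∀ j, eval x (U j) = 0) → x = 0) :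
    ∃ c : J → K, Full (idl (Function.update X k (∑ j, C (c j) * U j)) Finset.univ) := by
  classical
  have hinf : Infinite K := IsAlgClosed.instInfinite
  have hfin := finite_fiber X e hX he k hF
  set V := hfin.toFinset with hVdef
  have hVmem : ∀ x, x ∈ V ↔ (∀ i, i ≠ k → eval x (X i) = 0) ∧ eval x (X k) = 1 := by
    intro x
    rw [hVdef, Set.Finite.mem_toFinset]
    rfl
  -- a good vector of coefficients
  obtain ⟨c, hc⟩ : ∃ c : J → K, ∀ x ∈ V, ∑ j, c j * eval x (U j) ≠ 0 := by
    set P : MvPolynomial J K := ∏ x ∈ V, ∑ j, MvPolynomial.X j * C (eval x (U j)) with hP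
    have hP0 : P ≠ 0 := by
      rw [hP, Finset.prod_ne_zero_iff]
      intro x hx
      obtain ⟨h1, h2⟩ := (hVmem x).1 hx
      have hx0 : x ≠ 0 := by
        rintro rfl
        have h3 := eval_smul_hom (hX k) (0 : K) (0 : Fin n → K)
        rw [smul_zero, zero_pow (by have := he k; omega), zero_mul] at h3
        rw [h3] at h2
        exact zero_ne_one h2
      obtain ⟨j, hj⟩ : ∃ j, eval x (U j) ≠ 0 := by
        by_contra hcon
        push Not at hcon
        exact hx0 (hV x h1 hcon)
      intro h0
      apply hj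
      have h4 := congrArg (eval (Pi.single j (1 : K))) h0
      rw [map_sum, map_zero] at h4
      rw [← h4, Finset.sum_eq_single j]
      · simp
      · intro j' _ hjj
        simp [Pi.single_eq_of_ne hjj]
      · intro h; exact absurd (Finset.mem_univ j) h
    obtain ⟨c, hc⟩ : ∃ c, eval c P ≠ 0 := by
      by_contra hcon
      push Not at hcon
      exact hP0 (MvPolynomial.funext fun x => by rw [hcon x, map_zero])
    refine ⟨c, fun x hx => ?_⟩
    rw [hP, map_prod, Finset.prod_ne_zero_iff] at hc
    have := hc x hx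
    simpa using this
  refine ⟨c, full_of_zero _ fun x hx => ?_⟩
  by_contra hx0
  have hxi : ∀ i, i ≠ k → eval x (X i) = 0 := by
    intro i hi
    have := hx _ (mem_idl (Function.update X k (∑ j, C (c j) * U j)) (Finset.mem_univ i))
    rwa [Function.update_of_ne hi] at this
  have hxb : eval x (∑ j, C (c j) * U j) = 0 := by
    have := hx _ (mem_idl (Function.update X k (∑ j, C (c j) * U j)) (Finset.mem_univ k))
    rwa [Function.update_self] at this
  have hxk : eval x (X k) ≠ 0 := by
    intro hk
    apply hx0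
    refine zero_of_full _ hF x fun q hq => ?_
    have hle : idl X Finset.univ ≤ RingHom.ker (eval x) := by
      unfold idl
      rw [Ideal.span_le]
      rintro _ ⟨i, -, rfl⟩
      rw [SetLike.mem_coe, RingHom.mem_ker]
      by_cases hi : i = k
      · rw [hi]; exact hk
      · exact hxi i hi
    exact hle hq
  obtain ⟨z, hz⟩ := IsAlgClosed.exists_pow_nat_eq (eval x (X k))⁻¹
    (show 0 < e k by have := he k; omega)
  have hmem : z • x ∈ V := by
    rw [hVmem]
    constructor
    · intro i hi
      rw [eval_smul_hom (hX i), hxi i hi, mul_zero]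
    · rw [eval_smul_hom (hX k), hz, inv_mul_cancel₀ hxk]
  apply hc _ hmem
  have h5 : ∀ j, eval (z • x) (U j) = z ^ β * eval x (U j) := fun j => eval_smul_hom (hU j) z x
  simp only [h5]
  have h6 : ∑ j, c j * (z ^ β * eval x (U j)) = z ^ β * eval x (∑ j, C (c j) * U j) := by
    rw [map_sum, Finset.mul_sum]
    refine Finset.sum_congr rfl fun j _ => ?_
    rw [map_mul, eval_C]
    ring
  rw [h6, hxb, mul_zero]

end Geproci
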