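import Pool.Agent.Work.MP_efd9e3_ag.Hom

/-! MODULE SocUpd (MP_efd9e3_ag).

Let `I' = idl X (univ.erase k)`, `a = X k` (degree `e k ≥ 1`), `Y = update X k b`, so that
`idl X univ = I' ⊔ span {a}`, `idl Y univ = I' ⊔ span {b}` (`idl_univ_split`, `idl_update`).  `a` is regular
modulo `I'` (`Reg X`) and `b` is regular modulo `I'` (`Reg Y` with `T = univ.erase k`, `i = k`).
Let `v` be homogeneous of degree `t`, `v ∉ I' ⊔ span {b}` and `y_j * v ∈ I' ⊔ span {b}` for all `j`.
`a` has positive degree, so `a` lies in the ideal generated by the variables, so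
`a * v ∈ I' ⊔ span {b}`; by `split_one`: `a * v = u * b + r`, `r ∈ I'`, `u = 0` or `u` homogeneous of degree
`s₁` with `s₁ + β = t + e k`.
 * `u ∉ I' ⊔ span {a}`: if `u = w * a + r'`, then `a * (v - w * b) ∈ I'`, so `v - w * b ∈ I'`, contradiction.
   In particular `u ≠ 0`.
 * `y_j * u ∈ I' ⊔ span {a}`: `y_j * v = g * b + r''`, so `a * y_j * v = g * a * b + …` and
   `y_j * a * v = y_j * u * b + …` give `b * (y_j * u - g * a) ∈ I'`, so `y_j * u - g * a ∈ I'`.
 So `s₁ + n = s` by `Soc X s`, hence `t + n + e k = s₁ + β + n = s + β = s' + e k`, i.e. `t + n = s'`. -/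

set_option autoImplicit false

open MvPolynomial

namespace Geproci

variable {K : Type*} [Field K] {n : ℕ} {ι : Type*}

private theorem mem_sup_span' {R : Type*} [CommRing R] (I : Ideal R) (b q : R)
    (h : q ∈ I ⊔ Ideal.span {b}) : ∃ v r : R, r ∈ I ∧ q = v * b + r := by
  obtain ⟨r, hr, s, hs, rfl⟩ := Submodule.mem_sup.mp h
  obtain ⟨v, rfl⟩ := Ideal.mem_span_singleton'.mp hs
  exact ⟨v, r, hr, by ring⟩

/-- a form of positive degree times a socle element lies in the ideal -/
private theorem mul_mem_of_pos (I : Ideal (MvPolynomial (Fin n) K)) (a v : MvPolynomial (Fin n) K)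
    (d : ℕ) (hd : 1 ≤ d) (ha : a.IsHomogeneous d)
    (hv : ∀ j : Fin n, MvPolynomial.X j * v ∈ I) : a * v ∈ I := by
  classical
  rw [a.as_sum, Finset.sum_mul]
  refine Ideal.sum_mem _ fun m hm => ?_
  have hc : coeff m a ≠ 0 := by simpa [mem_support_iff] using hm
  have hdeg := ha hc
  have hm0 : m ≠ 0 := by
    rintro rfl
    simp at hdeg
    omega
  obtain ⟨j, hj⟩ : ∃ j, m j ≠ 0 := by
    by_contra hcon
    push Not at hcon
    exact hm0 (Finsupp.ext hcon)
  have h0 : m - Finsupp.single j 1 + Finsupp.single j 1 = m := by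
    refine tsub_add_cancel_of_le ?_
    rw [Finsupp.single_le_iff]
    omega
  have h1 : monomial m (coeff m a) =
      monomial (m - Finsupp.single j 1) (coeff m a) * MvPolynomial.X j := by
    rw [MvPolynomial.X, monomial_mul, mul_one, h0]
  rw [h1, mul_assoc]
  exact Ideal.mul_mem_left _ _ (hv j)

theorem soc_update [Fintype ι] [DecidableEq ι] (X : ι → MvPolynomial (Fin n) K) (e : ι → ℕ)
    (hX : ∀ i, (X i).IsHomogeneous (e i)) (k : ι) (hek : 1 ≤ e k)
    (b : MvPolynomial (Fin n) K) (β : ℕ) (hb : b.IsHomogeneous β) (hR : Reg X)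
    (hR' : Reg (Function.update X k b)) (s s' : ℕ) (hs : s' + e k = s + β)
    (hS : Soc (idl X Finset.univ) s) :
    Soc (idl (Function.update X k b) Finset.univ) s' := by
  have hRa : ∀ u : MvPolynomial (Fin n) K, X k * u ∈ idl X (Finset.univ.erase k) →
      u ∈ idl X (Finset.univ.erase k) := hR _ k (Finset.notMem_erase k _)
  have hRb : ∀ u : MvPolynomial (Fin n) K, b * u ∈ idl X (Finset.univ.erase k) →
      u ∈ idl X (Finset.univ.erase k) := by
    have := hR' _ k (Finset.notMem_erase k Finset.univ)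
    rw [idl_update X _ k b (Finset.notMem_erase k _), Function.update_self] at this
    exact this
  rw [idl_univ_split X k] at hS
  rw [idl_univ_split _ k, idl_update X _ k b (Finset.notMem_erase k _), Function.update_self]
  set I' := idl X (Finset.univ.erase k) with hI'
  intro v t hvt hv hyv
  have h1 : X k * v ∈ I' ⊔ Ideal.span {b} := mul_mem_of_pos _ _ _ _ hek (hX k) hyv
  obtain ⟨u, hu, huv⟩ := split_one X e hX (Finset.univ.erase k) b β hb (X k * v) (e k + t)
    ((hX k).mul hvt) h1
  have hu1 : u ∉ I' ⊔ Ideal.span {X k} := by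
    intro hcon
    obtain ⟨w, r', hr', hw⟩ := mem_sup_span' _ _ _ hcon
    apply hv
    have h2 : X k * (v - w * b) ∈ I' := by
      have : X k * (v - w * b) = (X k * v - u * b) + b * r' := by
        rw [hw]; ring
      rw [this]
      exact Ideal.add_mem _ huv (Ideal.mul_mem_left _ _ hr')
    have h3 := hRa _ h2
    have : v = (v - w * b) + w * b := by ring
    rw [this]
    exact Submodule.add_mem_sup h3
      (Ideal.mul_mem_left _ _ (Ideal.mem_span_singleton_self _))
  have hu2 : ∀ j : Fin n, MvPolynomial.X j * u ∈ I' ⊔ Ideal.span {X k} := by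
    intro j
    obtain ⟨g, r'', hr'', hg⟩ := mem_sup_span' _ _ _ (hyv j)
    have h2 : b * (MvPolynomial.X j * u - g * X k) ∈ I' := by
      have : b * (MvPolynomial.X j * u - g * X k) =
          X k * r'' - MvPolynomial.X j * (X k * v - u * b) := by
        have h3 : X k * r'' = X k * (MvPolynomial.X j * v) - X k * (g * b) := by
          rw [hg]; ring
        rw [h3]; ring
      rw [this]
      exact Ideal.sub_mem _ (Ideal.mul_mem_left _ _ hr'') (Ideal.mul_mem_left _ _ huv)
    have h3 := hRb _ h2
    have : MvPolynomial.X j * u = (MvPolynomial.X j * u - g * X k) + g * X k := by ring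
    rw [this]
    exact Submodule.add_mem_sup h3
      (Ideal.mul_mem_left _ _ (Ideal.mem_span_singleton_self _))
  rcases hu with ⟨s₁, hus, hst⟩ | rfl
  · have := hS u s₁ hus hu1 hu2
    omega
  · exact absurd (Submodule.zero_mem _) hu1

end Geproci
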