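import Pool.Agent.Work.MP_efd9e3_ag.RegUpd
import Pool.Agent.Work.MP_efd9e3_ag.SocUpd
import Pool.Agent.Work.MP_efd9e3_ag.Lines
import Pool.Agent.Work.MP_efd9e3_ag.BaseLin

/-! MODULE SocMain (MP_efd9e3_ag) (helper69). -/

set_option autoImplicit false

open MvPolynomial

namespace Geproci

variable {K : Type*} [Field K] {n : ℕ}

/-- A member of a full system can be replaced by a linear form. -/
theorem exists_update_linear [IsAlgClosed K] (X : Fin n → MvPolynomial (Fin n) K) (e : Fin n → ℕ)
    (hX : ∀ i, (X i).IsHomogeneous (e i)) (he : ∀ i, 1 ≤ e i) (k : Fin n)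
    (hF : Full (idl X Finset.univ)) :
    ∃ l : MvPolynomial (Fin n) K, l.IsHomogeneous 1 ∧
      Full (idl (Function.update X k l) Finset.univ) := by
  obtain ⟨c, hc⟩ := exists_update X e hX he k hF (fun j : Fin n => MvPolynomial.X (R := K) j) 1
    (fun j => isHomogeneous_X K j) (fun x _ h => by
      funext j
      have := h j
      simpa using this)
  refine ⟨_, ?_, hc⟩
  refine IsHomogeneous.sum _ _ _ fun j _ => ?_
  have := (isHomogeneous_C (Fin n) (c j)).mul (isHomogeneous_X K j)
  simpa using this

theorem soc_main_aux [IsAlgClosed K] (c : ℕ) : ∀ (X : Fin n → MvPolynomial (Fin n) K) (e : Fin n → ℕ),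
    (Finset.univ.filter fun i => e i ≠ 1).card = c → 
    (∀ i, (X i).IsHomogeneous (e i)) → (∀ i, 1 ≤ e i) → Full (idl X Finset.univ) → 
    Reg X ∧ Soc (idl X Finset.univ) (∑ i, e i) := by
  induction c with
  | zero =>
    intro X e hc hX he hF
    have h1 : ∀ i, e i = 1 := by
      intro i
      by_contra h
      have : i ∈ (Finset.univ.filter fun i => e i ≠ 1) := by simp [h]
      rw [Finset.card_eq_zero] at hc
      rw [hc] at this
      simp at this
    have := base_linear X (fun i => by rw [← h1 i]; exact hX i) hF
    have h2 : ∑ i, e i = n := by simp [h1]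
    rw [h2]
    exact this
  | succ c ih =>
    intro X e hc hX he hF
    have hne : (Finset.univ.filter fun i => e i ≠ 1).Nonempty := by
      rw [← Finset.card_pos, hc]; omega
    obtain ⟨k, hk⟩ := hne
    have hk1 : e k ≠ 1 := by simpa using hk
    obtain ⟨l, hl, hFl⟩ := exists_update_linear X e hX he k hF
    set X' := Function.update X k l with hX'def
    set e' := Function.update e k 1 with he'def
    have hX' : ∀ i, (X' i).IsHomogeneous (e' i) := by
      intro i
      by_cases h : i = k
      · subst h; simp [X', e', hl]
      · simp [X', e', h, hX i]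
    have he' : ∀ i, 1 ≤ e' i := by
      intro i
      by_cases h : i = k
      · subst h; simp [e']
      · simp [e', h, he i]
    have hcard : (Finset.univ.filter fun i => e' i ≠ 1).card = c := by
      have : (Finset.univ.filter fun i => e' i ≠ 1) =
          (Finset.univ.filter fun i => e i ≠ 1).erase k := by
        ext i
        simp only [Finset.mem_filter, Finset.mem_univ, true_and, Finset.mem_erase]
        by_cases h : i = k
        · subst h; simp [e']
        · simp [e', h]
      rw [this, Finset.card_erase_of_mem hk, hc]
      rfl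
    obtain ⟨hR', hS'⟩ := ih X' e' hcard hX' he' hFl
    have hback : Function.update X' k (X k) = X := by
      simp [X', Function.update_idem, Function.update_eq_self]
    have hR : Reg X := by
      have := reg_update X' e' hX' he' k (X k) (e k) (hX k) hR' (by rw [hback]; exact hF)
      rwa [hback] at this
    refine ⟨hR, ?_⟩
    have := soc_update X' e' hX' k (he' k) (X k) (e k) (hX k) hR' (by rw [hback]; exact hR)
      (∑ i, e' i) (∑ i, e i) (by
        have h1 : ∑ i, e' i = ∑ i ∈ Finset.univ.erase k, e i + 1 := by
          rw [← Finset.sum_erase_add _ _ (Finset.mem_univ k)]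
          congr 1
          · refine Finset.sum_congr rfl fun i hi => ?_
            have : i ≠ k := (Finset.mem_erase.mp hi).1
            simp [e', this]
          · simp [e']
        have h2 : ∑ i, e i = ∑ i ∈ Finset.univ.erase k, e i + e k := by
          rw [← Finset.sum_erase_add _ _ (Finset.mem_univ k)]
        have h3 : e' k = 1 := by simp [e']
        rw [h1, h2, h3]; ring) hS'
    rwa [hback] at this

theorem soc_main [IsAlgClosed K] (X : Fin n → MvPolynomial (Fin n) K) (e : Fin n → ℕ)
    (hX : ∀ i, (X i).IsHomogeneous (e i)) (he : ∀ i, 1 ≤ e i) (hF : Full (idl X Finset.univ)) :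
    Reg X ∧ Soc (idl X Finset.univ) (∑ i, e i) :=
  soc_main_aux _ X e rfl hX he hF

/-- all forms of degree `> Σ e_i - n` lie in the ideal -/
theorem full_degree [IsAlgClosed K] (X : Fin n → MvPolynomial (Fin n) K) (e : Fin n → ℕ)
    (hX : ∀ i, (X i).IsHomogeneous (e i)) (he : ∀ i, 1 ≤ e i) (hF : Full (idl X Finset.univ))
    (u : MvPolynomial (Fin n) K) (t : ℕ) (hu : u.IsHomogeneous t) (ht : ∑ i, e i < t + n) :
    u ∈ idl X Finset.univ := by
  obtain ⟨-, hS⟩ := soc_main X e hX he hF
  obtain ⟨N, hN⟩ := hF
  -- downward induction: for all s and t with t + s ≥ N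
  have key : ∀ s : ℕ, ∀ (t : ℕ) (u : MvPolynomial (Fin n) K), N ≤ t + s → u.IsHomogeneous t →
      ∑ i, e i < t + n → u ∈ idl X Finset.univ := by
    intro s
    induction s with
    | zero =>
      intro t u h1 h2 _
      exact hN t (by simpa using h1) u h2
    | succ s ih =>
      intro t u h1 h2 h3
      by_contra hcon
      have := hS u t h2 hcon (fun j => by
        refine ih (t+1) _ (by omega) ?_ (by omega)
        have := (isHomogeneous_X K j).mul h2
        rwa [add_comm] at this)
      omega
  exact key N t u (by omega) hu ht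

end Geproci
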