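import Pool.Agent.Work.MP_efd9e3_ag.HilbA
import Pool.Agent.Work.MP_efd9e3_ag.SocMain

/-! MODULE Bezout (MP_efd9e3_ag), helper30.

For a Full system `X` (of `n` forms in `n` variables, degrees `e i ≥ 1`), `Reg X` by `soc_main`, and
`Σ_{t < N} hf (idl X univ) t = Π e_i` for all large `N` (the summands with `t` large vanish).
`tot_sum`: let `I' = idl X (univ.erase k)` and let `b` be homogeneous of degree `β`, regular modulo `I'`
(`hf_step`, `hf_low`): `Σ_{t < N} hf (I' + b) t = Σ_{t<N} hf I' t - Σ_{t < N - β} hf I' t =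
Σ_{N-β ≤ t < N} hf I' t` for `N ≥ β`.  If `hf I' t = h` for all large `t` this is `β * h`.
There is a linear form `ℓ` such that `update X k ℓ` is Full (`exists_update` with `U j = X_j`, the
variables), so `ℓ` is regular modulo `I'` (`soc_main` for `update X k ℓ`), and `hf (I' + ℓ) t = 0` for large
`t`, so `hf I' (t+1) = hf I' t` for large `t`: indeed `hf I' t` is eventually constant `= h` and
`Σ_{t<N} hf (idl (update X k ℓ) univ) t = h`.  Therefore
`Σ_{t<N} hf (idl X univ) t = e k * Σ_{t<N} hf (idl (update X k ℓ) univ) t` for large `N`.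
Induction on the number of indices with `e i ≠ 1` (or replace the members one after the other): finally all
members are linear, `idl X univ` contains all forms of degree `≥ 1` (`full_degree`: `Σ e_i = n < t + n`) and
`hf _ 0 = 1` (`1 ∉ idl X univ`, as all `X i` vanish at `0`; `n` arbitrary), so the sum is `1`. -/

set_option autoImplicit false

open MvPolynomial

namespace Geproci

variable {K : Type*} [Field K] {n : ℕ} {ι : Type*}

theorem sum_hf (X : ι → MvPolynomial (Fin n) K) (e : ι → ℕ)
    (hX : ∀ i, (X i).IsHomogeneous (e i)) (T : Finset ι) (b : MvPolynomial (Fin n) K) (β : ℕ)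
    (hb : b.IsHomogeneous β) (hreg : ∀ u, b * u ∈ idl X T → u ∈ idl X T) (N : ℕ) :
    ∑ t ∈ Finset.range (β + N), hf (idl X T ⊔ Ideal.span {b}) t +
      ∑ t ∈ Finset.range N, hf (idl X T) t =
    ∑ t ∈ Finset.range (β + N), hf (idl X T) t := by
  have h1 : ∑ t ∈ Finset.range β, hf (idl X T ⊔ Ideal.span {b}) t =
      ∑ t ∈ Finset.range β, hf (idl X T) t :=
    Finset.sum_congr rfl fun t ht => hf_low X e hX T b β hb t (Finset.mem_range.mp ht)
  have h2 : ∑ t ∈ Finset.range N, hf (idl X T ⊔ Ideal.span {b}) (β + t) +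
      ∑ t ∈ Finset.range N, hf (idl X T) t = ∑ t ∈ Finset.range N, hf (idl X T) (β + t) := by
    rw [← Finset.sum_add_distrib]
    refine Finset.sum_congr rfl fun t _ => ?_
    rw [add_comm β t]
    exact hf_step X e hX T b β hb hreg t
  rw [Finset.sum_range_add, Finset.sum_range_add, h1, add_assoc, h2]

/-- telescoping for a linear form -/
theorem sum_hf_one (X : ι → MvPolynomial (Fin n) K) (e : ι → ℕ)
    (hX : ∀ i, (X i).IsHomogeneous (e i)) (T : Finset ι) (b : MvPolynomial (Fin n) K)
    (hb : b.IsHomogeneous 1) (hreg : ∀ u, b * u ∈ idl X T → u ∈ idl X T) (N : ℕ) :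
    ∑ t ∈ Finset.range (N + 1), hf (idl X T ⊔ Ideal.span {b}) t = hf (idl X T) N := by
  have h := sum_hf X e hX T b 1 hb hreg N
  rw [add_comm 1 N, Finset.sum_range_succ (fun t => hf (idl X T) t) N] at h
  omega

theorem hf_eq_zero (I : Ideal (MvPolynomial (Fin n) K)) (t : ℕ)
    (h : ∀ q : MvPolynomial (Fin n) K, q.IsHomogeneous t → q ∈ I) : hf I t = 0 := by
  have : (homogeneousSubmodule (Fin n) K t).map (Ideal.Quotient.mkₐ K I).toLinearMap = ⊥ := by
    rw [eq_bot_iff]
    rintro _ ⟨q, hq, rfl⟩
    rw [Submodule.mem_bot]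
    change Ideal.Quotient.mk I q = 0
    rw [Ideal.Quotient.eq_zero_iff_mem]
    exact h q ((mem_homogeneousSubmodule _ _).mp hq)
  unfold hf
  rw [this, finrank_bot]

theorem hf_zero (I : Ideal (MvPolynomial (Fin n) K)) (h : (1 : MvPolynomial (Fin n) K) ∉ I) :
    hf I 0 = 1 := by
  have : (homogeneousSubmodule (Fin n) K 0).map (Ideal.Quotient.mkₐ K I).toLinearMap =
      Submodule.span K {Ideal.Quotient.mk I 1} := by
    apply le_antisymm
    · rintro _ ⟨q, hq, rfl⟩
      have hq' : q.IsHomogeneous 0 := (mem_homogeneousSubmodule _ _).mp hq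
      rw [← totalDegree_zero_iff_isHomogeneous, totalDegree_eq_zero_iff_eq_C] at hq'
      rw [Submodule.mem_span_singleton]
      refine ⟨coeff 0 q, ?_⟩
      have h1 : q = (coeff 0 q) • (1 : MvPolynomial (Fin n) K) := by
        rw [smul_eq_C_mul, mul_one]
        exact hq'
      have h2 := map_smul (Ideal.Quotient.mkₐ K I) (coeff 0 q) (1 : MvPolynomial (Fin n) K)
      rw [← h1] at h2
      exact h2.symm
    · rw [Submodule.span_singleton_le_iff_mem]
      exact ⟨1, (mem_homogeneousSubmodule _ _).mpr (isHomogeneous_one _ _), rfl⟩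
  unfold hf
  rw [this]
  refine finrank_span_singleton ?_
  rw [Ne, Ideal.Quotient.eq_zero_iff_mem]
  exact h

theorem eval_zero_of_homog (q : MvPolynomial (Fin n) K) (t : ℕ) (hq : q.IsHomogeneous t)
    (ht : 1 ≤ t) : eval (0 : Fin n → K) q = 0 := by
  have : eval (0 : Fin n → K) q = constantCoeff q := by
    rw [← MvPolynomial.eval_zero']
    rfl
  rw [this, constantCoeff_eq]
  exact hq.coeff_eq_zero (by simp; omega)

theorem bezout_aux [IsAlgClosed K] (c : ℕ) : ∀ (X : Fin n → MvPolynomial (Fin n) K)
    (e : Fin n → ℕ), (Finset.univ.filter fun i => e i ≠ 1).card = c →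
    (∀ i, (X i).IsHomogeneous (e i)) → (∀ i, 1 ≤ e i) → Full (idl X Finset.univ) →
    ∃ N₀ : ℕ, ∀ N ≥ N₀, ∑ t ∈ Finset.range N, hf (idl X Finset.univ) t = ∏ i, e i := by
  induction c with
  | zero =>
    intro X e hc hX he hF
    have h1 : ∀ i, e i = 1 := by
      intro i
      by_contra h
      have : i ∈ (Finset.univ.filter fun i => e i ≠ 1) := by simp [h]
      rw [Finset.card_eq_zero] at hc
      rw [hc] at this
      simp at this
    have h2 : ∑ i, e i = n := by simp [h1]
    have h3 : ∏ i, e i = 1 := by simp [h1]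
    have hz : ∀ t, 1 ≤ t → hf (idl X Finset.univ) t = 0 := by
      intro t ht
      refine hf_eq_zero _ _ fun q hq => ?_
      exact full_degree X e hX he hF q t hq (by omega)
    have h0 : hf (idl X Finset.univ) 0 = 1 := by
      apply hf_zero
      intro hmem
      have hle : idl X Finset.univ ≤ RingHom.ker (eval (0 : Fin n → K)) := by
        rw [idl_univ, Ideal.span_le]
        rintro _ ⟨i, rfl⟩
        exact eval_zero_of_homog (X i) (e i) (hX i) (he i)
      have := hle hmem
      rw [RingHom.mem_ker, map_one] at this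
      exact one_ne_zero this
    refine ⟨1, fun N hN => ?_⟩
    obtain ⟨M, rfl⟩ : ∃ M, N = M + 1 := ⟨N - 1, by omega⟩
    rw [Finset.sum_range_succ', h0, h3]
    simp [hz]
  | succ c ih =>
    intro X e hc hX he hF
    have hne : (Finset.univ.filter fun i => e i ≠ 1).Nonempty := by
      rw [← Finset.card_pos, hc]; omega
    obtain ⟨k, hk⟩ := hne
    have hk1 : e k ≠ 1 := by simpa using hk
    obtain ⟨l, hl, hFl⟩ := exists_update_linear X e hX he k hF
    set X' := Function.update X k l with hX'def
    set e' := Function.update e k 1 with he'def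
    have hX' : ∀ i, (X' i).IsHomogeneous (e' i) := by
      intro i
      by_cases h : i = k
      · subst h; simp [X', e', hl]
      · simp [X', e', h, hX i]
    have he' : ∀ i, 1 ≤ e' i := by
      intro i
      by_cases h : i = k
      · subst h; simp [e']
      · simp [e', h, he i]
    have hcard : (Finset.univ.filter fun i => e' i ≠ 1).card = c := by
      have : (Finset.univ.filter fun i => e' i ≠ 1) =
          (Finset.univ.filter fun i => e i ≠ 1).erase k := by
        ext i
        simp only [Finset.mem_filter, Finset.mem_univ, true_and, Finset.mem_erase]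
        by_cases h : i = k
        · subst h; simp [e']
        · simp [e', h]
      rw [this, Finset.card_erase_of_mem hk, hc]
      rfl
    obtain ⟨N₀, hN₀⟩ := ih X' e' hcard hX' he' hFl
    have hR := (soc_main X e hX he hF).1
    have hR' := (soc_main X' e' hX' he' hFl).1
    have hI : idl X' (Finset.univ.erase k) = idl X (Finset.univ.erase k) :=
      idl_update X _ k l (Finset.notMem_erase k _)
    have hX'k : X' k = l := by simp [X']
    have hreg : ∀ u, X k * u ∈ idl X (Finset.univ.erase k) → u ∈ idl X (Finset.univ.erase k) :=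
      hR _ k (Finset.notMem_erase k _)
    have hreg' : ∀ u, l * u ∈ idl X (Finset.univ.erase k) → u ∈ idl X (Finset.univ.erase k) := by
      have := hR' _ k (Finset.notMem_erase k Finset.univ)
      rw [hI, hX'k] at this
      exact this
    have hs' : ∀ N, N₀ ≤ N → hf (idl X (Finset.univ.erase k)) N = ∏ i, e' i := by
      intro N hN
      rw [← sum_hf_one X e hX (Finset.univ.erase k) l hl hreg' N, ← hN₀ (N + 1) (by omega),
        idl_univ_split X' k, hI, hX'k]
    have hprod : ∏ i, e i = e k * ∏ i, e' i := by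
      rw [← Finset.mul_prod_erase _ _ (Finset.mem_univ k),
        ← Finset.mul_prod_erase _ e' (Finset.mem_univ k)]
      have : ∏ i ∈ Finset.univ.erase k, e' i = ∏ i ∈ Finset.univ.erase k, e i := by
        refine Finset.prod_congr rfl fun i hi => ?_
        simp [e', (Finset.mem_erase.mp hi).1]
      rw [this]
      simp [e']
    refine ⟨e k + N₀, fun N hN => ?_⟩
    obtain ⟨M, hM, rfl⟩ : ∃ M, N₀ ≤ M ∧ N = e k + M := ⟨N - e k, by omega, by omega⟩
    have h := sum_hf X e hX (Finset.univ.erase k) (X k) (e k) (hX k) hreg M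
    have h2 : ∑ t ∈ Finset.range (e k + M), hf (idl X (Finset.univ.erase k)) t =
        ∑ t ∈ Finset.range M, hf (idl X (Finset.univ.erase k)) t + e k * ∏ i, e' i := by
      rw [add_comm (e k) M, Finset.sum_range_add]
      congr 1
      rw [Finset.sum_congr rfl (fun t _ => hs' (M + t) (by omega)), Finset.sum_const,
        Finset.card_range, smul_eq_mul]
    rw [idl_univ_split X k, hprod]
    omega

theorem bezout [IsAlgClosed K] (X : Fin n → MvPolynomial (Fin n) K) (e : Fin n → ℕ)
    (hX : ∀ i, (X i).IsHomogeneous (e i)) (he : ∀ i, 1 ≤ e i) (hF : Full (idl X Finset.univ)) :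
    ∃ N₀ : ℕ, ∀ N ≥ N₀, ∑ t ∈ Finset.range N, hf (idl X Finset.univ) t = ∏ i, e i :=
  bezout_aux _ X e rfl hX he hF

end Geproci
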