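import Pool.Agent.Work.MP_efd9e3_ag.Defs

/-! MODULE PtsSep (MP_efd9e3_ag).

`exists_lin`: for `u ≠ 0` and `x` not proportional to `u` (`∀ c, x ≠ c • u`) there is a linear form `ℓ`
with `ℓ(u) = 0`, `ℓ(x) ≠ 0` (a functional vanishing on `span {u}` and not at `x`:
`Submodule.exists_dual_map_eq_bot_of_notMem`-like / `Submodule.exists_le_ker_of_notMem`; a functional `μ` on
`Fin n → K` is given by the form `Σ_j μ(e_j) X_j`).

`zeros_vanish`: if `x` is on no line `K y_z` then the product over `z` of linear forms `ℓ_z` with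
`ℓ_z(y_z) = 0`, `ℓ_z(x) ≠ 0` lies in `vanish y` (at `c • y_z` the factor `ℓ_z` vanishes) and does not vanish at
`x`.

`evs_top`: for `t + 1 ≥ card ι` and each `z`: the product over `z' ≠ z` of linear forms vanishing at `y_z'`
and not at `y_z`, times a power of a linear form non-zero at `y_z`, is a form of degree `t` which vanishes at
all `y_z'`, `z' ≠ z`, and not at `y_z`; so `evs y t` contains the `z`-th unit vector.

`exists_nonvanishing`: `K` infinite: there is `w` (a linear form) with `Σ_j w_j (y_z)_j ≠ 0` for all `z`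
(avoid finitely many proper subspaces).  More generally `exists_comb`: if `G : ι → J → K` has `G z ≠ 0` for
all `z` (`ι`, `J` finite) there is `c : J → K` with `Σ_j c_j G z j ≠ 0` for all `z`. -/

set_option autoImplicit false

open MvPolynomial

namespace Geproci

variable {K : Type*} [Field K] {n : ℕ} {ι : Type*}

/-- the linear form of a functional -/
private noncomputable def linf (f : (Fin n → K) →ₗ[K] K) : MvPolynomial (Fin n) K :=
  ∑ j, C (f (fun i => if j = i then 1 else 0)) * X j

private theorem linf_hom (f : (Fin n → K) →ₗ[K] K) : (linf f).IsHomogeneous 1 := by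
  unfold linf
  refine MvPolynomial.IsHomogeneous.sum _ _ _ fun j _ => ?_
  simpa using (isHomogeneous_C (Fin n) (f (fun i => if j = i then 1 else 0))).mul
    (isHomogeneous_X K j)

private theorem linf_eval (f : (Fin n → K) →ₗ[K] K) (x : Fin n → K) : eval x (linf f) = f x := by
  rw [linf, map_sum, LinearMap.pi_apply_eq_sum_univ f x]
  refine Finset.sum_congr rfl fun j _ => ?_
  rw [map_mul, eval_C, eval_X, smul_eq_mul, mul_comm]

private theorem exists_fun (u x : Fin n → K) (hx : ∀ c : K, x ≠ c • u) :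
    ∃ f : (Fin n → K) →ₗ[K] K, f u = 0 ∧ f x ≠ 0 := by
  have h : x ∉ Submodule.span K {u} := by
    rw [Submodule.mem_span_singleton]
    rintro ⟨c, hc⟩
    exact hx c hc.symm
  obtain ⟨f, hf, hle⟩ := Submodule.exists_le_ker_of_notMem h
  exact ⟨f, hle (Submodule.mem_span_singleton_self u), hf⟩

theorem exists_lin (u x : Fin n → K) (hu : u ≠ 0) (hx : ∀ c : K, x ≠ c • u) :
    ∃ l : MvPolynomial (Fin n) K, l.IsHomogeneous 1 ∧ eval u l = 0 ∧ eval x l ≠ 0 := by
  obtain ⟨f, h1, h2⟩ := exists_fun u x hx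
  exact ⟨linf f, linf_hom f, by rw [linf_eval, h1], by rw [linf_eval]; exact h2⟩

theorem zeros_vanish [Fintype ι] (y : ι → Fin n → K) (hy : ∀ z, y z ≠ 0) (x : Fin n → K)
    (hx : ∀ q ∈ vanish y, eval x q = 0) : ∃ z, ∃ c : K, x = c • y z := by
  by_contra hcon
  push Not at hcon
  choose f hf1 hf2 using fun z => exists_fun (y z) x (hcon z)
  have hq : (∏ z, linf (f z)) ∈ vanish y := by
    intro z c
    rw [map_prod]
    apply Finset.prod_eq_zero (Finset.mem_univ z)
    rw [linf_eval, map_smul, hf1, smul_zero]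
  have h := hx _ hq
  rw [map_prod, Finset.prod_eq_zero_iff] at h
  obtain ⟨z, -, hz⟩ := h
  rw [linf_eval] at hz
  exact hf2 z hz

theorem evs_top [Fintype ι] (y : ι → Fin n → K) (hy : Indep y) (t : ℕ)
    (ht : Fintype.card ι ≤ t + 1) : evs y t = ⊤ := by
  classical
  have hsep : ∀ z : ι, ∃ q : MvPolynomial (Fin n) K, q.IsHomogeneous t ∧
      ∀ z', eval (y z') q = if z' = z then 1 else 0 := by
    intro z
    -- the linear form nonzero at y z
    obtain ⟨g, -, hg⟩ := exists_fun (0 : Fin n → K) (y z) (fun c h => hy.1 z (by simpa using h))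
    have hex : ∀ z' : ι, ∃ f : (Fin n → K) →ₗ[K] K, z' ≠ z → (f (y z') = 0 ∧ f (y z) ≠ 0) := by
      intro z'
      by_cases h : z' = z
      · exact ⟨0, fun h' => absurd h h'⟩
      · obtain ⟨f, h1, h2⟩ := exists_fun (y z') (y z) (fun c => hy.2 z' z h c)
        exact ⟨f, fun _ => ⟨h1, h2⟩⟩
    choose f hf using hex
    let q0 : MvPolynomial (Fin n) K :=
      (∏ z' ∈ Finset.univ.erase z, linf (f z')) * (linf g) ^ (t + 1 - Fintype.card ι)
    have hq0 : q0.IsHomogeneous t := by
      have h1 : (∏ z' ∈ Finset.univ.erase z, linf (f z')).IsHomogeneous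
          (∑ z' ∈ Finset.univ.erase z, 1) :=
        MvPolynomial.IsHomogeneous.prod _ _ _ fun z' _ => linf_hom _
      have h2 := h1.mul ((linf_hom g).pow (t + 1 - Fintype.card ι))
      have h3 : (∑ z' ∈ Finset.univ.erase z, 1) + 1 * (t + 1 - Fintype.card ι) = t := by
        rw [Finset.sum_const, smul_eq_mul, mul_one, Finset.card_erase_of_mem (Finset.mem_univ z),
          Finset.card_univ]
        have : 0 < Fintype.card ι := Fintype.card_pos_iff.2 ⟨z⟩
        omega
      rw [h3] at h2
      exact h2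
    have hne : eval (y z) q0 ≠ 0 := by
      simp only [q0, map_mul, map_prod, map_pow, linf_eval]
      refine mul_ne_zero (Finset.prod_ne_zero_iff.2 fun z' hz' => ?_) (pow_ne_zero _ hg)
      exact (hf z' (Finset.ne_of_mem_erase hz')).2
    refine ⟨C (eval (y z) q0)⁻¹ * q0, ?_, ?_⟩
    · simpa using (isHomogeneous_C (Fin n) (eval (y z) q0)⁻¹).mul hq0
    · intro z'
      rw [map_mul, eval_C]
      by_cases h : z' = z
      · rw [if_pos h, h, inv_mul_cancel₀ hne]
      · rw [if_neg h]
        have : eval (y z') q0 = 0 := by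
          simp only [q0, map_mul, map_prod, map_pow, linf_eval]
          rw [Finset.prod_eq_zero (Finset.mem_erase.2 ⟨h, Finset.mem_univ z'⟩) (hf z' h).1,
            zero_mul]
        rw [this, mul_zero]
  choose q hq1 hq2 using hsep
  rw [eq_top_iff]
  intro F _
  rw [mem_evs]
  refine ⟨∑ z, C (F z) * q z, ?_, ?_⟩
  · refine MvPolynomial.IsHomogeneous.sum _ _ _ fun z _ => ?_
    simpa using (isHomogeneous_C (Fin n) (F z)).mul (hq1 z)
  · intro z
    rw [map_sum]
    simp [hq2]

theorem exists_comb [Infinite K] [Finite ι] {J : Type*} [Fintype J] (G : ι → J → K)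
    (hG : ∀ z, G z ≠ 0) : ∃ c : J → K, ∀ z, ∑ j, c j * G z j ≠ 0 := by
  classical
  haveI := Fintype.ofFinite ι
  let p : MvPolynomial J K := ∏ z, ∑ j, C (G z j) * X j
  have hp : p ≠ 0 := by
    refine Finset.prod_ne_zero_iff.2 fun z _ h => ?_
    apply hG z
    ext j
    have h1 : eval (Pi.single j 1) (∑ j, C (G z j) * X j : MvPolynomial J K) = G z j := by
      simp [Pi.single_apply]
    rw [h, map_zero] at h1
    exact h1.symm
  have h2 : ∃ c, eval c p ≠ 0 := by
    by_contra hcon
    push Not at hcon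
    exact hp (MvPolynomial.funext fun c => by rw [hcon c, map_zero])
  obtain ⟨c, hc⟩ := h2
  refine ⟨c, fun z hz => hc ?_⟩
  simp only [p, map_prod]
  apply Finset.prod_eq_zero (Finset.mem_univ z)
  rw [← hz, map_sum]
  refine Finset.sum_congr rfl fun j _ => ?_
  rw [map_mul, eval_C, eval_X, mul_comm]

end Geproci
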