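import Pool.Agent.Work.MP_efd9e3_ag.Defs

/-! MODULE Zero (MP_efd9e3_ag).

`zero_of_full`: `X j ^ N ∈ I` (it is a form of degree `N`), so `x j ^ N = 0`, for all `j` (take `N ≥ 1`,
e.g. use degree `N + 1`).

`full_of_zero`: Nullstellensatz (`MvPolynomial.vanishingIdeal_zeroLocus_eq_radical` for `K` algebraically
closed, `σ = Fin n` finite): the zero locus of `I` is contained in `{0}`, so `X j` lies in the radical of
`I`, so `X j ^ N_j ∈ I`.  With `N = Σ_j N_j` every monomial of degree `≥ N` (`n ≥ 1`; for degree `≥ N` some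
exponent is `≥ N_j`, otherwise the degree is `< N`, or `n = 0` and all `N_j`-sums are `0`: to avoid the case
`n = 0` use `N = Σ_j N_j + 1`) is divisible by some `X j ^ N_j`, hence lies in `I`; a form of degree `t` is a
linear combination of monomials of degree `t` (`MvPolynomial.as_sum`, `IsHomogeneous`).
 -/

set_option autoImplicit false

open MvPolynomial

namespace Geproci

variable {K : Type*} [Field K] {n : ℕ} {ι : Type*}

theorem zero_of_full (I : Ideal (MvPolynomial (Fin n) K)) (h : Full I) (x : Fin n → K)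
    (hx : ∀ q ∈ I, eval x q = 0) : x = 0 := by
  obtain ⟨N, hN⟩ := h
  funext j
  have h1 := hx _ (hN (N + 1) (Nat.le_succ N) _ (isHomogeneous_X_pow j (N + 1)))
  rw [map_pow, eval_X] at h1
  exact pow_eq_zero_iff (Nat.succ_ne_zero N) |>.1 h1

theorem full_of_zero [IsAlgClosed K] (I : Ideal (MvPolynomial (Fin n) K))
    (h : ∀ x : Fin n → K, (∀ q ∈ I, eval x q = 0) → x = 0) : Full I := by
  have hr : ∀ j : Fin n, ∃ N : ℕ, (X j : MvPolynomial (Fin n) K) ^ N ∈ I := by
    intro j
    have h1 : (X j : MvPolynomial (Fin n) K) ∈ I.radical := by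
      rw [← MvPolynomial.vanishingIdeal_zeroLocus_eq_radical (K := K) I]
      intro x hx
      have hx' : x = 0 := h x fun q hq => by
        have := hx q hq
        rwa [aeval_eq_eval] at this
      rw [hx', aeval_X, Pi.zero_apply]
    exact h1
  choose N hN using hr
  refine ⟨∑ j, N j + 1, fun t ht q hq => ?_⟩
  rw [q.as_sum]
  refine Ideal.sum_mem _ fun m hm => ?_
  have hdeg : ∑ j, m j = t := by
    have h1 : Finsupp.weight (fun _ => 1) m = t := hq (mem_support_iff.1 hm)
    rw [← Finsupp.degree_eq_weight_one, Finsupp.degree_eq_sum] at h1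
    exact h1
  obtain ⟨j, hj⟩ : ∃ j, N j ≤ m j := by
    by_contra hcon
    push Not at hcon
    have : ∑ j, m j ≤ ∑ j, N j := Finset.sum_le_sum fun j _ => (hcon j).le
    omega
  have h2 : monomial m (coeff m q) =
      monomial (m - Finsupp.single j (N j)) (coeff m q) * (X j : MvPolynomial (Fin n) K) ^ N j := by
    rw [X_pow_eq_monomial, monomial_mul, mul_one]
    congr 1
    rw [tsub_add_cancel_of_le]
    rw [Finsupp.single_le_iff]
    exact hj
  rw [h2]
  exact Ideal.mul_mem_left _ _ (hN j)

end Geproci
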