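import Pool.Agent.Work.MP_efd9e3_ag.Bezout
import Pool.Agent.Work.MP_efd9e3_ag.PtsSep
import Pool.Agent.Work.MP_efd9e3_ag.Zero

/-! MODULE CardEq (MP_efd9e3_ag), helper30.

`f : Fin m → A` (`m + 1` variables) with `span (range f) = vanish y`: then `card ι = Π d_i`.
Let `ℓ` be a linear form with `ℓ(y_z) ≠ 0` for all `z` (`exists_comb`), `Y = Fin.cons ℓ f`, degrees
`Fin.cons 1 d`.  `Y` is Full: `full_of_zero` and `zeros_vanish` (a common zero of `f` is `c • y_z`, then
`0 = ℓ(x) = c ℓ(y_z)` gives `c = 0`).  `bezout`: `Σ_{t<N} hf (idl Y univ) t = 1 * Π d_i` for large `N`.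
On the other hand `idl f univ = span (range f)` is `vanish y`, `ℓ` is regular modulo it
(`ℓ * u` vanishes on the lines; at `c • y_z`, `c ≠ 0`, divide by `ℓ(c • y_z) ≠ 0`; at `0`: if `u(c y_z) = 0` for
all `c ≠ 0` then also for `c = 0` because `K` is infinite and `c ↦ u(c y_z)` is a polynomial), so by `hf_step`
(with `X = f`, `T = univ`, `b = ℓ`, `β = 1`), `hf_low`:
`Σ_{t < N+1} hf (idl Y univ) t = hf (idl f univ) N`  (telescoping), and for `N` large
`hf (idl f univ) N = card ι`, because the kernel of `A_N → A / span (range f)` is the kernel of the evaluation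
`A_N → K^ι`, so the two images have the same dimension, `finrank (evs y N) = card ι` (`evs_top`). -/

set_option autoImplicit false

open MvPolynomial

namespace Geproci

variable {K : Type*} [Field K] {ι : Type*}

theorem eval_smul_of_homog {n : ℕ} (q : MvPolynomial (Fin n) K) (t : ℕ) (hq : q.IsHomogeneous t)
    (c : K) (x : Fin n → K) : eval (c • x) q = c ^ t * eval x q := by
  rw [eval_eq, eval_eq, Finset.mul_sum]
  refine Finset.sum_congr rfl fun d hd => ?_
  have hdeg : ∑ i ∈ d.support, d i = t := hq.degree_eq_sum_deg_support hd ▸ rfl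
  have : ∏ i ∈ d.support, (c • x) i ^ d i = c ^ t * ∏ i ∈ d.support, x i ^ d i := by
    rw [← hdeg, ← Finset.prod_pow_eq_pow_sum, ← Finset.prod_mul_distrib]
    refine Finset.prod_congr rfl fun i _ => ?_
    rw [Pi.smul_apply, smul_eq_mul, mul_pow]
  rw [this]
  ring

/-- a linear form non-zero at the points is regular modulo the vanishing polynomials -/
theorem mem_vanish_of_mul [Infinite K] {n : ℕ} (y : ι → Fin n → K) (l : MvPolynomial (Fin n) K)
    (hl : l.IsHomogeneous 1) (hly : ∀ z, eval (y z) l ≠ 0) (u : MvPolynomial (Fin n) K)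
    (h : l * u ∈ vanish y) : u ∈ vanish y := by
  intro z c
  set p : Polynomial K := aeval (fun i => Polynomial.C (y z i) * Polynomial.X) u with hp
  have hpe : ∀ a : K, Polynomial.eval a p = eval (a • y z) u := by
    intro a
    rw [hp, ← Polynomial.coe_evalRingHom, MvPolynomial.aeval_def, MvPolynomial.hom_eval₂]
    rw [MvPolynomial.eval, coe_eval₂Hom]
    congr 1
    · ext r
      simp only [RingHom.comp_apply, Polynomial.algebraMap_eq, Polynomial.coe_evalRingHom,
        Polynomial.eval_C, RingHom.id_apply]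
    · funext i
      simp only [Polynomial.coe_evalRingHom, Polynomial.eval_mul, Polynomial.eval_C,
        Polynomial.eval_X, Pi.smul_apply, smul_eq_mul]
      exact mul_comm _ _
  have hzero : Polynomial.X * p = 0 := by
    apply Polynomial.funext
    intro a
    rw [Polynomial.eval_mul, Polynomial.eval_X, hpe, Polynomial.eval_zero]
    by_cases ha : a = 0
    · rw [ha, zero_mul]
    · have h1 := h z a
      rw [map_mul, eval_smul_of_homog l 1 hl, pow_one] at h1
      rcases mul_eq_zero.mp h1 with h2 | h2
      · exact absurd h2 (mul_ne_zero ha (hly z))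
      · rw [h2, mul_zero]
  have hp0 : p = 0 := by
    rcases mul_eq_zero.mp hzero with h2 | h2
    · exact absurd h2 Polynomial.X_ne_zero
    · exact h2
  rw [← hpe, hp0, Polynomial.eval_zero]

theorem finrank_map_eq_of_ker {V W₁ W₂ : Type*} [AddCommGroup V] [Module K V] [AddCommGroup W₁]
    [Module K W₁] [AddCommGroup W₂] [Module K W₂] (f : V →ₗ[K] W₁) (g : V →ₗ[K] W₂)
    (P : Submodule K V) (h : ∀ v ∈ P, f v = 0 ↔ g v = 0) :
    Module.finrank K (P.map f) = Module.finrank K (P.map g) := by
  have h1 : LinearMap.ker (f.domRestrict P) = LinearMap.ker (g.domRestrict P) := by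
    ext v
    rw [LinearMap.mem_ker, LinearMap.mem_ker]
    exact h v v.2
  rw [← LinearMap.range_domRestrict, ← LinearMap.range_domRestrict]
  exact LinearEquiv.finrank_eq (((f.domRestrict P).quotKerEquivRange.symm.trans
    (Submodule.quotEquivOfEq _ _ h1)).trans (g.domRestrict P).quotKerEquivRange)

theorem card_eq [IsAlgClosed K] [Fintype ι] [Nonempty ι] {m : ℕ} (y : ι → Fin (m+1) → K)
    (hy : Indep y)
    (f : Fin m → MvPolynomial (Fin (m+1)) K) (d : Fin m → ℕ) (hd : ∀ i, (f i).IsHomogeneous (d i))
    (hd1 : ∀ i, 1 ≤ d i)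
    (hf : (Ideal.span (Set.range f) : Set (MvPolynomial (Fin (m+1)) K)) = vanish y) :
    Fintype.card ι = ∏ i, d i := by
  have hinf : Infinite K := IsAlgClosed.instInfinite
  obtain ⟨c, hc⟩ := exists_comb y hy.1
  set l : MvPolynomial (Fin (m+1)) K := ∑ j, C (c j) * MvPolynomial.X j with hl
  have hl1 : l.IsHomogeneous 1 := IsHomogeneous.sum _ _ _ fun j _ => isHomogeneous_C_mul_X _ _
  have hle : ∀ x : Fin (m+1) → K, eval x l = ∑ j, c j * x j := by
    intro x; simp [hl]
  have hly : ∀ z, eval (y z) l ≠ 0 := fun z => by rw [hle]; exact hc z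
  have hmem : ∀ q, q ∈ idl f Finset.univ ↔ q ∈ vanish y := by
    intro q; rw [idl_univ, ← hf]; rfl
  have hreg : ∀ u, l * u ∈ idl f Finset.univ → u ∈ idl f Finset.univ := by
    intro u hu
    rw [hmem] at hu ⊢
    exact mem_vanish_of_mul y l hl1 hly u hu
  set Y : Fin (m+1) → MvPolynomial (Fin (m+1)) K := Fin.cons l f with hY
  set e : Fin (m+1) → ℕ := Fin.cons 1 d with he
  have hYe : ∀ i, (Y i).IsHomogeneous (e i) := by
    intro i
    refine Fin.cases ?_ (fun i => ?_) i
    · simpa [hY, he] using hl1
    · simpa [hY, he] using hd i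
  have he1 : ∀ i, 1 ≤ e i := by
    intro i
    refine Fin.cases ?_ (fun i => ?_) i
    · simp [he]
    · simpa [he] using hd1 i
  have hYi : idl Y Finset.univ = idl f Finset.univ ⊔ Ideal.span {l} := by
    rw [idl_univ, idl_univ, hY, Fin.range_cons, Ideal.span_insert, sup_comm]
  have hFull : Full (idl Y Finset.univ) := by
    apply full_of_zero
    intro x hx
    have h1 : ∀ q ∈ vanish y, eval x q = 0 := by
      intro q hq
      apply hx
      rw [hYi]
      exact Ideal.mem_sup_left ((hmem q).mpr hq)
    obtain ⟨z, a, rfl⟩ := zeros_vanish y hy.1 x h1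
    have h2 : eval (a • y z) l = 0 := by
      apply hx
      rw [hYi]
      exact Ideal.mem_sup_right (Ideal.mem_span_singleton_self l)
    rw [eval_smul_of_homog l 1 hl1, pow_one] at h2
    rcases mul_eq_zero.mp h2 with h3 | h3
    · rw [h3, zero_smul]
    · exact absurd h3 (hly z)
  obtain ⟨N₀, hN₀⟩ := bezout Y e hYe he1 hFull
  have hprod : ∏ i, e i = ∏ i, d i := by
    rw [Fin.prod_univ_succ]; simp [he]
  set N := N₀ + Fintype.card ι with hN
  have h1 := hN₀ (N + 1) (by omega)
  rw [hYi, sum_hf_one f d hd Finset.univ l hl1 hreg N, hprod] at h1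
  rw [← h1]
  have h2 : Geproci.hf (idl f Finset.univ) N = Module.finrank K (evs y N) := by
    unfold Geproci.hf evs
    apply finrank_map_eq_of_ker
    intro v hv
    have hv' : v.IsHomogeneous N := (mem_homogeneousSubmodule _ _).mp hv
    change Ideal.Quotient.mk _ v = 0 ↔ _
    rw [Ideal.Quotient.eq_zero_iff_mem, hmem]
    constructor
    · intro h
      funext z
      have := h z 1
      rw [one_smul] at this
      simpa [aeval_eq_eval] using this
    · intro h z a
      have := congrFun h z
      have h3 : eval (y z) v = 0 := by simpa [aeval_eq_eval] using this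
      rw [eval_smul_of_homog v N hv', h3, mul_zero]
  rw [h2, evs_top y hy N (by omega), finrank_top, Module.finrank_fintype_fun_eq_card]

end Geproci
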