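import Pool.Agent.Work.MP_efd9e3_ag.ChooseStep

/-! MODULE ChooseQ (MP_efd9e3_ag).

`J = span {∂_j f_l}`.  The common zeros of `f` are the lines `K y_z` (`zeros_vanish`).
Step 0.  `q_0 = Σ_j C (c_j) ∂_j f_{k0}` with `q_0(y_z) ≠ 0` for all `z` (`exists_comb`, `hgrad k0`), degree
`d k0 - 1 ≥ 1`.  The system `Fin.cons q_0 f : Fin (m+1) → A` is Full
(`full_of_zero`: a common zero is `c • y_z` with `c ^ (d k0 - 1) q_0(y_z) = 0`, so `c = 0`).
Induction.  For every `k ≤ m` there are a set `S` of `k` indices with `d l ≤ d l'` for all `l ∈ S`, `l' ∉ S`, and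
a Full system `X : Fin (m+1) → A` of forms of degrees `e`, with `X 0 = q_0`, `X l.succ ∈ J` of degree
`d l - 1` for `l ∈ S`, `X l.succ = f l` for `l ∉ S` (degree `d l`).  Step: choose `i ∉ S` with `d i` minimal among
the indices not in `S` (`Finset.exists_min_image`), apply `choose_step` and `Function.update`.
At the end (`k = m`, `S = univ`) the degrees are `e 0 = d k0 - 1`, `e i.succ = d i - 1` (`≥ 1` as `2 ≤ d i`), so
`Σ e + m + 1 = d k0 + Σ d` (`Fin.sum_univ_succ`). -/

set_option autoImplicit false

open MvPolynomial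

namespace Geproci

variable {K : Type*} [Field K] {ι : Type*}

private theorem eval_smul_hom' {n : ℕ} (q : MvPolynomial (Fin n) K) (t : ℕ) (hq : q.IsHomogeneous t)
    (c : K) (x : Fin n → K) : eval (c • x) q = c ^ t * eval x q := by
  rw [eval_eq', eval_eq', Finset.mul_sum]
  apply Finset.sum_congr rfl
  intro d hd
  have h1 : Finsupp.weight 1 d = t := hq (mem_support_iff.1 hd)
  have h2 : ∑ i, d i = t := by
    rw [← h1, Finsupp.weight_apply, Finsupp.sum_fintype _ _ (by simp)]
    simp
  have h3 : ∏ i, (c • x) i ^ d i = c ^ t * ∏ i, x i ^ d i := by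
    simp only [Pi.smul_apply, smul_eq_mul, mul_pow]
    rw [Finset.prod_mul_distrib, Finset.prod_pow_eq_pow_sum, h2]
  rw [h3]
  ring

theorem choose_q [IsAlgClosed K] [CharZero K] [Fintype ι] {m : ℕ}
    (y : ι → Fin (m+1) → K) (hy : Indep y)
    (f : Fin m → MvPolynomial (Fin (m+1)) K) (d : Fin m → ℕ) (hd : ∀ i, (f i).IsHomogeneous (d i))
    (hf : (Ideal.span (Set.range f) : Set (MvPolynomial (Fin (m+1)) K)) = vanish y)
    (h2 : ∀ i, 2 ≤ d i)
    (hgrad : ∀ k z, ∃ j, eval (y z) (pderiv j (f k)) ≠ 0) (k0 : Fin m) :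
    ∃ (q : Fin (m+1) → MvPolynomial (Fin (m+1)) K) (e : Fin (m+1) → ℕ),
      (∀ i, (q i).IsHomogeneous (e i)) ∧ (∀ i, 1 ≤ e i) ∧ Full (idl q Finset.univ) ∧
      (∀ i, q i ∈ Ideal.span
        (Set.range fun jl : Fin (m+1) × Fin m => pderiv jl.1 (f jl.2))) ∧
      (∑ i, e i) + m + 1 = d k0 + ∑ i, d i := by
  classical
  set JI : Ideal (MvPolynomial (Fin (m+1)) K) := Ideal.span
    (Set.range fun jl : Fin (m+1) × Fin m => pderiv jl.1 (f jl.2)) with hJI
  -- step 0
  obtain ⟨c0, hc0⟩ := exists_comb (fun z j => eval (y z) (pderiv j (f k0))) (by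
    intro z h
    obtain ⟨j, hj⟩ := hgrad k0 z
    exact hj (congrFun h j))
  set q0 : MvPolynomial (Fin (m+1)) K := ∑ j, C (c0 j) * pderiv j (f k0) with hq0
  have hq0h : q0.IsHomogeneous (d k0 - 1) :=
    IsHomogeneous.sum _ _ _ fun j _ => ((hd k0).pderiv (i := j)).C_mul _
  have hq0J : q0 ∈ JI := Ideal.sum_mem _ fun j _ =>
    Ideal.mul_mem_left _ _ (Ideal.subset_span ⟨(j, k0), rfl⟩)
  have hq0y : ∀ z, eval (y z) q0 ≠ 0 := by
    intro z
    rw [hq0, map_sum]
    have h1 := hc0 z
    simpa using h1
  have h0full : Full (idl (Fin.cons q0 f : Fin (m+1) → MvPolynomial (Fin (m+1)) K)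
      Finset.univ) := by
    apply full_of_zero
    intro x hx
    by_contra hx0
    obtain ⟨z, c', hcz⟩ := zeros_vanish y hy.1 x (by
      intro q hq
      rw [← hf] at hq
      have h1 : Ideal.span (Set.range f) ≤ RingHom.ker (eval x) := by
        rw [Ideal.span_le]
        rintro _ ⟨l, rfl⟩
        refine hx _ ?_
        have := mem_idl (Fin.cons q0 f : Fin (m+1) → MvPolynomial (Fin (m+1)) K)
          (Finset.mem_univ l.succ)
        rwa [Fin.cons_succ] at this
      exact h1 hq)
    have hc'0 : c' ≠ 0 := by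
      rintro rfl
      rw [zero_smul] at hcz
      exact hx0 hcz
    have h2 : eval x q0 = 0 := by
      refine hx _ ?_
      have := mem_idl (Fin.cons q0 f : Fin (m+1) → MvPolynomial (Fin (m+1)) K)
        (Finset.mem_univ (0 : Fin (m+1)))
      rwa [Fin.cons_zero] at this
    rw [hcz, eval_smul_hom' _ _ hq0h] at h2
    exact (mul_eq_zero.1 h2).elim (pow_ne_zero _ hc'0) (hq0y z)
  -- induction
  have main : ∀ k ≤ m, ∃ (S : Finset (Fin m)) (X : Fin (m+1) → MvPolynomial (Fin (m+1)) K)
      (e : Fin (m+1) → ℕ), S.card = k ∧ (∀ l ∈ S, ∀ l' ∉ S, d l ≤ d l') ∧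
      (∀ i, (X i).IsHomogeneous (e i)) ∧ Full (idl X Finset.univ) ∧
      X 0 = q0 ∧ e 0 = d k0 - 1 ∧
      (∀ l ∈ S, X l.succ ∈ JI ∧ e l.succ = d l - 1) ∧
      (∀ l, l ∉ S → X l.succ = f l ∧ e l.succ = d l) := by
    intro k
    induction k with
    | zero =>
      intro _
      refine ⟨∅, Fin.cons q0 f, Fin.cons (d k0 - 1) d, rfl, by simp, ?_, h0full, rfl, rfl,
        by simp, fun l _ => ⟨rfl, rfl⟩⟩
      intro i
      refine Fin.cases ?_ (fun l => ?_) i
      · exact hq0h
      · exact hd l
    | succ k ih =>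
      intro hk
      obtain ⟨S, X, e, hcard, hS, hX, hF, hX0, he0, hin, hout⟩ := ih (by omega)
      have hne : (Finset.univ \ S).Nonempty := by
        rw [← Finset.card_pos, Finset.card_sdiff_of_subset (Finset.subset_univ _),
          Finset.card_univ, Fintype.card_fin, hcard]
        omega
      obtain ⟨i, hi, hmin⟩ := Finset.exists_min_image _ d hne
      rw [Finset.mem_sdiff] at hi
      have hiS : i ∉ S := hi.2
      have he : ∀ j, 1 ≤ e j := by
        intro j
        refine Fin.cases ?_ (fun l => ?_) j
        · have := h2 k0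
          omega
        · by_cases hl : l ∈ S
          · have h3 := (hin l hl).2
            have := h2 l
            omega
          · have h3 := (hout l hl).2
            have := h2 l
            omega
      obtain ⟨b, hb1, hb2, hb3⟩ := choose_step y hy f d hd hf h2 hgrad S i hiS
        (fun l hl => hS l hl i hiS) X e hX he (fun l hl => (hout l hl).1) hF
      refine ⟨insert i S, Function.update X i.succ b, Function.update e i.succ (d i - 1),
        ?_, ?_, ?_, hb3, ?_, ?_, ?_, ?_⟩
      · rw [Finset.card_insert_of_notMem hiS, hcard]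
      · intro l hl l' hl'
        rw [Finset.mem_insert, not_or] at hl'
        rcases Finset.mem_insert.1 hl with h | h
        · rw [h]
          exact hmin l' (by rw [Finset.mem_sdiff]; exact ⟨Finset.mem_univ _, hl'.2⟩)
        · exact hS l h l' hl'.2
      · intro j
        by_cases hj : j = i.succ
        · subst hj
          rw [Function.update_self, Function.update_self]
          exact hb1
        · rw [Function.update_of_ne hj, Function.update_of_ne hj]
          exact hX j
      · rw [Function.update_of_ne (Fin.succ_ne_zero i).symm]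
        exact hX0
      · rw [Function.update_of_ne (Fin.succ_ne_zero i).symm]
        exact he0
      · intro l hl
        by_cases hli : l = i
        · subst hli
          rw [Function.update_self, Function.update_self]
          exact ⟨hb2, rfl⟩
        · have h3 : l.succ ≠ i.succ := fun h => hli (Fin.succ_injective _ h)
          rw [Function.update_of_ne h3, Function.update_of_ne h3]
          exact hin l ((Finset.mem_insert.1 hl).resolve_left hli)
      · intro l hl
        rw [Finset.mem_insert, not_or] at hl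
        have h3 : l.succ ≠ i.succ := fun h => hl.1 (Fin.succ_injective _ h)
        rw [Function.update_of_ne h3, Function.update_of_ne h3]
        exact hout l hl.2
  obtain ⟨S, X, e, hcard, hS, hX, hF, hX0, he0, hin, hout⟩ := main m le_rfl
  have hSu : S = Finset.univ := by
    rw [← Finset.card_eq_iff_eq_univ, hcard, Fintype.card_fin]
  subst hSu
  refine ⟨X, e, hX, ?_, hF, ?_, ?_⟩
  · intro j
    refine Fin.cases ?_ (fun l => ?_) j
    · have := h2 k0
      omega
    · have h3 := (hin l (Finset.mem_univ _)).2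
      have := h2 l
      omega
  · intro j
    refine Fin.cases ?_ (fun l => ?_) j
    · rw [hX0]
      exact hq0J
    · exact (hin l (Finset.mem_univ _)).1
  · rw [Fin.sum_univ_succ, he0]
    have h3 : ∑ l : Fin m, e l.succ + m = ∑ l, d l := by
      have h4 : ∑ l : Fin m, (e l.succ + 1) = ∑ l, d l := by
        apply Finset.sum_congr rfl
        intro l _
        have h5 := (hin l (Finset.mem_univ _)).2
        have := h2 l
        omega
      rw [Finset.sum_add_distrib] at h4
      simpa using h4
    have := h2 k0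
    omega

end Geproci
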