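import Pool.Agent.Work.MP_efd9e3_ag.Lines
import Pool.Agent.Work.MP_efd9e3_ag.PtsSep

/-! MODULE ChooseStep (MP_efd9e3_ag).

Apply `exists_update` at the position `i.succ` with `U_{(c,j,l)} = X_c ^ (d i - d l) * ∂_j f_l`, index type
`Fin (m+1) × Fin (m+1) × {l // l ∈ insert i S}`, all of degree `(d i - d l) + (d l - 1) = d i - 1`
(`pderiv` of a form: `IsHomogeneous.pderiv`; `d l ≤ d i`).  Hypothesis `hV`: let `x` be a common zero of
`X j` (`j ≠ i.succ`) and of all the `U`, and suppose `x ≠ 0`; some `x_c ≠ 0`, so all `∂_j f_l` with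
`l ∈ insert i S` vanish at `x`; by Euler (`Σ_j X_j ∂_j f_l = d_l f_l`,
`MvPolynomial.IsHomogeneous.sum_X_mul_pderiv` or similar; `d l ≠ 0` in `K`, char 0) all `f_l`,
`l ∈ insert i S`, vanish at `x`, and `f_l`, `l ∉ insert i S`, vanish at `x` because they are members
(`hXf`).  So all polynomials of `span (range f) = vanish y` vanish at `x`, so `x = c • y_z`
(`zeros_vanish`), `c ≠ 0`, and `∂_j f_i(y_z) = 0` for all `j` (homogeneous, `c ≠ 0`), contradiction to
`hgrad i z`.  The new member `b = Σ C (c_j) U_j` lies in `span {∂_j f_l}` and has degree `d i - 1`. -/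

set_option autoImplicit false

open MvPolynomial

namespace Geproci

variable {K : Type*} [Field K] {ι : Type*}

private theorem eval_smul_hom {n : ℕ} (q : MvPolynomial (Fin n) K) (t : ℕ) (hq : q.IsHomogeneous t)
    (c : K) (x : Fin n → K) : eval (c • x) q = c ^ t * eval x q := by
  rw [eval_eq', eval_eq', Finset.mul_sum]
  apply Finset.sum_congr rfl
  intro d hd
  have h1 : Finsupp.weight 1 d = t := hq (mem_support_iff.1 hd)
  have h2 : ∑ i, d i = t := by
    rw [← h1, Finsupp.weight_apply, Finsupp.sum_fintype _ _ (by simp)]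
    simp
  have h3 : ∏ i, (c • x) i ^ d i = c ^ t * ∏ i, x i ^ d i := by
    simp only [Pi.smul_apply, smul_eq_mul, mul_pow]
    rw [Finset.prod_mul_distrib, Finset.prod_pow_eq_pow_sum, h2]
  rw [h3]
  ring

theorem choose_step [IsAlgClosed K] [CharZero K] [Fintype ι] {m : ℕ}
    (y : ι → Fin (m+1) → K) (hy : Indep y)
    (f : Fin m → MvPolynomial (Fin (m+1)) K) (d : Fin m → ℕ) (hd : ∀ i, (f i).IsHomogeneous (d i))
    (hf : (Ideal.span (Set.range f) : Set (MvPolynomial (Fin (m+1)) K)) = vanish y)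
    (h2 : ∀ i, 2 ≤ d i)
    (hgrad : ∀ k z, ∃ j, eval (y z) (pderiv j (f k)) ≠ 0)
    (S : Finset (Fin m)) (i : Fin m) (hi : i ∉ S) (hS : ∀ l ∈ S, d l ≤ d i)
    (X : Fin (m+1) → MvPolynomial (Fin (m+1)) K) (e : Fin (m+1) → ℕ)
    (hX : ∀ j, (X j).IsHomogeneous (e j)) (he : ∀ j, 1 ≤ e j)
    (hXf : ∀ l, l ∉ S → X l.succ = f l) (hF : Full (idl X Finset.univ)) :
    ∃ b : MvPolynomial (Fin (m+1)) K, b.IsHomogeneous (d i - 1) ∧
      b ∈ Ideal.span (Set.range fun jl : Fin (m+1) × Fin m => pderiv jl.1 (f jl.2)) ∧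
      Full (idl (Function.update X i.succ b) Finset.univ) := by
  classical
  set U : Fin (m+1) × Fin (m+1) × {l // l ∈ insert i S} → MvPolynomial (Fin (m+1)) K :=
    fun p => MvPolynomial.X p.1 ^ (d i - d p.2.2.1) * pderiv p.2.1 (f p.2.2.1) with hUdef
  have hle : ∀ l ∈ insert i S, d l ≤ d i := by
    intro l hl
    rcases Finset.mem_insert.1 hl with h | h
    · rw [h]
    · exact hS l h
  have hUmem : ∀ p, U p ∈ Ideal.span (Set.range fun jl : Fin (m+1) × Fin m =>
      pderiv jl.1 (f jl.2)) := fun p =>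
    Ideal.mul_mem_left _ _ (Ideal.subset_span ⟨(p.2.1, p.2.2.1), rfl⟩)
  have hU : ∀ p, (U p).IsHomogeneous (d i - 1) := by
    rintro ⟨c, j, ⟨l, hl⟩⟩
    have h1 := (isHomogeneous_X_pow (R := K) c (d i - d l)).mul ((hd l).pderiv (i := j))
    have h3 := hle l hl
    have h4 := h2 l
    have h5 : d i - d l + (d l - 1) = d i - 1 := by omega
    rw [h5] at h1
    exact h1
  have hXmem : ∀ (x : Fin (m+1) → K), (∀ q ∈ Ideal.span (Set.range f), eval x q = 0) →
      ∃ z, ∃ c : K, x = c • y z := by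
    intro x hx
    apply zeros_vanish y hy.1 x
    intro q hq
    rw [← hf] at hq
    exact hx q hq
  have hV : ∀ x : Fin (m+1) → K, (∀ j, j ≠ i.succ → eval x (X j) = 0) →
      (∀ p, eval x (U p) = 0) → x = 0 := by
    intro x hx1 hx2
    by_contra hx0
    obtain ⟨c, hc⟩ : ∃ c, x c ≠ 0 := by
      by_contra hcon
      push Not at hcon
      exact hx0 (funext hcon)
    have hder : ∀ l ∈ insert i S, ∀ j, eval x (pderiv j (f l)) = 0 := by
      intro l hl j
      have h1 := hx2 (c, j, ⟨l, hl⟩)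
      simp only [hUdef, eval_mul, map_pow, eval_X] at h1
      exact (mul_eq_zero.1 h1).resolve_left (pow_ne_zero _ hc)
    have hf0 : ∀ l, eval x (f l) = 0 := by
      intro l
      by_cases hl : l ∈ insert i S
      · have h1 := congrArg (eval x) (hd l).sum_X_mul_pderiv
        rw [map_sum, map_nsmul] at h1
        have h3 : ∑ j, eval x (MvPolynomial.X j * pderiv j (f l)) = 0 :=
          Finset.sum_eq_zero fun j _ => by rw [eval_mul, hder l hl j, mul_zero]
        rw [h3, nsmul_eq_mul] at h1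
        have h4 : (d l : K) ≠ 0 := by
          have := h2 l
          exact_mod_cast (show d l ≠ 0 by omega)
        exact (mul_eq_zero.1 h1.symm).resolve_left h4
      · have h5 : l ∉ S := fun h => hl (Finset.mem_insert_of_mem h)
        have h6 : l ≠ i := fun h => hl (h ▸ Finset.mem_insert_self _ _)
        rw [← hXf l h5]
        exact hx1 _ fun h => h6 (Fin.succ_injective _ h)
    obtain ⟨z, c', hcz⟩ := hXmem x (by
      intro q hq
      have h1 : Ideal.span (Set.range f) ≤ RingHom.ker (eval x) := by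
        rw [Ideal.span_le]
        rintro _ ⟨l, rfl⟩
        exact hf0 l
      exact h1 hq)
    have hc0 : c' ≠ 0 := by
      rintro rfl
      rw [zero_smul] at hcz
      exact hx0 hcz
    obtain ⟨j, hj⟩ := hgrad i z
    apply hj
    have h7 := hder i (Finset.mem_insert_self _ _) j
    rw [hcz, eval_smul_hom _ _ ((hd i).pderiv (i := j))] at h7
    exact (mul_eq_zero.1 h7).resolve_left (pow_ne_zero _ hc0)
  obtain ⟨c, hc⟩ := exists_update X e hX he i.succ hF U (d i - 1) hU hV
  refine ⟨∑ j, C (c j) * U j, ?_, ?_, hc⟩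
  · exact IsHomogeneous.sum _ _ _ fun j _ => (hU j).C_mul _
  · exact Ideal.sum_mem _ fun j _ => Ideal.mul_mem_left _ _ (hUmem j)

end Geproci
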