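import Pool.Agent.Work.MP_efd9e3_ag.EvsProj

/-! MODULE GenPair (MP_efd9e3_ag).

The coordinates of `proj p v` are polynomials in `p`: `X_n * C (v k) - C (v n) * X_k`.
It suffices to find one `p₀` with `p₀ n ≠ 0` for which `proj p₀ v`, `proj p₀ v'` are linearly independent:
then some `2 × 2` minor `g = (X_n v_k - v_n X_k)(X_n v'_l - v'_n X_l) - (X_n v_l - v_n X_l)(X_n v'_k - v'_n X_k)`
does not vanish at `p₀` (for two vectors of `K^n` all of whose `2 × 2` minors vanish, one is a multiple of
the other or the first is zero), and `eval p g ≠ 0` implies that the two projections are independent, in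
particular `proj p v ≠ 0` and `proj p v' ≠ c • proj p v`.
Existence of `p₀`: `v`, `v'` are independent (`hv`, `hvv'`), `n + 1 ≥ 3`; choose `p₀ ∉ span {v, v'}` with
`p₀ n ≠ 0` (two proper subspaces do not cover `K^{n+1}`, e.g. take `p₁ ∉ span {v,v'}`, and if `p₁ n = 0` use
`p₂` with `p₂ n ≠ 0`: one of `p₂`, `p₁ + p₂` is not in the span, both have `n`-th coordinate `≠ 0`).  If
`a • proj p₀ v + b • proj p₀ v' = 0` then `a v + b v' ∈ K p₀` (`proj_kernel`; `proj p₀` is linear), so it is
`0` because `p₀ ∉ span {v, v'}`, so `a = b = 0`. -/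

set_option autoImplicit false

open MvPolynomial

namespace Geproci

variable {K : Type*} [Field K] {n : ℕ}

private theorem exists_point (W : Submodule K (Fin (n+1) → K)) (hW : W ≠ ⊤) :
    ∃ p : Fin (n+1) → K, p ∉ W ∧ p (Fin.last n) ≠ 0 := by
  classical
  obtain ⟨p₁, hp₁⟩ : ∃ p, p ∉ W := by
    by_contra hcon
    push Not at hcon
    exact hW (eq_top_iff.2 fun x _ => hcon x)
  by_cases h1 : p₁ (Fin.last n) = 0
  · by_cases h2 : (Pi.single (Fin.last n) 1 : Fin (n+1) → K) ∈ W
    · refine ⟨p₁ + Pi.single (Fin.last n) 1, fun h => hp₁ ?_, ?_⟩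
      · have := W.sub_mem h h2
        rwa [add_sub_cancel_right] at this
      · rw [Pi.add_apply, h1, Pi.single_eq_same, zero_add]
        exact one_ne_zero
    · exact ⟨_, h2, by rw [Pi.single_eq_same]; exact one_ne_zero⟩
  · exact ⟨p₁, hp₁, h1⟩

private theorem proj_sub_smul (p v v' : Fin (n+1) → K) (c : K) :
    proj p (v' - c • v) = proj p v' - c • proj p v := by
  funext i
  simp only [proj, Pi.sub_apply, Pi.smul_apply, smul_eq_mul]
  ring

/-- the `k`-th coordinate of the projection as a polynomial in the centre -/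
private noncomputable def cf (v : Fin (n+1) → K) (k : Fin n) : MvPolynomial (Fin (n+1)) K :=
  X (Fin.last n) * C (v k.castSucc) - C (v (Fin.last n)) * X k.castSucc

private theorem eval_cf (v p : Fin (n+1) → K) (k : Fin n) : eval p (cf v k) = proj p v k := by
  simp [cf, proj]

theorem gen_pair (hn : 2 ≤ n) (v v' : Fin (n+1) → K) (hv : v ≠ 0) (hvv' : ∀ c : K, v' ≠ c • v) :
    ∃ g : MvPolynomial (Fin (n+1)) K, g ≠ 0 ∧ ∀ p : Fin (n+1) → K, eval p g ≠ 0 →
      proj p v ≠ 0 ∧ ∀ c : K, proj p v' ≠ c • proj p v := by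
  classical
  have hW : Submodule.span K ({v, v'} : Set (Fin (n+1) → K)) ≠ ⊤ := by
    intro h
    have h1 := finrank_span_le_card (R := K) ({v, v'} : Set (Fin (n+1) → K))
    rw [h, finrank_top, Module.finrank_fin_fun] at h1
    have h2 : ({v, v'} : Set (Fin (n+1) → K)).toFinset.card ≤ 2 := by
      rw [Set.toFinset_insert, Set.toFinset_singleton]
      exact Finset.card_le_two
    omega
  obtain ⟨p₀, hp₀, hp₀n⟩ := exists_point _ hW
  have hsub : ∀ w ∈ Submodule.span K ({v, v'} : Set (Fin (n+1) → K)), proj p₀ w = 0 → w = 0 := by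
    intro w hw h
    rw [proj_kernel p₀ hp₀n, Submodule.mem_span_singleton] at h
    obtain ⟨c, hc⟩ := h
    by_cases hc0 : c = 0
    · rw [← hc, hc0, zero_smul]
    · exfalso
      apply hp₀
      have : p₀ = c⁻¹ • w := by rw [← hc, smul_smul, inv_mul_cancel₀ hc0, one_smul]
      rw [this]
      exact Submodule.smul_mem _ _ hw
  have hvm : v ∈ Submodule.span K ({v, v'} : Set (Fin (n+1) → K)) :=
    Submodule.subset_span (by simp)
  have hvm' : v' ∈ Submodule.span K ({v, v'} : Set (Fin (n+1) → K)) :=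
    Submodule.subset_span (by simp)
  have hw : proj p₀ v ≠ 0 := fun h => hv (hsub v hvm h)
  have hw' : ∀ c : K, proj p₀ v' ≠ c • proj p₀ v := by
    intro c h
    have h1 := hsub (v' - c • v) (Submodule.sub_mem _ hvm' (Submodule.smul_mem _ _ hvm))
      (by rw [proj_sub_smul, h, sub_self])
    exact hvv' c (sub_eq_zero.1 h1)
  obtain ⟨k, hk⟩ : ∃ k, proj p₀ v k ≠ 0 := by
    by_contra hcon
    push Not at hcon
    exact hw (funext hcon)
  obtain ⟨l, hl⟩ : ∃ l, proj p₀ v k * proj p₀ v' l - proj p₀ v l * proj p₀ v' k ≠ 0 := by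
    by_contra hcon
    push Not at hcon
    apply hw' (proj p₀ v' k / proj p₀ v k)
    funext l
    have h1 := hcon l
    rw [Pi.smul_apply, smul_eq_mul, div_mul_eq_mul_div, eq_div_iff hk]
    linear_combination h1
  have hev : ∀ p, eval p (cf v k * cf v' l - cf v l * cf v' k) =
      proj p v k * proj p v' l - proj p v l * proj p v' k := by
    intro p
    rw [map_sub, map_mul, map_mul, eval_cf, eval_cf, eval_cf, eval_cf]
  refine ⟨cf v k * cf v' l - cf v l * cf v' k, ?_, fun p hp => ⟨?_, fun c h => ?_⟩⟩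
  · intro h
    apply hl
    rw [← hev p₀, h, map_zero]
  · intro h
    apply hp
    rw [hev, h]
    simp
  · apply hp
    rw [hev, h]
    simp only [Pi.smul_apply, smul_eq_mul]
    ring

theorem gen_one (hn : 1 ≤ n) (v : Fin (n+1) → K) (hv : v ≠ 0) :
    ∃ g : MvPolynomial (Fin (n+1)) K, g ≠ 0 ∧ ∀ p : Fin (n+1) → K, eval p g ≠ 0 →
      proj p v ≠ 0 := by
  classical
  have hW : Submodule.span K ({v} : Set (Fin (n+1) → K)) ≠ ⊤ := by
    intro h
    have h1 := finrank_span_singleton (K := K) hv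
    rw [h, finrank_top, Module.finrank_fin_fun] at h1
    omega
  obtain ⟨p₀, hp₀, hp₀n⟩ := exists_point _ hW
  have hw : proj p₀ v ≠ 0 := by
    intro h
    rw [proj_kernel p₀ hp₀n, Submodule.mem_span_singleton] at h
    obtain ⟨c, hc⟩ := h
    by_cases hc0 : c = 0
    · exact hv (by rw [← hc, hc0, zero_smul])
    · apply hp₀
      rw [Submodule.mem_span_singleton]
      exact ⟨c⁻¹, by rw [← hc, smul_smul, inv_mul_cancel₀ hc0, one_smul]⟩
  obtain ⟨k, hk⟩ : ∃ k, proj p₀ v k ≠ 0 := by
    by_contra hcon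
    push Not at hcon
    exact hw (funext hcon)
  refine ⟨cf v k, ?_, fun p hp h => ?_⟩
  · intro h
    apply hk
    rw [← eval_cf, h, map_zero]
  · apply hp
    rw [eval_cf, h]
    rfl

end Geproci
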