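import Mathlib

/-! MODULE RankOpen (MP_efd9e3_ag).  Mathlib only.

`rank_open`: let `r` be the rank at `p₀`; choose `v_1, …, v_r ∈ V` such that the vectors
`M(p₀) v_j ∈ (ι → K)` form a basis of the range; choose linear maps `φ_i : (ι → K) → K` (`i = 1..r`) with
`φ_i (M(p₀) v_j) = δ_ij` (a linearly independent family extends to a basis / has a left inverse:
`LinearMap.exists_leftInverse_of_injective`).  Put
`G = det (Σ_z φ_i(e_z) • M v_j z)_{i,j}` (a determinant of polynomials); `eval p₀ G = det 1 = 1` and
`eval p G = det (φ_i (M(p) v_j))`, so if `eval p G ≠ 0` the vectors `M(p) v_j` are linearly independent. -/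

set_option autoImplicit false

namespace Geproci

private theorem le_finrank_range {K : Type*} [Field K] {V ι : Type*} [AddCommGroup V] [Module K V]
    [Fintype ι] {r : ℕ} (L : V →ₗ[K] (ι → K)) (v : Fin r → V) (φ : (ι → K) →ₗ[K] (Fin r → K))
    (h : (Matrix.of fun i j => φ (L (v j)) i).det ≠ 0) :
    r ≤ Module.finrank K (LinearMap.range L) := by
  have h1 : LinearIndependent K (Matrix.of fun i j => φ (L (v j)) i).col :=
    Matrix.linearIndependent_cols_of_det_ne_zero h
  have h2 : LinearIndependent K (fun j => L (v j)) := by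
    apply LinearIndependent.of_comp φ
    convert h1 using 1
    ext j i
    rfl
  have h3 := finrank_span_eq_card h2
  rw [Fintype.card_fin] at h3
  rw [← h3]
  apply Submodule.finrank_mono
  rw [Submodule.span_le]
  rintro _ ⟨j, rfl⟩
  exact ⟨v j, rfl⟩

private theorem exists_dual {K : Type*} [Field K] {V ι : Type*} [AddCommGroup V] [Module K V]
    [Fintype ι] (L : V →ₗ[K] (ι → K)) :
    ∃ (v : Fin (Module.finrank K (LinearMap.range L)) → V)
      (φ : (ι → K) →ₗ[K] (Fin (Module.finrank K (LinearMap.range L)) → K)),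
      ∀ i j, φ (L (v j)) i = (1 : Matrix _ _ K) i j := by
  classical
  set r := Module.finrank K (LinearMap.range L)
  let b : Module.Basis (Fin r) K (LinearMap.range L) := Module.finBasis K (LinearMap.range L)
  choose v hv using fun j => (b j).2
  have hli : LinearIndependent K (fun j => L (v j)) := by
    have h1 : LinearIndependent K (fun j => ((b j : LinearMap.range L) : ι → K)) :=
      b.linearIndependent.map' (LinearMap.range L).subtype (Submodule.ker_subtype _)
    simpa only [hv] using h1
  let T : (Fin r → K) →ₗ[K] (ι → K) := Fintype.linearCombination K (fun j => L (v j))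
  have hT : LinearMap.ker T = ⊥ := by
    rw [LinearMap.ker_eq_bot]
    exact hli.fintypeLinearCombination_injective
  obtain ⟨φ, hφ⟩ := LinearMap.exists_leftInverse_of_injective T hT
  refine ⟨v, φ, fun i j => ?_⟩
  have h1 : T (Pi.single j 1) = L (v j) := by
    simp [T, Fintype.linearCombination_apply_single]
  rw [← h1, ← LinearMap.comp_apply, hφ, LinearMap.id_apply, Matrix.one_apply, Pi.single_apply]

theorem rank_open {K : Type*} [Field K] {V σ ι : Type*} [AddCommGroup V] [Module K V] [Fintype ι]
    [DecidableEq ι] (M : V →ₗ[K] (ι → MvPolynomial σ K)) (p₀ : σ → K) :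
    ∃ G : MvPolynomial σ K, MvPolynomial.eval p₀ G ≠ 0 ∧
      ∀ p : σ → K, MvPolynomial.eval p G ≠ 0 →
        Module.finrank K (LinearMap.range
          ((LinearMap.pi fun z => (MvPolynomial.aeval p₀).toLinearMap ∘ₗ LinearMap.proj z ∘ₗ M :
            V →ₗ[K] (ι → K)))) ≤
        Module.finrank K (LinearMap.range
          ((LinearMap.pi fun z => (MvPolynomial.aeval p).toLinearMap ∘ₗ LinearMap.proj z ∘ₗ M :
            V →ₗ[K] (ι → K)))) := by
  obtain ⟨v, φ, hφ⟩ := exists_dual
    ((LinearMap.pi fun z => (MvPolynomial.aeval p₀).toLinearMap ∘ₗ LinearMap.proj z ∘ₗ M :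
            V →ₗ[K] (ι → K)))
  have hent : ∀ (p : σ → K) i j, MvPolynomial.eval p
      (∑ z, MvPolynomial.C (φ (fun w => if z = w then 1 else 0) i) * M (v j) z) =
      φ ((LinearMap.pi fun z => (MvPolynomial.aeval p).toLinearMap ∘ₗ LinearMap.proj z ∘ₗ M :
            V →ₗ[K] (ι → K)) (v j)) i := by
    intro p i j
    rw [LinearMap.pi_apply_eq_sum_univ φ, Finset.sum_apply, map_sum]
    refine Finset.sum_congr rfl fun z _ => ?_
    rw [map_mul, MvPolynomial.eval_C, Pi.smul_apply, smul_eq_mul, mul_comm]
    rfl
  refine ⟨(Matrix.of fun i j =>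
    ∑ z, MvPolynomial.C (φ (fun w => if z = w then 1 else 0) i) * M (v j) z).det, ?_, ?_⟩
  · rw [RingHom.map_det]
    have : (MvPolynomial.eval p₀).mapMatrix (Matrix.of fun i j =>
        ∑ z, MvPolynomial.C (φ (fun w => if z = w then 1 else 0) i) * M (v j) z) = 1 := by
      ext i j
      rw [RingHom.mapMatrix_apply, Matrix.map_apply, Matrix.of_apply, hent, hφ]
    rw [this, Matrix.det_one]
    exact one_ne_zero
  · intro p hp
    apply le_finrank_range _ v φ
    rw [RingHom.map_det] at hp
    convert hp using 3
    ext i j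
    rw [RingHom.mapMatrix_apply, Matrix.map_apply, Matrix.of_apply, Matrix.of_apply, hent]

end Geproci
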