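import Pool.Agent.Work.MP_efd9e3_ag.PtsSep
import Pool.Agent.Work.MP_efd9e3_ag.GenPair
import Pool.Agent.Work.MP_efd9e3_ag.RankOpen

/-! MODULE Generic (MP_efd9e3_ag).

For fixed `z : ι → K^{n+1}` (non-zero, pairwise non-proportional), the coordinates of `proj p (z i)` are
polynomials in `p`: `X_n * C (z i k) - C (z i n) * X_k`.  The polynomial `g'` is the product of:
 * `X_n` (`n = Fin.last n`);
 * for every `i` the polynomial of `gen_one` for `z i`, and for every pair `i ≠ i'` the polynomial of
   `gen_pair` (module GenPair);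
 * for every `t < card ι` a polynomial `G_t` from `rank_open`: the numbers
   `finrank (evs (fun i => proj p (z i)) t) ≤ card ι` are bounded, choose `p_t` where the maximum (over all
   `p`) is attained, and apply `rank_open` with `V = homogeneousSubmodule (Fin n) K t`,
   `M q i = aeval (fun k => X_n * C (z i k) - C (z i n) * X_k) q`, `p₀ = p_t`; the range of the specialised map
   at `p` is `evs (fun i => proj p (z i)) t`.  `eval p G_t ≠ 0` gives rank at `p` `≥` maximum.
 For `t + 1 ≥ card ι` `evs_top` gives `finrank = card ι`, the maximum possible.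
 A product of non-zero polynomials is non-zero. -/

set_option autoImplicit false

open MvPolynomial

namespace Geproci

variable {K : Type*} [Field K] {n : ℕ} {ι : Type*}

/-- the coordinates of `proj p v` as polynomials in `p` -/
private noncomputable def genY (v : Fin (n+1) → K) (k : Fin n) : MvPolynomial (Fin (n+1)) K :=
  X (Fin.last n) * C (v k.castSucc) - C (v (Fin.last n)) * X k.castSucc

private theorem eval_genY (p v : Fin (n+1) → K) (k : Fin n) : eval p (genY v k) = proj p v k := by
  simp [genY, proj]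

private noncomputable def genM (z : ι → Fin (n+1) → K) (t : ℕ) :
    homogeneousSubmodule (Fin n) K t →ₗ[K] (ι → MvPolynomial (Fin (n+1)) K) :=
  LinearMap.pi fun i => (aeval (genY (z i))).toLinearMap ∘ₗ Submodule.subtype _

private theorem range_genM (z : ι → Fin (n+1) → K) (t : ℕ) (p : Fin (n+1) → K) :
    LinearMap.range
      ((LinearMap.pi fun i => (MvPolynomial.aeval p).toLinearMap ∘ₗ LinearMap.proj i ∘ₗ genM z t :
        homogeneousSubmodule (Fin n) K t →ₗ[K] (ι → K))) = evs (fun i => proj p (z i)) t := by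
  have key : ∀ (i : ι) (q : MvPolynomial (Fin n) K),
      (aeval p : MvPolynomial (Fin (n+1)) K →ₐ[K] K) ((aeval (genY (z i))) q) =
        eval (proj p (z i)) q := by
    intro i q
    have h1 : ((aeval p : MvPolynomial (Fin (n+1)) K →ₐ[K] K).comp (aeval (genY (z i)))) =
        (aeval (proj p (z i)) : MvPolynomial (Fin n) K →ₐ[K] K) := by
      apply MvPolynomial.algHom_ext
      intro k
      rw [AlgHom.comp_apply, aeval_X, aeval_X, aeval_eq_eval]
      exact eval_genY p (z i) k
    have h2 := congrArg (fun f : MvPolynomial (Fin n) K →ₐ[K] K => f q) h1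
    simp only [AlgHom.comp_apply] at h2
    rw [h2, aeval_eq_eval]
  ext F
  rw [mem_evs, LinearMap.mem_range]
  constructor
  · rintro ⟨q, rfl⟩
    exact ⟨q, q.2, fun i => (key i q).symm⟩
  · rintro ⟨q, hq, h⟩
    refine ⟨⟨q, hq⟩, funext fun i => ?_⟩
    rw [← h i]
    exact key i q

theorem generic [Infinite K] [Fintype ι] (hn : 2 ≤ n) (z : ι → Fin (n+1) → K) (hz : Indep z) :
    ∃ g : MvPolynomial (Fin (n+1)) K, g ≠ 0 ∧ ∀ p : Fin (n+1) → K, eval p g ≠ 0 →
      p (Fin.last n) ≠ 0 ∧ Indep (fun i => proj p (z i)) ∧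
      ∀ (t : ℕ) (p' : Fin (n+1) → K), Module.finrank K (evs (fun i => proj p' (z i)) t) ≤
        Module.finrank K (evs (fun i => proj p (z i)) t) := by
  classical
  have h1 : ∀ i, ∃ g : MvPolynomial (Fin (n+1)) K, g ≠ 0 ∧ ∀ p : Fin (n+1) → K, eval p g ≠ 0 →
      proj p (z i) ≠ 0 := fun i => gen_one (by omega) (z i) (hz.1 i)
  choose g₁ hg₁ hg₁' using h1
  have h2 : ∀ i i', ∃ g : MvPolynomial (Fin (n+1)) K, g ≠ 0 ∧ (i ≠ i' → ∀ p : Fin (n+1) → K,
      eval p g ≠ 0 → ∀ c : K, proj p (z i') ≠ c • proj p (z i)) := by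
    intro i i'
    by_cases h : i = i'
    · exact ⟨1, one_ne_zero, fun h' => absurd h h'⟩
    · obtain ⟨g, hg, hg'⟩ := gen_pair hn (z i) (z i') (hz.1 i) (hz.2 i i' h)
      exact ⟨g, hg, fun _ p hp => (hg' p hp).2⟩
  choose g₂ hg₂ hg₂' using h2
  have h3 : ∀ t : ℕ, ∃ G : MvPolynomial (Fin (n+1)) K, G ≠ 0 ∧ ∀ p : Fin (n+1) → K,
      eval p G ≠ 0 → ∀ p' : Fin (n+1) → K,
        Module.finrank K (evs (fun i => proj p' (z i)) t) ≤
          Module.finrank K (evs (fun i => proj p (z i)) t) := by
    intro t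
    let B : Set ℕ := Set.range fun p : Fin (n+1) → K =>
      Module.finrank K (evs (fun i => proj p (z i)) t)
    have hB : BddAbove B := by
      refine ⟨Module.finrank K (ι → K), ?_⟩
      rintro _ ⟨p, rfl⟩
      exact Submodule.finrank_le _
    obtain ⟨p₀, hp₀⟩ : sSup B ∈ B := Nat.sSup_mem (Set.range_nonempty _) hB
    obtain ⟨G, hG, hG'⟩ := rank_open (genM z t) p₀
    refine ⟨G, ?_, fun p hp p' => ?_⟩
    · rintro rfl
      exact hG (map_zero _)
    · have h4 := hG' p hp
      rw [range_genM, range_genM] at h4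
      refine le_trans ?_ h4
      have h5 : Module.finrank K (evs (fun i => proj p' (z i)) t) ≤ sSup B :=
        le_csSup hB ⟨p', rfl⟩
      rw [← hp₀] at h5
      exact h5
  choose G hG hG' using h3
  refine ⟨X (Fin.last n) * (∏ i, g₁ i) * (∏ i, ∏ i', g₂ i i') *
    ∏ t ∈ Finset.range (Fintype.card ι), G t, ?_, ?_⟩
  · refine mul_ne_zero (mul_ne_zero (mul_ne_zero (X_ne_zero _) ?_) ?_) ?_
    · exact Finset.prod_ne_zero_iff.2 fun i _ => hg₁ i
    · exact Finset.prod_ne_zero_iff.2 fun i _ => Finset.prod_ne_zero_iff.2 fun i' _ => hg₂ i i'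
    · exact Finset.prod_ne_zero_iff.2 fun t _ => hG t
  · intro p hp
    rw [map_mul, map_mul, map_mul, eval_X] at hp
    have hA := left_ne_zero_of_mul (left_ne_zero_of_mul (left_ne_zero_of_mul hp))
    have hB := right_ne_zero_of_mul (left_ne_zero_of_mul (left_ne_zero_of_mul hp))
    have hC := right_ne_zero_of_mul (left_ne_zero_of_mul hp)
    have hD := right_ne_zero_of_mul hp
    rw [map_prod, Finset.prod_ne_zero_iff] at hB hC hD
    have hind : Indep (fun i => proj p (z i)) := by
      refine ⟨fun i => hg₁' i p (hB i (Finset.mem_univ i)), fun i i' hii => ?_⟩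
      have := hC i (Finset.mem_univ i)
      rw [map_prod, Finset.prod_ne_zero_iff] at this
      exact hg₂' i i' hii p (this i' (Finset.mem_univ i'))
    refine ⟨hA, hind, fun t p' => ?_⟩
    by_cases ht : t < Fintype.card ι
    · exact hG' t p (hD t (Finset.mem_range.2 ht)) p'
    · rw [evs_top (fun i => proj p (z i)) hind t (by omega), finrank_top]
      exact Submodule.finrank_le _

end Geproci
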