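import Pool.Agent.Work.MP_efd9e3_ag.Hom

/-! MODULE HilbA (MP_efd9e3_ag), helper30.  Hilbert functions, `A_t = homogeneousSubmodule (Fin n) K t`
(finite-dimensional), `hf I t = dim A_t / (I ∩ A_t)`.

`hf_eq_sub`: rank-nullity for `A_t → A/I`: `hf I t + dim (A_t ∩ I) = dim A_t`.

`hf_step`: `b` homogeneous of degree `β`, regular modulo `idl X T`: the multiplication by `b` gives an
injection `A_t/(I ∩ A_t) → A_{t+β}/(I ∩ A_{t+β})` whose cokernel is `A_{t+β}/((I+b) ∩ A_{t+β})`: exactness in
the middle is `split_one`: an element `u` of `A_{t+β}` in `I + (b)` is `a * b + r` with `a ∈ A_t` (or `a = 0`),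
`r ∈ I`.  (E.g. count dimensions: `(I + b) ∩ A_{t+β} = (I ∩ A_{t+β}) + b A_t`, and
`(I ∩ A_{t+β}) ∩ b A_t = b (I ∩ A_t)` by regularity, and multiplication by `b` is injective on `A_t`
modulo … ; or use the linear map `A_t × (I ∩ A_{t+β}) → (I+b) ∩ A_{t+β}`.)

`hf_low`: in degrees `t < β` the ideals `I` and `I + (b)` have the same elements of `A_t` (`split_one` gives
`a = 0` because `s + β = t` is impossible). -/

set_option autoImplicit false

open MvPolynomial

namespace Geproci

variable {K : Type*} [Field K] {n : ℕ} {ι : Type*}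

theorem finite_homog (t : ℕ) : Module.Finite K (homogeneousSubmodule (Fin n) K t) := by
  have hfin : Set.Finite {d : Fin n →₀ ℕ | d.degree = t} := by
    refine Set.Finite.subset (Set.finite_Iic (Finsupp.equivFunOnFinite.symm fun _ => t)) ?_
    intro d hd i
    have hd' : d.degree = t := hd
    rw [← hd', Finsupp.degree_eq_sum]
    simpa using Finset.single_le_sum (f := fun i => d i) (fun _ _ => Nat.zero_le _) (Finset.mem_univ i)
  have hle : homogeneousSubmodule (Fin n) K t ≤
      Submodule.span K ((fun d : Fin n →₀ ℕ => monomial d (1 : K)) '' {d | d.degree = t}) := by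
    intro p hp
    have hp' : p.IsHomogeneous t := (mem_homogeneousSubmodule _ _).mp hp
    rw [p.as_sum]
    refine Submodule.sum_mem _ fun d hd => ?_
    have h1 : monomial d (coeff d p) = (coeff d p) • (monomial d (1 : K)) := by
      rw [smul_monomial, smul_eq_mul, mul_one]
    rw [h1]
    refine Submodule.smul_mem _ _ (Submodule.subset_span ⟨d, ?_, rfl⟩)
    have := hp' (mem_support_iff.mp hd)
    have h2 : Finsupp.degree d = Finsupp.weight (1 : Fin n → ℕ) d := by
      rw [Finsupp.degree_eq_weight_one]; rfl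
    exact h2.trans this
  have : Module.Finite K (Submodule.span K
      ((fun d : Fin n →₀ ℕ => monomial d (1 : K)) '' {d | d.degree = t})) :=
    Module.Finite.span_of_finite K (hfin.image _)
  exact Submodule.finiteDimensional_of_le hle

/-- the map `A / I → A / (I ⊔ J)` -/
noncomputable def facMap (I J : Ideal (MvPolynomial (Fin n) K)) :
    (MvPolynomial (Fin n) K ⧸ I) →ₗ[K] (MvPolynomial (Fin n) K ⧸ (I ⊔ J)) :=
  (Ideal.Quotient.factorₐ K (le_sup_left : I ≤ I ⊔ J)).toLinearMap

theorem facMap_mk (I J : Ideal (MvPolynomial (Fin n) K)) (a : MvPolynomial (Fin n) K) :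
    facMap I J (Ideal.Quotient.mk I a) = Ideal.Quotient.mk (I ⊔ J) a := by
  simp [facMap]

theorem hf_add_ker (I J : Ideal (MvPolynomial (Fin n) K)) (t : ℕ) :
    hf (I ⊔ J) t + Module.finrank K
      ↥(((homogeneousSubmodule (Fin n) K t).map (Ideal.Quotient.mkₐ K I).toLinearMap) ⊓
        LinearMap.ker (facMap I J)) = hf I t := by
  have := finite_homog (K := K) (n := n) t
  set P := (homogeneousSubmodule (Fin n) K t).map (Ideal.Quotient.mkₐ K I).toLinearMap with hP
  have h1 := LinearMap.finrank_range_add_finrank_ker ((facMap I J).domRestrict P)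
  have h2 : LinearMap.range ((facMap I J).domRestrict P) =
      (homogeneousSubmodule (Fin n) K t).map (Ideal.Quotient.mkₐ K (I ⊔ J)).toLinearMap := by
    rw [LinearMap.range_domRestrict, hP, ← Submodule.map_comp]
    congr 1
  have h3 : Module.finrank K ↥(P ⊓ LinearMap.ker (facMap I J)) =
      Module.finrank K (LinearMap.ker ((facMap I J).domRestrict P)) := by
    rw [LinearMap.ker_domRestrict, ← Submodule.map_comap_subtype, Submodule.finrank_map_subtype_eq]
  rw [h2] at h1
  rw [h3]
  exact h1

theorem hf_step (X : ι → MvPolynomial (Fin n) K) (e : ι → ℕ)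
    (hX : ∀ i, (X i).IsHomogeneous (e i)) (T : Finset ι) (b : MvPolynomial (Fin n) K) (β : ℕ)
    (hb : b.IsHomogeneous β) (hreg : ∀ u, b * u ∈ idl X T → u ∈ idl X T) (t : ℕ) :
    hf (idl X T ⊔ Ideal.span {b}) (t + β) + hf (idl X T) t = hf (idl X T) (t + β) := by
  rw [← hf_add_ker (idl X T) (Ideal.span {b}) (t + β)]
  congr 1
  set I := idl X T with hI
  set m : (MvPolynomial (Fin n) K ⧸ I) →ₗ[K] (MvPolynomial (Fin n) K ⧸ I) :=
    LinearMap.mulLeft K (Ideal.Quotient.mk I b) with hm
  have hinj : Function.Injective m := by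
    rw [← LinearMap.ker_eq_bot, LinearMap.ker_eq_bot']
    intro x hx
    obtain ⟨u, rfl⟩ := Ideal.Quotient.mk_surjective x
    rw [hm, LinearMap.mulLeft_apply, ← map_mul, Ideal.Quotient.eq_zero_iff_mem] at hx
    rw [Ideal.Quotient.eq_zero_iff_mem]
    exact hreg u hx
  have hmap : (homogeneousSubmodule (Fin n) K (t + β)).map (Ideal.Quotient.mkₐ K I).toLinearMap ⊓
        LinearMap.ker (facMap I (Ideal.span {b})) =
      ((homogeneousSubmodule (Fin n) K t).map (Ideal.Quotient.mkₐ K I).toLinearMap).map m := by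
    apply le_antisymm
    · rintro x ⟨⟨w, hw, rfl⟩, hx⟩
      have hw' : w.IsHomogeneous (t + β) := (mem_homogeneousSubmodule _ _).mp hw
      have hx' : w ∈ I ⊔ Ideal.span {b} := by
        have h := LinearMap.mem_ker.mp hx
        have h' : facMap I (Ideal.span {b}) (Ideal.Quotient.mk I w) = 0 := h
        rw [facMap_mk, Ideal.Quotient.eq_zero_iff_mem] at h'
        exact h'
      obtain ⟨a, ha, hr⟩ := split_one X e hX T b β hb w (t + β) hw' hx'
      have ha' : a.IsHomogeneous t := by
        rcases ha with ⟨s, hs, hst⟩ | rfl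
        · have : s = t := by omega
          exact this ▸ hs
        · exact isHomogeneous_zero _ _ _
      refine ⟨Ideal.Quotient.mk I a, ⟨a, (mem_homogeneousSubmodule _ _).mpr ha', rfl⟩, ?_⟩
      change Ideal.Quotient.mk I b * Ideal.Quotient.mk I a = Ideal.Quotient.mk I w
      rw [← map_mul, eq_comm, Ideal.Quotient.eq, mul_comm b a]
      exact hr
    · rintro x ⟨y, ⟨a, ha, rfl⟩, rfl⟩
      have ha' : a.IsHomogeneous t := (mem_homogeneousSubmodule _ _).mp ha
      have hma : m ((Ideal.Quotient.mkₐ K I).toLinearMap a) = Ideal.Quotient.mk I (b * a) := by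
        rw [map_mul]; rfl
      refine ⟨⟨b * a, ?_, ?_⟩, ?_⟩
      · refine (mem_homogeneousSubmodule _ _).mpr ?_
        rw [add_comm]
        exact hb.mul ha'
      · exact hma.symm
      · rw [SetLike.mem_coe, LinearMap.mem_ker, hma, facMap_mk, Ideal.Quotient.eq_zero_iff_mem]
        exact Ideal.mem_sup_right (Ideal.mul_mem_right _ _ (Ideal.mem_span_singleton_self b))
  rw [hmap]
  exact (LinearEquiv.finrank_eq (Submodule.equivMapOfInjective m hinj _))

theorem hf_low (X : ι → MvPolynomial (Fin n) K) (e : ι → ℕ)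
    (hX : ∀ i, (X i).IsHomogeneous (e i)) (T : Finset ι) (b : MvPolynomial (Fin n) K) (β : ℕ)
    (hb : b.IsHomogeneous β) (t : ℕ) (ht : t < β) :
    hf (idl X T ⊔ Ideal.span {b}) t = hf (idl X T) t := by
  rw [← hf_add_ker (idl X T) (Ideal.span {b}) t]
  have hbot : (homogeneousSubmodule (Fin n) K t).map (Ideal.Quotient.mkₐ K (idl X T)).toLinearMap ⊓
        LinearMap.ker (facMap (idl X T) (Ideal.span {b})) = ⊥ := by
    rw [eq_bot_iff]
    rintro x ⟨⟨w, hw, rfl⟩, hx⟩
    have hw' : w.IsHomogeneous t := (mem_homogeneousSubmodule _ _).mp hw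
    have hx' : w ∈ idl X T ⊔ Ideal.span {b} := by
      have h := LinearMap.mem_ker.mp hx
      have h' : facMap (idl X T) (Ideal.span {b}) (Ideal.Quotient.mk (idl X T) w) = 0 := h
      rw [facMap_mk, Ideal.Quotient.eq_zero_iff_mem] at h'
      exact h'
    obtain ⟨a, ha, hr⟩ := split_one X e hX T b β hb w t hw' hx'
    rcases ha with ⟨s, hs, hst⟩ | rfl
    · omega
    · rw [zero_mul, sub_zero] at hr
      rw [Submodule.mem_bot]
      change Ideal.Quotient.mk (idl X T) w = 0
      rwa [Ideal.Quotient.eq_zero_iff_mem]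
  rw [hbot, finrank_bot, add_zero]

end Geproci
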