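import Mathlib

/-! MODULE Deform (MP_efd9e3_ag).  Mathlib only.

`deform`: let `M₀ v = (coeff 0 of M v)`, which is the value at `ε = 0`, and let `v` have `M₀ v = 0`.  Suppose
`F = (z ↦ coeff 1 of M v z)` is not in the range of `M₀`.  Choose `v_1, …, v_r` with `M₀ v_j` a basis of the
range of `M₀`; then `M₀ v_1, …, M₀ v_r, F` are linearly independent; choose linear maps `φ_0, …, φ_r : (ι → K) → K`
dual to them (a linearly independent family has a left inverse, `LinearMap.exists_leftInverse_of_injective`).  `M v z = ε * N z` with `N z ∈ K[ε]`, `N z (0) = F z`.  Let `D ∈ K[ε]` be the determinant of the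
matrix `φ_i` applied to `(M v_1, …, M v_r, N)`; `D(0) = 1`, so `D ≠ 0`, and `D` has finitely many roots.  For
`ε ∈ S`, `ε ≠ 0`, `D(ε) ≠ 0` (exists, as `S` is infinite) the vectors `M(ε) v_1, …, M(ε) v_r,
ε⁻¹ M(ε) v` are `r + 1` linearly independent vectors in the range of `M(ε)`, contradiction to `hrank`. -/

set_option autoImplicit false

namespace Geproci

theorem deform {K : Type*} [Field K] {V ι : Type*} [AddCommGroup V] [Module K V] [Fintype ι]
    [DecidableEq ι] (M : V →ₗ[K] (ι → Polynomial K)) (S : Set K) (hS : S.Infinite)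
    (hrank : ∀ ε ∈ S,
      Module.finrank K (LinearMap.range
        ((LinearMap.pi fun z => (Polynomial.aeval ε).toLinearMap ∘ₗ LinearMap.proj z ∘ₗ M :
          V →ₗ[K] (ι → K)))) ≤
      Module.finrank K (LinearMap.range
        ((LinearMap.pi fun z => (Polynomial.aeval (0 : K)).toLinearMap ∘ₗ LinearMap.proj z ∘ₗ M :
          V →ₗ[K] (ι → K)))))
    (v : V) (hv : ∀ z, (M v z).coeff 0 = 0) :
    ∃ u : V, ∀ z, (M u z).coeff 0 = (M v z).coeff 1 := by
  classical
  set L : K → (V →ₗ[K] (ι → K)) := fun ε =>
    (LinearMap.pi fun z => (Polynomial.aeval ε).toLinearMap ∘ₗ LinearMap.proj z ∘ₗ M) with hL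
  have hLap : ∀ ε x z, L ε x z = (M x z).eval ε := by
    intro ε x z
    simp [hL]
  have hL0 : ∀ x z, L 0 x z = (M x z).coeff 0 := by
    intro x z
    rw [hLap, Polynomial.coeff_zero_eq_eval_zero]
  set r := Module.finrank K (LinearMap.range (L 0)) with hr
  by_contra hcon
  let F : ι → K := fun z => (M v z).coeff 1
  have hF : F ∉ LinearMap.range (L 0) := by
    rintro ⟨u, hu⟩
    exact hcon ⟨u, fun z => by rw [← hL0, hu]⟩
  let b : Module.Basis (Fin r) K (LinearMap.range (L 0)) := Module.finBasis K (LinearMap.range (L 0))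
  choose w hw using fun j => (b j).2
  have hli0 : LinearIndependent K (fun j => L 0 (w j)) := by
    have h1 : LinearIndependent K (fun j => ((b j : LinearMap.range (L 0)) : ι → K)) :=
      b.linearIndependent.map' (LinearMap.range (L 0)).subtype (Submodule.ker_subtype _)
    simpa only [hw] using h1
  have hli : LinearIndependent K (Fin.cons F (fun j => L 0 (w j)) : Fin (r+1) → ι → K) := by
    rw [linearIndependent_finCons]
    refine ⟨hli0, fun hmem => hF ?_⟩
    refine (Submodule.span_le.2 ?_) hmem
    rintro _ ⟨j, rfl⟩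
    exact ⟨w j, rfl⟩
  let T : (Fin (r+1) → K) →ₗ[K] (ι → K) := Fintype.linearCombination K
    (Fin.cons F (fun j => L 0 (w j)) : Fin (r+1) → ι → K)
  have hT : LinearMap.ker T = ⊥ := by
    rw [LinearMap.ker_eq_bot]
    exact hli.fintypeLinearCombination_injective
  obtain ⟨φ, hφ⟩ := LinearMap.exists_leftInverse_of_injective T hT
  have hφ' : ∀ i j, φ ((Fin.cons F (fun j => L 0 (w j)) : Fin (r+1) → ι → K) j) i =
      (1 : Matrix _ _ K) i j := by
    intro i j
    have h1 : T (Pi.single j 1) = (Fin.cons F (fun j => L 0 (w j)) : Fin (r+1) → ι → K) j := by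
      simp [T, Fintype.linearCombination_apply_single]
    rw [← h1, ← LinearMap.comp_apply, hφ, LinearMap.id_apply, Matrix.one_apply, Pi.single_apply]
  -- the polynomial vectors
  let P : Fin (r+1) → ι → Polynomial K := Fin.cons (fun z => (M v z).divX) (fun j => M (w j))
  have hP0 : ∀ j z, (P j z).eval 0 =
      (Fin.cons F (fun j => L 0 (w j)) : Fin (r+1) → ι → K) j z := by
    intro j z
    refine Fin.cases ?_ (fun j => ?_) j
    · simp [P, F, ← Polynomial.coeff_zero_eq_eval_zero, Polynomial.coeff_divX]
    · simp [P, hLap]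
  let D : Polynomial K := (Matrix.of fun i j =>
    ∑ z, Polynomial.C (φ (fun w => if z = w then 1 else 0) i) * P j z).det
  have hent : ∀ (ε : K) i j, Polynomial.eval ε
      (∑ z, Polynomial.C (φ (fun w => if z = w then 1 else 0) i) * P j z) =
      φ (fun z => (P j z).eval ε) i := by
    intro ε i j
    rw [LinearMap.pi_apply_eq_sum_univ φ, Finset.sum_apply, Polynomial.eval_finsetSum]
    refine Finset.sum_congr rfl fun z _ => ?_
    rw [Polynomial.eval_mul, Polynomial.eval_C, Pi.smul_apply, smul_eq_mul, mul_comm]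
  have hDev : ∀ ε, D.eval ε = (Matrix.of fun i j => φ (fun z => (P j z).eval ε) i).det := by
    intro ε
    rw [← Polynomial.coe_evalRingHom, RingHom.map_det]
    congr 1
    ext i j
    rw [RingHom.mapMatrix_apply, Matrix.map_apply, Matrix.of_apply, Matrix.of_apply,
      Polynomial.coe_evalRingHom, hent]
  have hD0 : D.eval 0 = 1 := by
    rw [hDev]
    have : (Matrix.of fun i j => φ (fun z => (P j z).eval 0) i) = 1 := by
      ext i j
      rw [Matrix.of_apply, ← hφ']
      have h0 : (fun z => (P j z).eval 0) =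
          (Fin.cons F (fun j => L 0 (w j)) : Fin (r+1) → ι → K) j := funext fun z => hP0 j z
      rw [h0]
    rw [this, Matrix.det_one]
  have hDne : D ≠ 0 := by
    intro h
    rw [h, Polynomial.eval_zero] at hD0
    exact zero_ne_one hD0
  obtain ⟨ε, hεS, hε⟩ := hS.exists_notMem_finset (D * Polynomial.X).roots.toFinset
  have hDX : D * Polynomial.X ≠ 0 := mul_ne_zero hDne Polynomial.X_ne_zero
  have hε' : ¬ (D * Polynomial.X).IsRoot ε := by
    intro h
    exact hε (by rw [Multiset.mem_toFinset, Polynomial.mem_roots hDX]; exact h)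
  rw [Polynomial.IsRoot, Polynomial.eval_mul, Polynomial.eval_X] at hε'
  have hεD : D.eval ε ≠ 0 := fun h => hε' (by rw [h, zero_mul])
  have hε0 : ε ≠ 0 := fun h => hε' (by rw [h, mul_zero])
  -- the vectors in the range of L ε
  have hvec : ∀ j, (fun z => (P j z).eval ε) ∈ LinearMap.range (L ε) := by
    intro j
    refine Fin.cases ?_ (fun j => ?_) j
    · refine ⟨ε⁻¹ • v, ?_⟩
      ext z
      have h1 : (M v z) = (M v z).divX * Polynomial.X := by
        conv_lhs => rw [← Polynomial.divX_mul_X_add (M v z)]
        rw [hv z, Polynomial.C_0, add_zero]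
      rw [map_smul, Pi.smul_apply, hLap, smul_eq_mul]
      conv_lhs => rw [h1]
      rw [Polynomial.eval_mul, Polynomial.eval_X]
      simp only [P, Fin.cons_zero]
      field_simp
    · refine ⟨w j, ?_⟩
      ext z
      rw [hLap]
      simp [P]
  have h1 : LinearIndependent K
      (Matrix.of fun i j => φ (fun z => (P j z).eval ε) i).col :=
    Matrix.linearIndependent_cols_of_det_ne_zero (by rw [← hDev]; exact hεD)
  have h2 : LinearIndependent K (fun j => ((fun z => (P j z).eval ε) : ι → K)) :=
    LinearIndependent.of_comp φ h1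
  have h3 := finrank_span_eq_card h2
  rw [Fintype.card_fin] at h3
  have h4 : Submodule.span K (Set.range (fun j => (fun z => (P j z).eval ε))) ≤
      LinearMap.range (L ε) := by
    rw [Submodule.span_le]
    rintro _ ⟨j, rfl⟩
    exact hvec j
  have h5 := Submodule.finrank_mono h4
  have h6 := hrank ε hεS
  change Module.finrank K (LinearMap.range (L ε)) ≤ Module.finrank K (LinearMap.range (L 0)) at h6
  omega

end Geproci
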