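import Pool.Agent.Work.MP_efd9e3_ag.EvsProj
import Pool.Agent.Work.MP_efd9e3_ag.Deform

/-! MODULE FirstOrder (MP_efd9e3_ag).

`first_order`: Let `w' ∈ K^{n+1}` with `π w' = w`, `λ w' = 0` (`π` is onto; correct a preimage by a multiple of
`p`, `λ p = 1`).  For `ε ∈ K` put `τ_ε v = v - ε λ(v) w'` (invertible, inverse `v + ε λ(v) w'`) and
`π_ε = π ∘ τ_ε`, `π_ε v = π v - ε λ(v) w`; its kernel is `K (p + ε w')`.  For all `ε` with
`(p + ε w')_n ≠ 0` (all but at most one, as `p_n ≠ 0`; `S` := this set, infinite as `K` is infinite)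
`evs (π_ε ∘ z) t = evs (proj (p + ε w') ∘ z) t` has dimension `≤` that of `evs (proj p ∘ z) t = evs (π ∘ z) t`
(`hmax`, `evs_proj`).
Apply `deform` with `V = homogeneousSubmodule (Fin n) K t`,
`M q z = aeval (fun j => C (π z j) - X * C (λ z * w j)) q ∈ K[X]` (value at `ε`: `eval (π_ε z) q`;
coefficient 0: `eval (π z) q`; coefficient 1: `- λ z Σ_j w_j (∂_j q)(π z)`; for the coefficient 1 use e.g. that
both sides are derivations in `q` over evaluation (induction on `q`), or `Polynomial.derivative` and the
chain rule).  It gives a form `u` of degree `t` with `u(π z) = - λ z Σ_j w_j (∂_j q)(π z)`; take `g = -u`. -/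

set_option autoImplicit false

open MvPolynomial

namespace Geproci

variable {K : Type*} [Field K] {n : ℕ} {ι : Type*}

/-- first order part of a substitution -/
private theorem coeff_one_aeval (f : Fin n → Polynomial K) (q : MvPolynomial (Fin n) K) :
    ((aeval f q : Polynomial K)).coeff 1 =
      ∑ j, (aeval f (pderiv j q) : Polynomial K).coeff 0 * (f j).coeff 1 := by
  classical
  induction q using MvPolynomial.induction_on with
  | C a =>
    simp only [pderiv_C, map_zero, Polynomial.coeff_zero, zero_mul, Finset.sum_const_zero]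
    rw [algHom_C, Polynomial.algebraMap_eq]
    simp
  | add a b ha hb =>
    simp only [map_add, Polynomial.coeff_add, ha, hb, add_mul, Finset.sum_add_distrib]
  | mul_X a i ha =>
    have h1 : ∀ j, (aeval f (pderiv j (a * X i)) : Polynomial K).coeff 0 * (f j).coeff 1 =
        (aeval f (pderiv j a) : Polynomial K).coeff 0 * (f j).coeff 1 * (f i).coeff 0 +
          (if j = i then (aeval f a : Polynomial K).coeff 0 * (f i).coeff 1 else 0) := by
      intro j
      rw [pderiv_mul, pderiv_X, map_add, map_mul, map_mul, aeval_X, Polynomial.coeff_add,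
        Polynomial.mul_coeff_zero, Polynomial.mul_coeff_zero]
      by_cases h : j = i
      · subst h
        simp
        ring
      · have h' : Pi.single (M := fun _ => MvPolynomial (Fin n) K) j 1 i = 0 := by
          rw [Pi.single_apply, if_neg (fun e => h e.symm)]
        rw [if_neg h]
        rw [h']
        simp
        ring
    simp only [h1]
    rw [Finset.sum_add_distrib, Finset.sum_ite_eq' Finset.univ i, if_pos (Finset.mem_univ i),
      ← Finset.sum_mul, ← ha, map_mul, aeval_X, Polynomial.mul_coeff_one]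
    ring

theorem first_order [Infinite K] [Fintype ι] (z : ι → Fin (n+1) → K) (p : Fin (n+1) → K)
    (hp : p (Fin.last n) ≠ 0) (t : ℕ)
    (hmax : ∀ p' : Fin (n+1) → K, Module.finrank K (evs (fun i => proj p' (z i)) t) ≤
      Module.finrank K (evs (fun i => proj p (z i)) t))
    (π : (Fin (n+1) → K) →ₗ[K] (Fin n → K)) (hπ : LinearMap.ker π = Submodule.span K {p})
    (lam : (Fin (n+1) → K) →ₗ[K] K) (hlam : lam p = 1)
    (q : MvPolynomial (Fin n) K) (hq : q.IsHomogeneous t) (hqz : ∀ i, eval (π (z i)) q = 0)
    (w : Fin n → K) :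
    ∃ g : MvPolynomial (Fin n) K, g.IsHomogeneous t ∧
      ∀ i, eval (π (z i)) g = lam (z i) * ∑ j, w j * eval (π (z i)) (pderiv j q) := by
  classical
  have hp0 : p ≠ 0 := by
    rintro rfl
    exact hp rfl
  have hπp : π p = 0 := by
    have : p ∈ LinearMap.ker π := by
      rw [hπ]
      exact Submodule.mem_span_singleton_self p
    exact this
  -- a preimage of `w`
  have hsurj : Function.Surjective π := by
    rw [← LinearMap.range_eq_top]
    apply Submodule.eq_top_of_finrank_eq
    have h1 := LinearMap.finrank_range_add_finrank_ker π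
    rw [hπ, finrank_span_singleton hp0, Module.finrank_fin_fun] at h1
    rw [Module.finrank_fin_fun]
    omega
  obtain ⟨w', hw', hlw'⟩ : ∃ w', π w' = w ∧ lam w' = 0 := by
    obtain ⟨w₀, hw₀⟩ := hsurj w
    refine ⟨w₀ - lam w₀ • p, ?_, ?_⟩
    · rw [map_sub, map_smul, hπp, smul_zero, sub_zero, hw₀]
    · rw [map_sub, map_smul, hlam, smul_eq_mul, mul_one, sub_self]
  -- the deformed projections
  let πe : K → ((Fin (n+1) → K) →ₗ[K] (Fin n → K)) := fun ε => π - (ε • lam).smulRight w
  have hπe : ∀ ε v, πe ε v = π v - (ε * lam v) • w := fun ε v => rfl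
  have hker : ∀ ε, LinearMap.ker (πe ε) = Submodule.span K {p + ε • w'} := by
    intro ε
    ext v
    rw [LinearMap.mem_ker, hπe, Submodule.mem_span_singleton]
    constructor
    · intro h
      have h1 : π (v - (ε * lam v) • w') = 0 := by
        rw [map_sub, map_smul, hw']
        exact h
      have h2 : v - (ε * lam v) • w' ∈ Submodule.span K {p} := by
        rw [← hπ]
        exact h1
      obtain ⟨c, hc⟩ := Submodule.mem_span_singleton.1 h2
      have h3 : lam v = c := by
        have := congrArg lam hc
        rw [map_smul, hlam, map_sub, map_smul, hlw'] at this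
        simpa using this.symm
      refine ⟨c, ?_⟩
      rw [smul_add, hc, h3, smul_smul, mul_comm]
      abel
    · rintro ⟨c, rfl⟩
      rw [map_smul, map_smul, map_add, map_add, map_smul, map_smul, hπp, hw', hlam, hlw']
      simp [mul_comm, smul_smul]
  let S : Set K := {ε | (p + ε • w') (Fin.last n) ≠ 0}
  have hS : S.Infinite := by
    have h1 : (Sᶜ : Set K).Finite := by
      refine (Set.finite_singleton (-(p (Fin.last n)) / w' (Fin.last n))).subset ?_
      intro ε hε
      have h2 : p (Fin.last n) + ε * w' (Fin.last n) = 0 := by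
        by_contra h
        exact hε h
      have h3 : w' (Fin.last n) ≠ 0 := by
        intro h
        rw [h, mul_zero, add_zero] at h2
        exact hp h2
      rw [Set.mem_singleton_iff, eq_div_iff h3]
      linear_combination h2
    intro hfin
    have := hfin.union h1
    rw [Set.union_compl_self] at this
    exact Set.infinite_univ this
  let Y : ι → Fin n → Polynomial K := fun i j =>
    Polynomial.C (π (z i) j) - Polynomial.X * Polynomial.C (lam (z i) * w j)
  let M : homogeneousSubmodule (Fin n) K t →ₗ[K] (ι → Polynomial K) :=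
    LinearMap.pi fun i => (aeval (Y i)).toLinearMap ∘ₗ Submodule.subtype _
  have key : ∀ (ε : K) (i : ι) (r : MvPolynomial (Fin n) K),
      (Polynomial.aeval ε : Polynomial K →ₐ[K] K) ((aeval (Y i)) r) = eval (πe ε (z i)) r := by
    intro ε i r
    have h1 : ((Polynomial.aeval ε : Polynomial K →ₐ[K] K).comp (aeval (Y i))) =
        (aeval (πe ε (z i)) : MvPolynomial (Fin n) K →ₐ[K] K) := by
      apply MvPolynomial.algHom_ext
      intro k
      rw [AlgHom.comp_apply, aeval_X, aeval_X, hπe]
      simp [Y]
      ring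
    have h2 := congrArg (fun f : MvPolynomial (Fin n) K →ₐ[K] K => f r) h1
    simp only [AlgHom.comp_apply] at h2
    rw [h2, aeval_eq_eval]
  have hrange : ∀ ε, LinearMap.range
      ((LinearMap.pi fun i => (Polynomial.aeval ε).toLinearMap ∘ₗ LinearMap.proj i ∘ₗ M :
        homogeneousSubmodule (Fin n) K t →ₗ[K] (ι → K))) = evs (fun i => πe ε (z i)) t := by
    intro ε
    ext F
    rw [mem_evs, LinearMap.mem_range]
    constructor
    · rintro ⟨r, rfl⟩
      exact ⟨r, r.2, fun i => (key ε i r).symm⟩
    · rintro ⟨r, hr, h⟩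
      refine ⟨⟨r, hr⟩, funext fun i => ?_⟩
      rw [← h i]
      exact key ε i r
  have hπ0 : πe 0 = π := by
    ext v
    simp [πe]
  have hc0 : ∀ i (r : MvPolynomial (Fin n) K),
      (aeval (Y i) r : Polynomial K).coeff 0 = eval (π (z i)) r := by
    intro i r
    rw [Polynomial.coeff_zero_eq_aeval_zero, key, hπ0]
  obtain ⟨u, hu⟩ := deform M S hS (by
    intro ε hε
    rw [hrange, hrange, hπ0, evs_proj p hp π hπ z t,
      evs_proj (p + ε • w') hε (πe ε) (hker ε) z t]
    exact hmax _) ⟨q, hq⟩ (fun i => (hc0 i q).trans (hqz i))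
  refine ⟨-u, (mem_homogeneousSubmodule _ _).1 (neg_mem u.2), fun i => ?_⟩
  have h1 : (aeval (Y i) (u : MvPolynomial (Fin n) K) : Polynomial K).coeff 0 =
      (aeval (Y i) q : Polynomial K).coeff 1 := hu i
  rw [hc0, coeff_one_aeval] at h1
  rw [map_neg, h1, Finset.mul_sum, ← Finset.sum_neg_distrib]
  refine Finset.sum_congr rfl fun j _ => ?_
  rw [hc0]
  have h2 : (Y i j).coeff 1 = -(lam (z i) * w j) := by
    simp [Y]
  rw [h2]
  ring

end Geproci
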