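import Pool.Agent.Work.MP_efd9e3_ag.PtsSep

/-! MODULE Grad (MP_efd9e3_ag).

`f : Fin m → A`, `A = K[y_0..y_m]` (`m + 1` variables), `Ideal.span (range f) = vanish y` as sets.  Claim: the
gradient of every `f k` at every `y z` is non-zero.
Suppose `pderiv j (f k)` vanishes at `y_z` for all `j`.  Consider the linear map
`D : (Fin (m+1) → K) → (Fin m → K)`, `D w i = Σ_j w_j (∂_j f_i)(y_z)`.  Its `k`-th component is `0`, so its
rank is `≤ m - 1` and its kernel has dimension `≥ 2`; hence there is `w` in the kernel with `w ∉ K y_z`.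
For every `q = Σ g_i f_i` in the ideal, `Σ_j w_j (∂_j q)(y_z) = Σ_i g_i(y_z) D w i = 0` (product rule;
`f_i(y_z) = 0` as `f_i ∈ vanish y`).  But by `exists_lin` there are linear forms `ℓ` with `ℓ(y_z) = 0`,
`ℓ(w) ≠ 0` and, for `z' ≠ z`, `ℓ_z'` with `ℓ_z'(y_z') = 0`, `ℓ_z'(y_z) ≠ 0`; `q = ℓ * Π_{z' ≠ z} ℓ_z'` lies in
`vanish y` and `Σ_j w_j (∂_j q)(y_z) = ℓ(w) * Π_{z' ≠ z} ℓ_z'(y_z) ≠ 0`, contradiction. -/

set_option autoImplicit false

open MvPolynomial

namespace Geproci

variable {K : Type*} [Field K] {ι : Type*}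

/-- the derivative in the direction `w` at `x` -/
private noncomputable def dirD {n : ℕ} (x w : Fin n → K) (q : MvPolynomial (Fin n) K) : K :=
  ∑ j, w j * eval x (pderiv j q)

private theorem dirD_mul {n : ℕ} (x w : Fin n → K) (a b : MvPolynomial (Fin n) K) :
    dirD x w (a * b) = eval x a * dirD x w b + eval x b * dirD x w a := by
  unfold dirD
  rw [Finset.mul_sum, Finset.mul_sum, ← Finset.sum_add_distrib]
  refine Finset.sum_congr rfl fun j _ => ?_
  rw [Derivation.leibniz, map_add, smul_eq_mul, smul_eq_mul, map_mul, map_mul]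
  ring

private theorem dirD_sum {n : ℕ} {τ : Type*} (x w : Fin n → K) (s : Finset τ)
    (q : τ → MvPolynomial (Fin n) K) :
    dirD x w (∑ i ∈ s, q i) = ∑ i ∈ s, dirD x w (q i) := by
  unfold dirD
  rw [Finset.sum_comm]
  refine Finset.sum_congr rfl fun j _ => ?_
  rw [map_sum, map_sum, Finset.mul_sum]

/-- the linear form of a functional -/
private noncomputable def linf' {n : ℕ} (f : (Fin n → K) →ₗ[K] K) : MvPolynomial (Fin n) K :=
  ∑ j, C (f (fun i => if j = i then 1 else 0)) * X j

private theorem linf'_eval {n : ℕ} (f : (Fin n → K) →ₗ[K] K) (x : Fin n → K) :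
    eval x (linf' f) = f x := by
  rw [linf', map_sum, LinearMap.pi_apply_eq_sum_univ f x]
  refine Finset.sum_congr rfl fun j _ => ?_
  rw [map_mul, eval_C, eval_X, smul_eq_mul, mul_comm]

private theorem dirD_linf' {n : ℕ} (f : (Fin n → K) →ₗ[K] K) (x w : Fin n → K) :
    dirD x w (linf' f) = f w := by
  classical
  unfold dirD
  rw [LinearMap.pi_apply_eq_sum_univ f w]
  refine Finset.sum_congr rfl fun j _ => ?_
  rw [smul_eq_mul]
  congr 1
  rw [linf', map_sum, map_sum, Finset.sum_eq_single j]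
  · rw [Derivation.leibniz, pderiv_X_self, pderiv_C, smul_zero, add_zero, smul_eq_mul, mul_one,
      eval_C]
  · intro i _ hi
    rw [Derivation.leibniz, pderiv_X_of_ne hi, pderiv_C, smul_zero, smul_zero,
      add_zero, map_zero]
  · intro h
    exact absurd (Finset.mem_univ j) h

private theorem exists_fun' {n : ℕ} (u x : Fin n → K) (hx : ∀ c : K, x ≠ c • u) :
    ∃ f : (Fin n → K) →ₗ[K] K, f u = 0 ∧ f x ≠ 0 := by
  have h : x ∉ Submodule.span K {u} := by
    rw [Submodule.mem_span_singleton]
    rintro ⟨c, hc⟩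
    exact hx c hc.symm
  obtain ⟨f, hf, hle⟩ := Submodule.exists_le_ker_of_notMem h
  exact ⟨f, hle (Submodule.mem_span_singleton_self u), hf⟩

theorem grad_ne [Fintype ι] {m : ℕ} (y : ι → Fin (m+1) → K) (hy : Indep y)
    (f : Fin m → MvPolynomial (Fin (m+1)) K)
    (hf : (Ideal.span (Set.range f) : Set (MvPolynomial (Fin (m+1)) K)) = vanish y)
    (k : Fin m) (z : ι) : ∃ j, eval (y z) (pderiv j (f k)) ≠ 0 := by
  classical
  by_contra hcon
  push Not at hcon
  let D : (Fin (m+1) → K) →ₗ[K] ({i : Fin m // i ≠ k} → K) :=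
    { toFun := fun w i => dirD (y z) w (f i)
      map_add' := by
        intro a b
        ext i
        simp only [dirD, Pi.add_apply]
        rw [← Finset.sum_add_distrib]
        exact Finset.sum_congr rfl fun j _ => by ring
      map_smul' := by
        intro c a
        ext i
        simp only [dirD, Pi.smul_apply, smul_eq_mul, RingHom.id_apply]
        rw [Finset.mul_sum]
        exact Finset.sum_congr rfl fun j _ => by ring }
  have hdim := LinearMap.finrank_range_add_finrank_ker D
  rw [Module.finrank_pi, Fintype.card_fin] at hdim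
  have hrange : Module.finrank K (LinearMap.range D) ≤ m - 1 := by
    refine (Submodule.finrank_le _).trans ?_
    rw [Module.finrank_pi, Fintype.card_subtype_compl, Fintype.card_fin, Fintype.card_subtype_eq]
  have hm : 0 < m := Fin.pos k
  have hker : 2 ≤ Module.finrank K (LinearMap.ker D) := by omega
  have hex : ∃ w ∈ LinearMap.ker D, ∀ c : K, w ≠ c • y z := by
    by_contra h
    push Not at h
    have hle : LinearMap.ker D ≤ Submodule.span K {y z} := by
      intro w hw
      obtain ⟨c, hc⟩ := h w hw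
      rw [Submodule.mem_span_singleton]
      exact ⟨c, hc.symm⟩
    have h1 := Submodule.finrank_mono hle
    have h2 := finrank_span_singleton (K := K) (hy.1 z)
    omega
  obtain ⟨w, hw, hwc⟩ := hex
  have hDw : ∀ i : Fin m, dirD (y z) w (f i) = 0 := by
    intro i
    by_cases h : i = k
    · rw [h]
      unfold dirD
      exact Finset.sum_eq_zero fun j _ => by rw [hcon j, mul_zero]
    · have h1 := congrFun (LinearMap.mem_ker.1 hw) ⟨i, h⟩
      exact h1
  have hfz : ∀ i : Fin m, eval (y z) (f i) = 0 := by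
    intro i
    have h1 : f i ∈ vanish y := by
      rw [← hf]
      exact Ideal.subset_span ⟨i, rfl⟩
    have h2 := h1 z 1
    rwa [one_smul] at h2
  have hkill : ∀ q ∈ vanish y, dirD (y z) w q = 0 := by
    intro q hq
    rw [← hf] at hq
    have hq' : q ∈ Ideal.span (Set.range f) := hq
    obtain ⟨c, hc⟩ := Ideal.mem_span_range_iff_exists_fun.1 hq'
    rw [← hc, dirD_sum]
    refine Finset.sum_eq_zero fun i _ => ?_
    rw [dirD_mul, hDw, hfz, mul_zero, zero_mul, add_zero]
  obtain ⟨f0, hf01, hf02⟩ := exists_fun' (y z) w hwc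
  have hex : ∀ z' : ι, ∃ g : (Fin (m+1) → K) →ₗ[K] K, z' ≠ z → (g (y z') = 0 ∧ g (y z) ≠ 0) := by
    intro z'
    by_cases h : z' = z
    · exact ⟨0, fun h' => absurd h h'⟩
    · obtain ⟨g, h1, h2⟩ := exists_fun' (y z') (y z) (fun c => hy.2 z' z h c)
      exact ⟨g, fun _ => ⟨h1, h2⟩⟩
  choose g hg using hex
  have hq : linf' f0 * ∏ z' ∈ Finset.univ.erase z, linf' (g z') ∈ vanish y := by
    intro z' c
    rw [map_mul, map_prod]
    by_cases h : z' = z
    · rw [linf'_eval, h, map_smul, hf01, smul_zero, zero_mul]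
    · rw [Finset.prod_eq_zero (Finset.mem_erase.2 ⟨h, Finset.mem_univ z'⟩), mul_zero]
      rw [linf'_eval, map_smul, (hg z' h).1, smul_zero]
  have h0 := hkill _ hq
  rw [dirD_mul, linf'_eval, hf01, zero_mul, zero_add, dirD_linf', map_prod] at h0
  rcases mul_eq_zero.1 h0 with h1 | h1
  · rw [Finset.prod_eq_zero_iff] at h1
    obtain ⟨z', hz', h2⟩ := h1
    rw [linf'_eval] at h2
    exact (hg z' (Finset.ne_of_mem_erase hz')).2 h2
  · exact hf02 h1

end Geproci
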