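import Pool.Agent.Work.MP_efd9e3_ag.SocStep
import Pool.Agent.Work.MP_efd9e3_ag.ChooseQ
import Pool.Agent.Work.MP_efd9e3_ag.Grad
import Pool.Agent.Work.MP_efd9e3_ag.FirstOrder
import Pool.Agent.Work.MP_efd9e3_ag.Generic
import Pool.Agent.Work.MP_efd9e3_ag.CardEq

/-! MODULE Main (MP_efd9e3_ag) (helper69). -/

set_option autoImplicit false

open MvPolynomial

namespace Geproci

variable {K : Type*} [Field K] {n : ℕ} {ι : Type*}

/-- A linear form is a combination of the variables. -/
theorem main_linForm (q : MvPolynomial (Fin n) K) (hq : q.IsHomogeneous 1) :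
    ∃ c : Fin n → K, q = ∑ j, C (c j) * MvPolynomial.X j := by
  have h : q ∈ homogeneousSubmodule (Fin n) K 1 := by
    rw [mem_homogeneousSubmodule]; exact hq
  rw [homogeneousSubmodule_one_eq_span_X, Submodule.mem_span_range_iff_exists_fun] at h
  obtain ⟨c, hc⟩ := h
  refine ⟨c, ?_⟩
  rw [← hc]
  refine Finset.sum_congr rfl fun j _ => ?_
  rw [← MvPolynomial.smul_eq_C_mul]

theorem main_eval_linForm (c : Fin n → K) (x : Fin n → K) :
    eval x (∑ j, C (c j) * MvPolynomial.X j) = ∑ j, c j * x j := by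
  simp [map_sum]

/-- if a linear form and a functional agree on a spanning set they agree at the centre -/
theorem main_agree (q : MvPolynomial (Fin n) K) (hq : q.IsHomogeneous 1)
    (Z : Set (Fin (n+1) → K)) (hspan : Submodule.span K Z = ⊤)
    (π : (Fin (n+1) → K) →ₗ[K] (Fin n → K)) (lam : (Fin (n+1) → K) →ₗ[K] K)
    (h : ∀ v ∈ Z, eval (π v) q = lam v) (v : Fin (n+1) → K) : eval (π v) q = lam v := by
  obtain ⟨c, rfl⟩ := main_linForm q hq
  have key : (∑ j, c j • (LinearMap.proj j ∘ₗ π : (Fin (n+1) → K) →ₗ[K] K)) = lam := by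
    refine LinearMap.ext_on hspan fun v hv => ?_
    rw [← h v hv, main_eval_linForm]
    simp [LinearMap.sum_apply]
  rw [main_eval_linForm, ← key]
  simp [LinearMap.sum_apply]

theorem main_surj (p : Fin (n+1) → K) (hp : p ≠ 0)
    (π : (Fin (n+1) → K) →ₗ[K] (Fin n → K)) (hπ : LinearMap.ker π = Submodule.span K {p}) :
    Function.Surjective π := by
  rw [← LinearMap.range_eq_top]
  apply Submodule.eq_top_of_finrank_eq
  have h1 := LinearMap.finrank_range_add_finrank_ker π
  rw [hπ, finrank_span_singleton hp] at h1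
  simp only [Module.finrank_fintype_fun_eq_card, Fintype.card_fin] at h1 ⊢
  omega

theorem main_indep (p : Fin (n+1) → K) (hp : p (Fin.last n) ≠ 0)
    (π : (Fin (n+1) → K) →ₗ[K] (Fin n → K)) (hπ : LinearMap.ker π = Submodule.span K {p})
    (z : ι → Fin (n+1) → K) (h : Indep (fun i => proj p (z i))) : Indep (fun i => π (z i)) := by
  have hk : ∀ v, π v = 0 → proj p v = 0 := by
    intro v hv
    rw [proj_kernel p hp, ← hπ]
    exact hv
  refine ⟨fun i hi => h.1 i (hk _ hi), fun i i' hii c hc => h.2 i i' hii c ?_⟩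
  have h0 : π (z i' - c • z i) = 0 := by
    have hc' : π (z i') = c • π (z i) := hc
    rw [map_sub, map_smul, hc', sub_self]
  have := hk _ h0
  funext j
  have hj := congrFun this j
  simp only [proj, Pi.sub_apply, Pi.smul_apply, smul_eq_mul, Pi.zero_apply] at hj ⊢
  linear_combination hj

theorem main_aux [IsAlgClosed K] [CharZero K] {m : ℕ} (hm : 1 ≤ m) (Z : Finset (Fin (m+1+1) → K))
    (h0 : ∀ v ∈ Z, v ≠ 0) (hp : ∀ v ∈ Z, ∀ w ∈ Z, ∀ c : K, w = c • v → w = v)
    (hspan : Submodule.span K (Z : Set (Fin (m+1+1) → K)) = ⊤) :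
    ∃ g : MvPolynomial (Fin (m+1+1)) K, g ≠ 0 ∧ ∀ p : Fin (m+1+1) → K, eval p g ≠ 0 →
      ∀ π : (Fin (m+1+1) → K) →ₗ[K] (Fin (m+1) → K), LinearMap.ker π = Submodule.span K {p} →
      ∀ (f : Fin m → MvPolynomial (Fin (m+1)) K) (d : Fin m → ℕ),
        (∀ i, (f i).IsHomogeneous (d i)) →
        (Ideal.span (Set.range f) : Set (MvPolynomial (Fin (m+1)) K)) =
          {q | ∀ v ∈ Z, ∀ c : K, eval (c • π v) q = 0} →
        (∀ i, m ≤ d i) ∧ Z.card = ∏ i, d i := by
  classical
  have hK : Infinite K := IsAlgClosed.instInfinite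
  -- the family of points
  let z : Z → Fin (m+1+1) → K := fun v => v.1
  have hz : Indep z := by
    refine ⟨fun v => h0 v.1 v.2, fun v v' hvv' c hc => hvv' ?_⟩
    exact (Subtype.ext (hp v.1 v.2 v'.1 v'.2 c hc)).symm
  have hne : Nonempty Z := by
    by_contra hcon
    rw [nonempty_subtype, not_exists] at hcon
    have hZ : Z = ∅ := Finset.eq_empty_of_forall_notMem hcon
    rw [hZ] at hspan
    simp at hspan
  obtain ⟨g, hg0, hg⟩ := generic (by omega) z hz
  refine ⟨g, hg0, fun p hpg π hπ f d hd hf => ?_⟩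
  obtain ⟨hpl, hind, hmax⟩ := hg p hpg
  have hp0 : p ≠ 0 := by
    rintro rfl
    exact hpl rfl
  let y : Z → Fin (m+1) → K := fun v => π (z v)
  have hy : Indep y := main_indep p hpl π hπ z hind
  have hfy : (Ideal.span (Set.range f) : Set (MvPolynomial (Fin (m+1)) K)) = vanish y := by
    rw [hf]
    ext q
    constructor
    · intro h v c
      exact h v.1 v.2 c
    · intro h v hv c
      exact h ⟨v, hv⟩ c
  have hsurj := main_surj p hp0 π hπ
  have hgrad : ∀ k v, ∃ j, eval (y v) (pderiv j (f k)) ≠ 0 := fun k v => grad_ne y hy f hfy k v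
  have hfz : ∀ k v, eval (y v) (f k) = 0 := by
    intro k v
    have h1 : f k ∈ (Ideal.span (Set.range f) : Set (MvPolynomial (Fin (m+1)) K)) :=
      Ideal.subset_span ⟨k, rfl⟩
    rw [hfy] at h1
    have := h1 v 1
    rwa [one_smul] at this
  -- the degrees are at least two
  have h2 : ∀ i, 2 ≤ d i := by
    intro i
    by_contra hcon
    have hv := hne.some
    obtain ⟨j, hj⟩ := hgrad i hne.some
    rcases Nat.lt_or_ge (d i) 1 with h | h
    · have hd0 : d i = 0 := by omega
      have := hd i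
      rw [hd0] at this
      have h3 : f i ∈ homogeneousSubmodule (Fin (m+1)) K 0 := by
        rw [mem_homogeneousSubmodule]; exact this
      have h4 : f i = C (coeff 0 (f i)) := by
        rw [← totalDegree_eq_zero_iff_eq_C]
        rw [totalDegree_zero_iff_isHomogeneous]
        exact this
      rw [h4] at hj
      simp at hj
    · have hd1 : d i = 1 := by omega
      have h1 := hd i
      rw [hd1] at h1
      have h3 := main_agree (f i) h1 Z hspan π 0 (fun v hv => by
        rw [LinearMap.zero_apply]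
        exact hfz i ⟨v, hv⟩)
      obtain ⟨c, hc⟩ := main_linForm (f i) h1
      obtain ⟨v, hv⟩ := hsurj (Pi.single j 1)
      have h4 := h3 v
      rw [hv, hc, main_eval_linForm] at h4
      simp [Pi.single_apply] at h4
      rw [hc] at hj
      simp [map_sum, pderiv_X, Pi.single_apply] at hj
      exact hj h4
  have hd1 : ∀ i, 1 ≤ d i := fun i => le_trans (by norm_num) (h2 i)
  -- the functional
  let lam : (Fin (m+1+1) → K) →ₗ[K] K := (p (Fin.last (m+1)))⁻¹ • LinearMap.proj (Fin.last (m+1))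
  have hlam : lam p = 1 := by
    simp [lam, hpl]
  have hh : (fun v : Z => lam (z v)) ∉ evs y 1 := by
    rw [mem_evs]
    rintro ⟨q, hq, hqz⟩
    have h3 := main_agree q hq Z hspan π lam (fun v hv => hqz ⟨v, hv⟩) p
    have h4 : π p = 0 := by
      have : p ∈ LinearMap.ker π := by rw [hπ]; exact Submodule.mem_span_singleton_self p
      exact this
    rw [h4, hlam] at h3
    obtain ⟨c, hc⟩ := main_linForm q hq
    rw [hc, main_eval_linForm] at h3
    simp at h3
  obtain ⟨t, a, ha, hanot, ht⟩ := soc_step y hy f d hd hd1 hfy (fun v => lam (z v)) hh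
  refine ⟨fun k0 => ?_, ?_⟩
  · obtain ⟨q, e, hq, he, hFull, hqJ, hsum⟩ := choose_q y hy f d hd hfy h2 hgrad k0
    by_contra hcon
    have hlt : ∑ i, e i < t + (m+1) := by omega
    have haq := full_degree q e hq he hFull a t ha hlt
    have haJ : a ∈ Ideal.span
        (Set.range fun jl : Fin (m+1) × Fin m => pderiv jl.1 (f jl.2)) := by
      have hle : idl q Finset.univ ≤ Ideal.span
        (Set.range fun jl : Fin (m+1) × Fin m => pderiv jl.1 (f jl.2)) := by
        rw [idl_univ, Ideal.span_le]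
        rintro _ ⟨i, rfl⟩
        exact hqJ i
      exact hle haq
    obtain ⟨G, hG, hGa⟩ := split_all (fun jl : Fin (m+1) × Fin m => pderiv jl.1 (f jl.2))
      (fun jl => d jl.2 - 1) (fun jl => (hd jl.2).pderiv) a t ha haJ
    have hfo : ∀ jl : Fin (m+1) × Fin m, ∃ b : MvPolynomial (Fin (m+1)) K,
        b.IsHomogeneous (d jl.2) ∧
        ∀ v, eval (y v) b = lam (z v) * eval (y v) (pderiv jl.1 (f jl.2)) := by
      intro jl
      obtain ⟨b, hb, hb2⟩ := first_order z p hpl (d jl.2) (hmax (d jl.2)) π hπ lam hlam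
        (f jl.2) (hd jl.2) (fun v => hfz jl.2 v) (Pi.single jl.1 1)
      refine ⟨b, hb, fun v => ?_⟩
      have := hb2 v
      simp only [Pi.single_apply, ite_mul, one_mul, zero_mul, Finset.sum_ite_eq',
        Finset.mem_univ, if_true] at this
      exact this
    choose b hb hb2 using hfo
    apply hanot
    rw [mem_evs]
    refine ⟨∑ jl, G jl * b jl, ?_, fun v => ?_⟩
    · refine IsHomogeneous.sum _ _ _ fun jl _ => ?_
      rcases hG jl with ⟨s, hs, hst⟩ | h
      · have := hs.mul (hb jl)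
        have h3 : s + d jl.2 = t + 1 := by
          have := hd1 jl.2
          omega
        rwa [h3] at this
      · rw [h, zero_mul]
        exact isHomogeneous_zero _ _ _
    · rw [map_sum]
      have : eval (y v) a = ∑ jl, eval (y v) (G jl) * eval (y v) (pderiv jl.1 (f jl.2)) := by
        conv_lhs => rw [hGa]
        rw [map_sum]
        exact Finset.sum_congr rfl fun jl _ => by rw [map_mul]
      show _ = lam (z v) * eval (y v) a
      rw [this, Finset.mul_sum]
      refine Finset.sum_congr rfl fun jl _ => ?_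
      rw [map_mul, hb2]
      ring
  · have := card_eq y hy f d hd hd1 hfy
    rwa [Fintype.card_coe] at this

theorem main [IsAlgClosed K] [CharZero K] (hn : 2 ≤ n) (Z : Finset (Fin (n+1) → K))
    (h0 : ∀ v ∈ Z, v ≠ 0) (hp : ∀ v ∈ Z, ∀ w ∈ Z, ∀ c : K, w = c • v → w = v)
    (hspan : Submodule.span K (Z : Set (Fin (n+1) → K)) = ⊤) :
    ∃ g : MvPolynomial (Fin (n+1)) K, g ≠ 0 ∧ ∀ p : Fin (n+1) → K, eval p g ≠ 0 →
      ∀ π : (Fin (n+1) → K) →ₗ[K] (Fin n → K), LinearMap.ker π = Submodule.span K {p} →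
      ∀ (f : Fin (n-1) → MvPolynomial (Fin n) K) (d : Fin (n-1) → ℕ),
        (∀ i, (f i).IsHomogeneous (d i)) →
        (Ideal.span (Set.range f) : Set (MvPolynomial (Fin n) K)) =
          {q | ∀ v ∈ Z, ∀ c : K, eval (c • π v) q = 0} →
        (∀ i, n - 1 ≤ d i) ∧ Z.card = ∏ i, d i := by
  obtain ⟨m, rfl⟩ : ∃ m, n = m + 1 := ⟨n - 1, by omega⟩
  exact main_aux (by omega) Z h0 hp hspan

end Geproci
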