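import Pool.Agent.Work.MP_efd9e3_ag.Defs

/-! MODULE EvsProj (MP_efd9e3_ag).

`evs_comp`: for a linear automorphism `φ` of `K^n`, `evs (φ ∘ y) t = evs y t` (compose forms with `φ`, the
algebra map `X_i ↦ Σ_j φ_ij X_j`, which preserves homogeneity of degree `t`; use `φ` and `φ⁻¹`).

`proj_kernel`: for `p (last) ≠ 0` the map `proj p` is linear with kernel `K p` (if `p_n v_i = v_n p_i` for all
`i` then `v = (v_n / p_n) p`).

`evs_proj`: two linear maps `π, π' : K^{n+1} → K^n` with the same kernel `K p` (`p ≠ 0`), (so both are onto by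
dimension count), differ by an automorphism, `π' = φ ∘ π` (e.g. through `LinearMap.quotKerEquivOfSurjective`);
so `evs (π' ∘ z) t = evs (π ∘ z) t`.  Apply this to `π` and `proj p`. -/

set_option autoImplicit false

open MvPolynomial

namespace Geproci

variable {K : Type*} [Field K] {n : ℕ} {ι : Type*}

private theorem evs_comp_le (φ : (Fin n → K) →ₗ[K] (Fin n → K)) (y : ι → Fin n → K) (t : ℕ) :
    evs (fun i => φ (y i)) t ≤ evs y t := by
  intro F hF
  rw [mem_evs] at hF ⊢
  obtain ⟨q, hq, hF⟩ := hF
  set f : Fin n → MvPolynomial (Fin n) K := fun i => ∑ j, C (φ (Pi.single j 1) i) * X j with hf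
  have hfh : ∀ i, (f i).IsHomogeneous 1 := by
    intro i
    refine IsHomogeneous.sum _ _ _ fun j _ => ?_
    have := (isHomogeneous_C (Fin n) (φ (Pi.single j 1) i)).mul (isHomogeneous_X K j)
    simpa using this
  refine ⟨aeval f q, ?_, fun z => ?_⟩
  · have := hq.aeval f hfh
    rwa [one_mul] at this
  · rw [← hF z]
    have h1 : eval (y z) (aeval f q) = eval (fun i => eval (y z) (f i)) q := by
      have h0 : (eval (y z)).comp (algebraMap K (MvPolynomial (Fin n) K)) = RingHom.id K := by
        ext x
        simp [algebraMap_eq]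
      rw [map_aeval, h0]
      rfl
    rw [h1]
    congr 1
    congr 1
    funext i
    have h2 : φ (y z) = ∑ j, y z j • φ (Pi.single j 1) := by
      conv_lhs => rw [pi_eq_sum_univ' (y z)]
      rw [map_sum]
      refine Finset.sum_congr rfl fun j _ => ?_
      rw [map_smul]
    rw [h2, hf]
    simp only [map_sum, map_mul, eval_C, eval_X, Finset.sum_apply, Pi.smul_apply, smul_eq_mul]
    refine Finset.sum_congr rfl fun j _ => ?_
    ring

theorem evs_comp (φ : (Fin n → K) ≃ₗ[K] (Fin n → K)) (y : ι → Fin n → K) (t : ℕ) :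
    evs (fun i => φ (y i)) t = evs y t := by
  refine le_antisymm (evs_comp_le φ.toLinearMap y t) ?_
  have h := evs_comp_le φ.symm.toLinearMap (fun i => φ (y i)) t
  simpa using h

/-- the projection as a linear map -/
private def projL (p : Fin (n+1) → K) : (Fin (n+1) → K) →ₗ[K] (Fin n → K) where
  toFun := proj p
  map_add' v w := by
    funext i
    simp only [proj, Pi.add_apply]
    ring
  map_smul' c v := by
    funext i
    simp only [proj, Pi.smul_apply, smul_eq_mul, RingHom.id_apply]
    ring

theorem proj_kernel (p : Fin (n+1) → K) (hp : p (Fin.last n) ≠ 0) (v : Fin (n+1) → K) :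
    proj p v = 0 ↔ v ∈ Submodule.span K {p} := by
  rw [Submodule.mem_span_singleton]
  constructor
  · intro h
    refine ⟨v (Fin.last n) / p (Fin.last n), ?_⟩
    funext i
    refine Fin.lastCases ?_ (fun j => ?_) i
    · rw [Pi.smul_apply, smul_eq_mul, div_mul_cancel₀ _ hp]
    · have h1 := congrFun h j
      simp only [proj, Pi.zero_apply] at h1
      rw [Pi.smul_apply, smul_eq_mul, div_mul_eq_mul_div, div_eq_iff hp]
      linear_combination (-1 : K) * h1
  · rintro ⟨c, rfl⟩
    funext i
    simp only [proj, Pi.smul_apply, smul_eq_mul, Pi.zero_apply]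
    ring

private theorem surj_of_ker (p : Fin (n+1) → K) (hp : p ≠ 0)
    (π : (Fin (n+1) → K) →ₗ[K] (Fin n → K)) (hπ : LinearMap.ker π = Submodule.span K {p}) :
    Function.Surjective π := by
  rw [← LinearMap.range_eq_top]
  apply Submodule.eq_top_of_finrank_eq
  have h1 := LinearMap.finrank_range_add_finrank_ker π
  rw [hπ, finrank_span_singleton hp, Module.finrank_fin_fun] at h1
  rw [Module.finrank_fin_fun]
  omega

theorem evs_proj (p : Fin (n+1) → K) (hp : p (Fin.last n) ≠ 0)
    (π : (Fin (n+1) → K) →ₗ[K] (Fin n → K)) (hπ : LinearMap.ker π = Submodule.span K {p})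
    (z : ι → Fin (n+1) → K) (t : ℕ) :
    evs (fun i => π (z i)) t = evs (fun i => proj p (z i)) t := by
  have hp0 : p ≠ 0 := fun h => hp (by rw [h]; rfl)
  have hk : LinearMap.ker (projL p) = Submodule.span K {p} := by
    ext v
    rw [LinearMap.mem_ker, ← proj_kernel p hp v]
    rfl
  have hs1 := surj_of_ker p hp0 π hπ
  have hs2 := surj_of_ker p hp0 (projL p) hk
  set φ : (Fin n → K) ≃ₗ[K] (Fin n → K) :=
    ((projL p).quotKerEquivOfSurjective hs2).symm ≪≫ₗ
      (Submodule.quotEquivOfEq _ _ (hk.trans hπ.symm)) ≪≫ₗ (π.quotKerEquivOfSurjective hs1) with hφ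
  have h1 : ∀ v, φ (proj p v) = π v := by
    intro v
    have h2 : ((projL p).quotKerEquivOfSurjective hs2).symm (proj p v) =
        Submodule.Quotient.mk v := by
      rw [LinearEquiv.symm_apply_eq]
      rfl
    rw [hφ, LinearEquiv.trans_apply, LinearEquiv.trans_apply, h2]
    rfl
  have h3 := evs_comp φ (fun i => proj p (z i)) t
  simp only [h1] at h3
  exact h3

end Geproci
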