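import Mathlib

/-! MP_efd9e3_ag (geproci sets): definitions.  `A = K[y_0, …, y_{n-1}]`. -/

set_option autoImplicit false

open MvPolynomial

namespace Geproci

variable {K : Type*} [Field K] {n : ℕ} {ι : Type*}

/-- Every form of sufficiently large degree lies in `I`. -/
def Full (I : Ideal (MvPolynomial (Fin n) K)) : Prop :=
  ∃ N : ℕ, ∀ t : ℕ, N ≤ t → ∀ q : MvPolynomial (Fin n) K, q.IsHomogeneous t → q ∈ I

/-- The ideal generated by the `X i`, `i ∈ T`. -/
noncomputable def idl (X : ι → MvPolynomial (Fin n) K) (T : Finset ι) : Ideal (MvPolynomial (Fin n) K) :=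
  Ideal.span (X '' (T : Set ι))

/-- Every `X i` is regular modulo the ideal of any finite set of the others. -/
def Reg (X : ι → MvPolynomial (Fin n) K) : Prop :=
  ∀ (T : Finset ι) (i : ι), i ∉ T → ∀ u : MvPolynomial (Fin n) K,
    X i * u ∈ idl X T → u ∈ idl X T

/-- Every homogeneous socle element modulo `I` has degree `s - n`. -/
def Soc (I : Ideal (MvPolynomial (Fin n) K)) (s : ℕ) : Prop :=
  ∀ (u : MvPolynomial (Fin n) K) (t : ℕ), u.IsHomogeneous t → u ∉ I →
    (∀ j : Fin n, MvPolynomial.X j * u ∈ I) → t + n = s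

/-- The polynomials which vanish on the lines through the vectors `y z`. -/
def vanish (y : ι → Fin n → K) : Set (MvPolynomial (Fin n) K) :=
  {q | ∀ z : ι, ∀ c : K, eval (c • y z) q = 0}

/-- The vectors `y z` are non-zero and pairwise non-proportional. -/
def Indep (y : ι → Fin n → K) : Prop :=
  (∀ z, y z ≠ 0) ∧ ∀ z z' : ι, z ≠ z' → ∀ c : K, y z' ≠ c • y z

/-- The values at the vectors `y z` of the forms of degree `t`. -/
noncomputable def evs (y : ι → Fin n → K) (t : ℕ) : Submodule K (ι → K) :=
  (homogeneousSubmodule (Fin n) K t).map (LinearMap.pi fun z => (aeval (y z)).toLinearMap)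

theorem mem_evs (y : ι → Fin n → K) (t : ℕ) (F : ι → K) :
    F ∈ evs y t ↔ ∃ q : MvPolynomial (Fin n) K, q.IsHomogeneous t ∧ ∀ z, eval (y z) q = F z := by
  simp only [evs, Submodule.mem_map, mem_homogeneousSubmodule]
  constructor
  · rintro ⟨q, hq, rfl⟩
    exact ⟨q, hq, fun z => by simp [aeval_eq_eval]⟩
  · rintro ⟨q, hq, h⟩
    refine ⟨q, hq, funext fun z => ?_⟩
    simp [aeval_eq_eval, h z]

/-- The projection from `p` along the last coordinate. -/
def proj (p : Fin (n+1) → K) (v : Fin (n+1) → K) : Fin n → K :=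
  fun i => p (Fin.last n) * v i.castSucc - v (Fin.last n) * p i.castSucc

/-- The Hilbert function of `A / I` in degree `t`. -/
noncomputable def hf (I : Ideal (MvPolynomial (Fin n) K)) (t : ℕ) : ℕ :=
  Module.finrank K ((homogeneousSubmodule (Fin n) K t).map (Ideal.Quotient.mkₐ K I).toLinearMap)

theorem idl_mono (X : ι → MvPolynomial (Fin n) K) {S T : Finset ι} (h : S ⊆ T) :
    idl X S ≤ idl X T :=
  Ideal.span_mono (Set.image_mono (by exact_mod_cast h))

theorem mem_idl (X : ι → MvPolynomial (Fin n) K) {T : Finset ι} {i : ι} (h : i ∈ T) :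
    X i ∈ idl X T :=
  Ideal.subset_span ⟨i, by exact_mod_cast h, rfl⟩

theorem idl_insert [DecidableEq ι] (X : ι → MvPolynomial (Fin n) K) (T : Finset ι) (i : ι) :
    idl X (insert i T) = idl X T ⊔ Ideal.span {X i} := by
  unfold idl
  rw [Finset.coe_insert, Set.image_insert_eq, Ideal.span_insert, sup_comm]

theorem idl_update [DecidableEq ι] (X : ι → MvPolynomial (Fin n) K) (T : Finset ι) (k : ι)
    (b : MvPolynomial (Fin n) K) (hk : k ∉ T) : idl (Function.update X k b) T = idl X T := by
  unfold idl
  congr 1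
  refine Set.image_congr fun i hi => ?_
  rw [Function.update_of_ne]
  rintro rfl
  exact hk (by exact_mod_cast hi)

theorem idl_univ [Fintype ι] (X : ι → MvPolynomial (Fin n) K) :
    idl X Finset.univ = Ideal.span (Set.range X) := by
  unfold idl
  rw [Finset.coe_univ, Set.image_univ]

/-- the whole ideal, with the `k`-th member separated -/
theorem idl_univ_split [Fintype ι] [DecidableEq ι] (X : ι → MvPolynomial (Fin n) K) (k : ι) :
    idl X Finset.univ = idl X (Finset.univ.erase k) ⊔ Ideal.span {X k} := by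
  rw [← idl_insert, Finset.insert_erase (Finset.mem_univ k)]

end Geproci
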