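import Pool.Agent.Work.MP_efd9e3_ag.Hom

/-! MODULE RegUpd (MP_efd9e3_ag).

Let `I(T) = idl X T`; note `idl (update X k b) T = I(T)` for `k ∉ T` (`idl_update`) and
`idl (update X k b) (insert k T) = I(T) ⊔ span {b}` (`idl_insert`).  Abbreviate `x_i = X i`.

Step 1.  `b` is regular modulo `I' = I(univ \ {k})`: since `Y = update X k b` is Full, `x_k ^ N` (a form of
degree `N * e k ≥ N`) lies in `idl Y univ = I' ⊔ span {b}`, so `x_k ^ N = g * b + r`, `r ∈ I'`.  If
`b * u ∈ I'` then `x_k ^ N * u ∈ I'`, and `Reg X` (for `T = univ \ {k}`, `i = k`), applied `N` times, gives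
`u ∈ I'`.

Step 2.  For every `T` with `k ∉ T`: `b * u ∈ I(T) → u ∈ I(T)`.  Induction on the number of elements of
`(univ \ {k}) \ T`; if it is `0` this is step 1.  Otherwise choose `i ∉ T`, `i ≠ k`; the statement holds for
`insert i T`.  By taking homogeneous components (`comp_mem`; `b` is homogeneous, so the component of `b * u`
of degree `t + β` is `b * u_t`; and `u = Σ u_t`) it suffices to treat `u` homogeneous of degree `t`; strong
induction on `t`.  `b * u ∈ I(T) ⊆ I(insert i T)`, so `u ∈ I(insert i T) = I(T) ⊔ span {x_i}`; by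
`split_one`, `u - v * x_i ∈ I(T)` with `v = 0` or `v` homogeneous of degree `s`, `s + e i = t`.  If `v = 0`
done.  Otherwise `x_i * (b * v) ∈ I(T)`, so `b * v ∈ I(T)` by `Reg X` (`i ∉ T`), so `v ∈ I(T)` by the
induction on the degree (`s < t` as `e i ≥ 1`), so `u ∈ I(T)`.

Step 3.  `Reg Y`: let `i ∉ T` and `Y_i * u ∈ idl Y T`.
 * `k ∉ T`, `i = k`: step 2.   * `k ∉ T`, `i ≠ k`: `Reg X`.
 * `k ∈ T` (so `i ≠ k`): `T = insert k T'`, `k, i ∉ T'`.  `x_i * u = v * b + r`, `r ∈ I(T')`.  Then
   `b * v ∈ I(insert i T')`, so `v ∈ I(insert i T')` by step 2 (`k ∉ insert i T'`), `v = w * x_i + r'`, so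
   `x_i * (u - w * b) ∈ I(T')`, so `u - w * b ∈ I(T')` by `Reg X`, so `u ∈ I(T') ⊔ span {b} = idl Y T`. -/

set_option autoImplicit false

open MvPolynomial

namespace Geproci

variable {K : Type*} [Field K] {n : ℕ} {ι : Type*}

private theorem reg_pow (X : ι → MvPolynomial (Fin n) K) (hR : Reg X) (T : Finset ι) (i : ι)
    (hi : i ∉ T) (N : ℕ) : ∀ u : MvPolynomial (Fin n) K, X i ^ N * u ∈ idl X T → u ∈ idl X T := by
  induction N with
  | zero => intro u hu; simpa using hu
  | succ N ih =>
    intro u hu
    apply ih
    apply hR T i hi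
    have : X i * (X i ^ N * u) = X i ^ (N+1) * u := by ring
    rw [this]; exact hu

private theorem mem_sup_span {R : Type*} [CommRing R] (I : Ideal R) (b q : R)
    (h : q ∈ I ⊔ Ideal.span {b}) : ∃ v r : R, r ∈ I ∧ q = v * b + r := by
  obtain ⟨r, hr, s, hs, rfl⟩ := Submodule.mem_sup.mp h
  obtain ⟨v, rfl⟩ := Ideal.mem_span_singleton'.mp hs
  exact ⟨v, r, hr, by ring⟩

private theorem step1 [Fintype ι] [DecidableEq ι] (X : ι → MvPolynomial (Fin n) K) (e : ι → ℕ)
    (hX : ∀ i, (X i).IsHomogeneous (e i)) (he : ∀ i, 1 ≤ e i) (k : ι)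
    (b : MvPolynomial (Fin n) K) (hR : Reg X)
    (hF : Full (idl (Function.update X k b) Finset.univ)) (u : MvPolynomial (Fin n) K)
    (hu : b * u ∈ idl X (Finset.univ.erase k)) : u ∈ idl X (Finset.univ.erase k) := by
  obtain ⟨N, hN⟩ := hF
  have h1 : X k ^ N ∈ idl (Function.update X k b) Finset.univ := by
    refine hN (e k * N) ?_ _ ((hX k).pow N)
    have := he k
    nlinarith
  rw [idl_univ_split _ k, idl_update X _ k b (Finset.notMem_erase k _)] at h1
  simp only [Function.update_self] at h1
  obtain ⟨g, r, hr, hgr⟩ := mem_sup_span _ _ _ h1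
  apply reg_pow X hR _ k (Finset.notMem_erase k _) N u
  rw [hgr]
  have : (g * b + r) * u = g * (b * u) + u * r := by ring
  rw [this]
  exact Ideal.add_mem _ (Ideal.mul_mem_left _ _ hu) (Ideal.mul_mem_left _ _ hr)

private theorem comp_mul (b u : MvPolynomial (Fin n) K) (β t : ℕ) (hb : b.IsHomogeneous β) :
    homogeneousComponent (t + β) (b * u) = b * homogeneousComponent t u := by
  classical
  conv_lhs => rw [← sum_homogeneousComponent u, Finset.mul_sum, map_sum]
  by_cases ht : t < u.totalDegree + 1
  · rw [Finset.sum_eq_single t]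
    · have h1 : (b * homogeneousComponent t u).IsHomogeneous (t + β) := by
        have := hb.mul (homogeneousComponent_isHomogeneous t u)
        rwa [add_comm] at this
      rw [homogeneousComponent_of_mem h1, if_pos rfl]
    · intro s _ hs
      have h1 : (b * homogeneousComponent s u).IsHomogeneous (s + β) := by
        have := hb.mul (homogeneousComponent_isHomogeneous s u)
        rwa [add_comm] at this
      rw [homogeneousComponent_of_mem h1, if_neg (by omega)]
    · intro h
      exact absurd (Finset.mem_range.mpr ht) h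
  · rw [homogeneousComponent_eq_zero t u (by omega), mul_zero]
    refine Finset.sum_eq_zero fun s hs => ?_
    have h1 : (b * homogeneousComponent s u).IsHomogeneous (s + β) := by
      have := hb.mul (homogeneousComponent_isHomogeneous s u)
      rwa [add_comm] at this
    have := Finset.mem_range.mp hs
    rw [homogeneousComponent_of_mem h1, if_neg (by omega)]

private theorem step2 [Fintype ι] [DecidableEq ι] (X : ι → MvPolynomial (Fin n) K) (e : ι → ℕ)
    (hX : ∀ i, (X i).IsHomogeneous (e i)) (he : ∀ i, 1 ≤ e i) (k : ι)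
    (b : MvPolynomial (Fin n) K) (β : ℕ) (hb : b.IsHomogeneous β) (hR : Reg X)
    (hF : Full (idl (Function.update X k b) Finset.univ)) (c : ℕ) :
    ∀ T : Finset ι, k ∉ T → (Finset.univ.erase k \ T).card = c →
      ∀ u : MvPolynomial (Fin n) K, b * u ∈ idl X T → u ∈ idl X T := by
  induction c with
  | zero =>
    intro T hk hc u hu
    have hT : T = Finset.univ.erase k := by
      rw [Finset.card_eq_zero, Finset.sdiff_eq_empty_iff_subset] at hc
      refine Finset.Subset.antisymm (fun i hi => ?_) hc
      exact Finset.mem_erase.mpr ⟨fun h => hk (h ▸ hi), Finset.mem_univ i⟩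
    subst hT
    exact step1 X e hX he k b hR hF u hu
  | succ c ih =>
    intro T hk hc
    have hne : (Finset.univ.erase k \ T).Nonempty := by
      rw [← Finset.card_pos, hc]; omega
    obtain ⟨i, hi⟩ := hne
    obtain ⟨hi1, hiT⟩ := Finset.mem_sdiff.mp hi
    have hik : i ≠ k := (Finset.mem_erase.mp hi1).1
    have hkI : k ∉ insert i T := by
      rw [Finset.mem_insert, not_or]; exact ⟨hik.symm, hk⟩
    have hcard : (Finset.univ.erase k \ insert i T).card = c := by
      have : Finset.univ.erase k \ insert i T = (Finset.univ.erase k \ T).erase i := by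
        ext j
        simp only [Finset.mem_sdiff, Finset.mem_erase, Finset.mem_univ, and_true,
          Finset.mem_insert, not_or]
        tauto
      rw [this, Finset.card_erase_of_mem hi, hc]
      rfl
    have ih' := ih (insert i T) hkI hcard
    -- homogeneous case
    have hom : ∀ t : ℕ, ∀ u : MvPolynomial (Fin n) K, u.IsHomogeneous t → b * u ∈ idl X T →
        u ∈ idl X T := by
      intro t
      induction t using Nat.strong_induction_on with
      | _ t iht =>
        intro u hut hu
        have h1 : u ∈ idl X (insert i T) :=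
          ih' u (idl_mono X (Finset.subset_insert i T) hu)
        rw [idl_insert] at h1
        obtain ⟨v, hv, huv⟩ := split_one X e hX T (X i) (e i) (hX i) u t hut h1
        rcases hv with ⟨s, hvs, hst⟩ | rfl
        · have h2 : X i * (b * v) ∈ idl X T := by
            have : X i * (b * v) = b * u - b * (u - v * X i) := by ring
            rw [this]
            exact Ideal.sub_mem _ hu (Ideal.mul_mem_left _ _ huv)
          have h3 := hR T i hiT _ h2
          have h4 : v ∈ idl X T := by
            refine iht s ?_ v hvs h3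
            have := he i
            omega
          have : u = (u - v * X i) + X i * v := by ring
          rw [this]
          exact Ideal.add_mem _ huv (Ideal.mul_mem_left _ _ h4)
        · simpa using huv
    intro u hu
    rw [← sum_homogeneousComponent u]
    refine Ideal.sum_mem _ fun t _ => ?_
    apply hom t _ (homogeneousComponent_isHomogeneous t u)
    rw [← comp_mul b u β t hb]
    exact comp_mem X e hX T _ hu _

theorem reg_update [Fintype ι] [DecidableEq ι] (X : ι → MvPolynomial (Fin n) K) (e : ι → ℕ)
    (hX : ∀ i, (X i).IsHomogeneous (e i)) (he : ∀ i, 1 ≤ e i) (k : ι)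
    (b : MvPolynomial (Fin n) K) (β : ℕ) (hb : b.IsHomogeneous β) (hR : Reg X)
    (hF : Full (idl (Function.update X k b) Finset.univ)) :
    Reg (Function.update X k b) := by
  have s2 : ∀ T : Finset ι, k ∉ T → ∀ u : MvPolynomial (Fin n) K, b * u ∈ idl X T →
      u ∈ idl X T := fun T hT =>
    step2 X e hX he k b β hb hR hF _ T hT rfl
  intro T i hi u hu
  by_cases hk : k ∈ T
  · have hik : i ≠ k := fun h => hi (h ▸ hk)
    obtain ⟨T', hkT', rfl⟩ : ∃ T' : Finset ι, k ∉ T' ∧ insert k T' = T :=
      ⟨T.erase k, Finset.notMem_erase k T, Finset.insert_erase hk⟩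
    have hiT' : i ∉ T' := fun h => hi (Finset.mem_insert_of_mem h)
    rw [idl_insert, idl_update X T' k b hkT', Function.update_self] at hu ⊢
    rw [Function.update_of_ne hik] at hu
    obtain ⟨v, r, hr, hvr⟩ := mem_sup_span _ _ _ hu
    have h1 : b * v ∈ idl X (insert i T') := by
      rw [idl_insert]
      have : b * v = (- r) + u * X i := by
        have : v * b = X i * u - r := by rw [hvr]; ring
        rw [mul_comm b v, this]; ring
      rw [this]
      exact Submodule.add_mem_sup (Ideal.neg_mem_iff _ |>.mpr hr)
        (Ideal.mul_mem_left _ _ (Ideal.mem_span_singleton_self _))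
    have h2 := s2 (insert i T') (by
      rw [Finset.mem_insert, not_or]; exact ⟨hik.symm, hkT'⟩) v h1
    rw [idl_insert] at h2
    obtain ⟨w, r', hr', hwr⟩ := mem_sup_span _ _ _ h2
    have h3 : X i * (u - w * b) ∈ idl X T' := by
      have : X i * (u - w * b) = b * r' + r := by
        have : X i * (u - w * b) = X i * u - w * X i * b := by ring
        rw [this, hvr, hwr]; ring
      rw [this]
      exact Ideal.add_mem _ (Ideal.mul_mem_left _ _ hr') hr
    have h4 := hR T' i hiT' _ h3
    have : u = (u - w * b) + w * b := by ring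
    rw [this]
    exact Submodule.add_mem_sup h4
      (Ideal.mul_mem_left _ _ (Ideal.mem_span_singleton_self _))
  · rw [idl_update X T k b hk] at hu ⊢
    by_cases hik : i = k
    · subst hik
      rw [Function.update_self] at hu
      exact s2 T hk u hu
    · rw [Function.update_of_ne hik] at hu
      exact hR T i hi u hu

end Geproci
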