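import Pool.Agent.Work.MP_efd9e3_ag.SocMain
import Pool.Agent.Work.MP_efd9e3_ag.PtsSep

/-! MODULE SocStep (MP_efd9e3_ag).

Let `𝔞_t` be the set of forms `a` of degree `t` such that `(h z * a(y_z))_z ∈ evs y (t+1)`.
`𝔞_0 ∌ 1` (`hh`), `𝔞_t` is everything for `t + 2 ≥ card ι` (`evs_top`).  Let `t` be the largest degree such that
some form `a` of degree `t` is not in `𝔞_t` (`Nat.findGreatest`/well-founded), fix `a`.  Then every form of degree
`t + 1` is in `𝔞_{t+1}`: there are forms `b_j` of degree `t + 2` with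
`b_j(y_z) = h_z (y_z)_j a(y_z)` for all `z`, `j`.
Let `w` be with `Σ_j w_j (y_z)_j ≠ 0` for all `z` (`exists_comb`), `ℓ = Σ_j C (w_j) X_j`,
`b = Σ_j C (w_j) b_j`: `b(y_z) = h_z ℓ(y_z) a(y_z)`.
System `Y = Fin.cons ℓ f : Fin (m+1) → A`, degrees `Fin.cons 1 d` (all `≥ 1`).
 * `Full (idl Y univ)`: by `full_of_zero`; a common zero `x` of `f` is `c • y_z` (`zeros_vanish`; the ideal
   `span (range f)` is `vanish y`), `ℓ(x) = c ℓ(y_z) = 0` gives `c = 0`, `x = 0`.
 * `X_j * b ∈ idl Y univ`: `X_j * b - ℓ * b_j` is a form of degree `t + 3` vanishing at all `y_z`, so on the lines,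
   so it lies in `vanish y = span (range f)`.
 * `b ∉ idl Y univ`: otherwise by `split_one`/`split_all` `b = c * ℓ + Σ g_i f_i`, `c` homogeneous of degree
   `t + 1` or `0`; evaluating at `y_z` and dividing by `ℓ(y_z)`: `c(y_z) = h_z a(y_z)`, i.e. `a ∈ 𝔞_t`,
   contradiction.
 By `soc_main`: `(t + 2) + (m + 1) = 1 + Σ d_i`. -/

set_option autoImplicit false

open MvPolynomial

namespace Geproci

variable {K : Type*} [Field K] {ι : Type*}

private theorem eval_smul_form {n : ℕ} (q : MvPolynomial (Fin n) K) (t : ℕ) (hq : q.IsHomogeneous t)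
    (c : K) (v : Fin n → K) : eval (c • v) q = c ^ t * eval v q := by
  rw [eval_eq, eval_eq, Finset.mul_sum]
  refine Finset.sum_congr rfl fun m hm => ?_
  have hc : coeff m q ≠ 0 := by simpa [mem_support_iff] using hm
  have hdeg : m.degree = t := by
    have := hq hc
    rwa [Finsupp.degree_eq_weight_one]
  have h1 : ∏ i ∈ m.support, (c • v) i ^ m i = c ^ t * ∏ i ∈ m.support, v i ^ m i := by
    simp only [Pi.smul_apply, smul_eq_mul, mul_pow, Finset.prod_mul_distrib]
    congr 1
    rw [Finset.prod_pow_eq_pow_sum, ← hdeg]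
    rfl
  rw [h1]; ring

theorem soc_step [IsAlgClosed K] [Fintype ι] [Nonempty ι] {m : ℕ} (y : ι → Fin (m+1) → K)
    (hy : Indep y)
    (f : Fin m → MvPolynomial (Fin (m+1)) K) (d : Fin m → ℕ) (hd : ∀ i, (f i).IsHomogeneous (d i))
    (hd1 : ∀ i, 1 ≤ d i)
    (hf : (Ideal.span (Set.range f) : Set (MvPolynomial (Fin (m+1)) K)) = vanish y)
    (h : ι → K) (hh : h ∉ evs y 1) :
    ∃ (t : ℕ) (a : MvPolynomial (Fin (m+1)) K), a.IsHomogeneous t ∧
      (fun z => h z * eval (y z) a) ∉ evs y (t+1) ∧ t + m + 2 = ∑ i, d i := by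
  classical
  have : Infinite K := IsAlgClosed.instInfinite
  let P : ℕ → Prop := fun t => ∃ a : MvPolynomial (Fin (m+1)) K, a.IsHomogeneous t ∧
    (fun z => h z * eval (y z) a) ∉ evs y (t+1)
  have hP0 : P 0 := ⟨1, isHomogeneous_one _ _, by simpa using hh⟩
  have hPbig : ∀ t, Fintype.card ι ≤ t + 2 → ¬ P t := by
    rintro t ht ⟨a, -, ha⟩
    apply ha
    rw [evs_top y hy (t+1) ht]
    trivial
  obtain ⟨t, ht, ht1⟩ : ∃ t, P t ∧ ¬ P (t+1) := by
    by_contra hcon
    push Not at hcon
    have : ∀ t, P t := fun t => by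
      induction t with
      | zero => exact hP0
      | succ t ih => exact hcon t ih
    exact hPbig (Fintype.card ι) (by omega) (this _)
  obtain ⟨a, ha, hna⟩ := ht
  have hbj : ∀ j : Fin (m+1), ∃ q : MvPolynomial (Fin (m+1)) K, q.IsHomogeneous (t+2) ∧
      ∀ z, eval (y z) q = h z * (y z j * eval (y z) a) := by
    intro j
    by_contra hcon
    apply ht1
    refine ⟨MvPolynomial.X j * a, ?_, ?_⟩
    · rw [show t + 1 = 1 + t by omega]
      exact (isHomogeneous_X K j).mul ha
    · intro hmem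
      rw [mem_evs] at hmem
      obtain ⟨q, hq, hqz⟩ := hmem
      exact hcon ⟨q, hq, fun z => by rw [hqz z]; simp⟩
  choose b hb hbe using hbj
  obtain ⟨w, hw⟩ := exists_comb y hy.1
  set ℓ : MvPolynomial (Fin (m+1)) K := ∑ j, C (w j) * MvPolynomial.X j with hℓ
  set B : MvPolynomial (Fin (m+1)) K := ∑ j, C (w j) * b j with hB
  have hℓh : ℓ.IsHomogeneous 1 := by
    refine IsHomogeneous.sum _ _ _ fun j _ => ?_
    have := (isHomogeneous_C (Fin (m+1)) (w j)).mul (isHomogeneous_X K j)
    simpa using this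
  have hBh : B.IsHomogeneous (t+2) := by
    refine IsHomogeneous.sum _ _ _ fun j _ => ?_
    have := (isHomogeneous_C (Fin (m+1)) (w j)).mul (hb j)
    simpa using this
  have hℓe : ∀ x : Fin (m+1) → K, eval x ℓ = ∑ j, w j * x j := fun x => by simp [hℓ]
  have hBe : ∀ z, eval (y z) B = (∑ j, w j * y z j) * (h z * eval (y z) a) := by
    intro z
    simp only [hB, map_sum, map_mul, eval_C, hbe]
    rw [Finset.sum_mul]
    exact Finset.sum_congr rfl fun j _ => by ring
  have hspan : ∀ q, q ∈ Ideal.span (Set.range f) ↔ q ∈ vanish y := by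
    intro q; rw [← hf]; rfl
  set Y : Fin (m+1) → MvPolynomial (Fin (m+1)) K := Fin.cons ℓ f with hY
  set e : Fin (m+1) → ℕ := Fin.cons 1 d with he
  have hYh : ∀ i, (Y i).IsHomogeneous (e i) := by
    intro i
    refine Fin.cases ?_ (fun i => ?_) i
    · simpa [hY, he] using hℓh
    · simpa [hY, he] using hd i
  have he1 : ∀ i, 1 ≤ e i := by
    intro i
    refine Fin.cases ?_ (fun i => ?_) i
    · simp [he]
    · simpa [he] using hd1 i
  have hsub : Ideal.span (Set.range f) ≤ idl Y Finset.univ := by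
    rw [idl_univ]
    refine Ideal.span_mono ?_
    rintro _ ⟨i, rfl⟩
    exact ⟨i.succ, by simp [hY]⟩
  have hℓmem : ℓ ∈ idl Y Finset.univ := by
    have := mem_idl Y (Finset.mem_univ (0 : Fin (m+1)))
    simpa [hY] using this
  have hFull : Full (idl Y Finset.univ) := by
    apply full_of_zero
    intro x hx
    obtain ⟨z, c, rfl⟩ := zeros_vanish y hy.1 x (fun q hq => hx q (hsub ((hspan q).mpr hq)))
    have h1 := hx ℓ hℓmem
    rw [eval_smul_form ℓ 1 hℓh, hℓe, pow_one] at h1
    rcases mul_eq_zero.mp h1 with h2 | h2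
    · rw [h2, zero_smul]
    · exact absurd h2 (hw z)
  obtain ⟨-, hS⟩ := soc_main Y e hYh he1 hFull
  have hXB : ∀ j : Fin (m+1), MvPolynomial.X j * B ∈ idl Y Finset.univ := by
    intro j
    have h1 : MvPolynomial.X j * B - ℓ * b j ∈ Ideal.span (Set.range f) := by
      rw [hspan]
      intro z c
      have hhom : (MvPolynomial.X j * B - ℓ * b j).IsHomogeneous (1 + (t+2)) :=
        ((isHomogeneous_X K j).mul hBh).sub (hℓh.mul (hb j))
      rw [eval_smul_form _ _ hhom]
      have : eval (y z) (MvPolynomial.X j * B - ℓ * b j) = 0 := by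
        rw [map_sub, map_mul, map_mul, hBe, hbe, hℓe, eval_X]
        ring
      rw [this, mul_zero]
    have : MvPolynomial.X j * B = (MvPolynomial.X j * B - ℓ * b j) + b j * ℓ := by ring
    rw [this]
    exact Ideal.add_mem _ (hsub h1) (Ideal.mul_mem_left _ _ hℓmem)
  have hBn : B ∉ idl Y Finset.univ := by
    intro hcon
    rw [idl_univ] at hcon
    obtain ⟨g, hg, hgB⟩ := split_all Y e hYh B (t+2) hBh hcon
    have hfz : ∀ z i, eval (y z) (f i) = 0 := by
      intro z i
      have := (hspan (f i)).mp (Ideal.subset_span ⟨i, rfl⟩) z 1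
      rwa [one_smul] at this
    have hg0 : ∀ z, eval (y z) (g 0) = h z * eval (y z) a := by
      intro z
      have h2 : B = g 0 * ℓ + ∑ i : Fin m, g i.succ * f i := by
        rw [hgB, Fin.sum_univ_succ]
        simp [hY]
      have h1 := congrArg (eval (y z)) h2
      rw [hBe, map_add, map_mul, hℓe] at h1
      have h3 : eval (y z) (∑ i : Fin m, g i.succ * f i) = 0 := by
        rw [map_sum]
        exact Finset.sum_eq_zero fun i _ => by rw [map_mul, hfz, mul_zero]
      rw [h3, add_zero, mul_comm (eval (y z) (g 0))] at h1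
      exact (mul_left_cancel₀ (hw z) h1).symm
    apply hna
    rw [mem_evs]
    refine ⟨g 0, ?_, hg0⟩
    rcases hg 0 with ⟨s, hs, hst⟩ | h0
    · have : s = t + 1 := by
        simp only [he, Fin.cons_zero] at hst
        omega
      rwa [this] at hs
    · rw [h0]; exact isHomogeneous_zero _ _ _
  have hfin := hS B (t+2) hBh hBn hXB
  have hsum : ∑ i, e i = 1 + ∑ i, d i := by
    rw [Fin.sum_univ_succ]; simp [he]
  exact ⟨t, a, ha, hna, by omega⟩

end Geproci
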